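import Pool.Graph.R_seed8.TH120.Sec.Supply
import Pool.Graph.R_seed8.TH120.Sec.ExL

/-! Primes whose Frobenius elements act on the roots of a polynomial in cycles of given lengths. -/

set_option autoImplicit false
set_option linter.all false

open Polynomial NumberField IsDedekindDomain

namespace Pool.Agent.Helper45.EP

open Pool.Agent.W401.Cheb Pool.Agent.TH120.Sec

/-- the reduction of `h` modulo `v` has no root in the extension of degree `n` of the residue field,
for all `n` with the property `Q` -/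
def NoRoots {K : Type} [Field K] [NumberField K] (v : HeightOneSpectrum (𝓞 K)) (Q : ℕ → Prop)
    (h : (𝓞 K)[X]) : Prop :=
  ∀ n, Q n → IsCoprime (X ^ (Ideal.absNorm v.asIdeal ^ n) - X)
    (h.map (Ideal.Quotient.mk v.asIdeal))

theorem primes_supply {K : Type} [Field K] [NumberField K] (h : (𝓞 K)[X]) (hm : h.Monic)
    (σ : AlgebraicClosure K ≃ₐ[K] AlgebraicClosure K) (Q : ℕ → Prop)
    (hσ : ∀ n, Q n → ∀ θ, aeval θ (h.map (algebraMap (𝓞 K) K)) = 0 → (σ^[n]) θ ≠ θ)
    (c : 𝓞 K) (hc : c ≠ 0) (ε : ℝ) (hε : 0 < ε) :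
    ∃ T : Finset (HeightOneSpectrum (𝓞 K)), (∀ v ∈ T, c ∉ v.asIdeal ∧ NoRoots v Q h) ∧
      ∏ v ∈ T, (1 - (1 / (Ideal.absNorm v.asIdeal : ℝ) -
        1 / (Ideal.absNorm v.asIdeal : ℝ) ^ 2)) < ε := by
  classical
  set hK : K[X] := h.map (algebraMap (𝓞 K) K) with hhK
  have hKm : hK.Monic := hm.map _
  have hK0 : hK.map (algebraMap K (AlgebraicClosure K)) ≠ 0 := (hKm.map _).ne_zero
  obtain ⟨L, _, _, _, i, τ, κ, hκi, hκτ, hκs⟩ := exists_L K
    {ρ | (hK.map (algebraMap K (AlgebraicClosure K))).eval ρ = 0}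
    (Polynomial.finite_setOfPred_isRoot hK0) σ
  have hκinj := κ.injective
  have hτi : ∀ x, τ (i x) = i x := by
    intro x
    apply hκinj
    rw [hκτ, hκi, AlgEquiv.commutes]
  let iO : 𝓞 K →+* 𝓞 L := RingOfIntegers.mapRingHom i
  have hiO : ∀ x, ((iO x : 𝓞 L) : L) = i x := fun x => rfl
  have hiinj : Function.Injective iO := by
    intro x y hxy
    have h1 : (iO x : L) = iO y := by rw [hxy]
    rw [hiO, hiO] at h1
    exact RingOfIntegers.coe_injective (i.injective h1)
  set P : L[X] := hK.map i with hP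
  have hPm : P.Monic := hKm.map _
  have hκi' : κ.comp i = algebraMap K (AlgebraicClosure K) := RingHom.ext hκi
  have hPκ : P.map κ = hK.map (algebraMap K (AlgebraicClosure K)) := by
    rw [hP, Polynomial.map_map, hκi']
  have hPsp : P.Splits := by
    refine Splits.of_splits_map κ (IsAlgClosed.splits _) ?_
    intro a ha
    rw [hPκ] at ha
    obtain ⟨y, hy⟩ := hκs a (isRoot_of_mem_roots ha)
    exact ⟨y, hy⟩
  have hPO : P = h.map ((algebraMap (𝓞 L) L).comp iO) := by
    rw [hP, hhK, Polynomial.map_map]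
    rfl
  have hint : ∀ θ ∈ P.roots, IsIntegral ℤ θ := by
    intro θ hθ
    have h2 : P.eval θ = 0 := isRoot_of_mem_roots hθ
    rw [hPO, ← Polynomial.map_map, eval_map] at h2
    have h3 : IsIntegral (𝓞 L) θ := ⟨h.map iO, hm.map _, h2⟩
    exact isIntegral_trans (R := ℤ) (A := 𝓞 L) _ h3
  have hηex : ∀ θ : L, ∃ y : 𝓞 L, θ ∈ P.roots → ((y : 𝓞 L) : L) = θ := by
    intro θ
    by_cases hθ : θ ∈ P.roots
    · exact ⟨⟨_, hint θ hθ⟩, fun _ => rfl⟩
    · exact ⟨0, fun h => absurd h hθ⟩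
  choose η hη using hηex
  have hprod : h.map iO = (P.roots.map fun θ => X - C (η θ)).prod := by
    apply Polynomial.map_injective (algebraMap (𝓞 L) L) RingOfIntegers.coe_injective
    rw [Polynomial.map_map, ← hPO, Polynomial.map_multiset_prod, Multiset.map_map]
    conv_lhs => rw [hPsp.eq_prod_roots, hPm.leadingCoeff, C_1, one_mul]
    congr 1
    refine Multiset.map_congr rfl fun θ hθ => ?_
    simp only [Function.comp_apply, Polynomial.map_sub, map_X, map_C]
    congr 2
    exact (hη θ hθ).symm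
  have hκn : ∀ (n : ℕ) (ρ : L), κ ((τ^[n]) ρ) = (σ^[n]) (κ ρ) := by
    intro n
    induction n with
    | zero => intro ρ; rfl
    | succ n ih =>
      intro ρ
      rw [Function.iterate_succ_apply', Function.iterate_succ_apply', hκτ, ih]
  have hPτ : P.map (τ : L →+* L) = P := by
    rw [hP, Polynomial.map_map]
    congr 1
    exact RingHom.ext hτi
  have hRτ : ∀ θ ∈ P.roots, τ θ ∈ P.roots := by
    intro θ hθ
    have h2 : P.eval θ = 0 := isRoot_of_mem_roots hθ
    rw [mem_roots hPm.ne_zero, IsRoot.def]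
    have h3 : (P.map (τ : L →+* L)).eval ((τ : L →+* L) θ) = 0 := by
      rw [eval_map_apply, h2, map_zero]
    rw [hPτ] at h3
    exact h3
  have hRn : ∀ (n : ℕ), ∀ θ ∈ P.roots, (τ^[n]) θ ∈ P.roots := by
    intro n
    induction n with
    | zero => exact fun θ hθ => hθ
    | succ n ih =>
      intro θ hθ
      rw [Function.iterate_succ_apply']
      exact hRτ _ (ih θ hθ)
  have hne : ∀ n, Q n → ∀ θ ∈ P.roots, (τ^[n]) θ ≠ θ := by
    intro n hn θ hθ heq
    have h2 : P.eval θ = 0 := isRoot_of_mem_roots hθ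
    refine hσ n hn (κ θ) ?_ (by rw [← hκn, heq])
    rw [aeval_def, ← eval_map, ← hPκ, eval_map_apply, h2, map_zero]
  -- the avoided element
  set R : Finset L := P.roots.toFinset with hR
  set E : 𝓞 L := iO c * ∏ x ∈ (R ×ˢ R).filter (fun x => x.1 ≠ x.2), (η x.1 - η x.2) with hE
  have hE0 : E ≠ 0 := by
    refine mul_ne_zero ((map_ne_zero_iff iO hiinj).2 hc) ?_
    rw [Finset.prod_ne_zero_iff]
    intro x hx h0
    rw [Finset.mem_filter, Finset.mem_product] at hx
    apply hx.2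
    rw [← hη x.1 (Multiset.mem_toFinset.1 hx.1.1), ← hη x.2 (Multiset.mem_toFinset.1 hx.1.2),
      sub_eq_zero.1 h0]
  obtain ⟨T, hT, hTε⟩ := supply i τ hτi E hE0 (fun v => c ∉ v.asIdeal ∧ NoRoots v Q h) (by
    intro p _ φ hφ hφE v hv hnorm hψ
    rw [hE, map_mul] at hφE
    have hφc : φ (iO c) ≠ 0 := left_ne_zero_of_mul hφE
    have hφR := right_ne_zero_of_mul hφE
    rw [map_prod, Finset.prod_ne_zero_iff] at hφR
    have hφinj : ∀ θ ∈ P.roots, ∀ θ' ∈ P.roots, φ (η θ) = φ (η θ') → θ = θ' := by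
      intro θ hθ θ' hθ' heq
      by_contra hne
      refine hφR (θ, θ') ?_ ?_
      · rw [Finset.mem_filter, Finset.mem_product]
        exact ⟨⟨Multiset.mem_toFinset.2 hθ, Multiset.mem_toFinset.2 hθ'⟩, hne⟩
      · rw [map_sub, heq, sub_self]
    have hφτ : ∀ θ ∈ P.roots, φ (η (τ θ)) = φ (η θ) ^ p := by
      intro θ hθ
      rw [← hφ]
      congr 1
      apply RingOfIntegers.ext
      rw [hη _ (hRτ θ hθ)]
      have h1 : ((τ • η θ : 𝓞 L) : L) = τ (η θ : L) := rfl
      rw [h1, hη θ hθ]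
    have hφn : ∀ n : ℕ, ∀ θ ∈ P.roots, φ (η ((τ^[n]) θ)) = φ (η θ) ^ (p ^ n) := by
      intro n
      induction n with
      | zero => intro θ _; rw [pow_zero, pow_one]; rfl
      | succ n ih =>
        intro θ hθ
        rw [Function.iterate_succ_apply', hφτ _ (hRn n θ hθ), ih θ hθ, ← pow_mul, pow_succ]
    have hvm : v.asIdeal.IsMaximal := v.isMaximal
    let _ : Field (𝓞 K ⧸ v.asIdeal) := Ideal.Quotient.field _
    let ψ : 𝓞 K →+* AlgebraicClosure (ZMod p) := φ.comp iO
    have hψv : ∀ x, x ∈ v.asIdeal ↔ ψ x = 0 := hv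
    refine ⟨fun h => hφc ((hψv c).1 h), fun n hn => ?_⟩
    let ψ' : (𝓞 K ⧸ v.asIdeal) →+* AlgebraicClosure (ZMod p) :=
      Ideal.Quotient.lift v.asIdeal ψ fun x hx => (hψv x).1 hx
    have hψ' : ψ'.comp (Ideal.Quotient.mk v.asIdeal) = ψ := by
      ext x
      rfl
    have hPψ : (h.map (Ideal.Quotient.mk v.asIdeal)).map ψ' =
        (P.roots.map fun θ => X - C (φ (η θ))).prod := by
      rw [Polynomial.map_map, hψ', ← Polynomial.map_map, hprod, Polynomial.map_multiset_prod,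
        Multiset.map_map]
      congr 1
      refine Multiset.map_congr rfl fun θ _ => ?_
      simp
    have hroot : ∀ x : AlgebraicClosure (ZMod p),
        ((h.map (Ideal.Quotient.mk v.asIdeal)).map ψ').eval x = 0 →
        ∃ θ ∈ P.roots, x = φ (η θ) := by
      intro x hx
      rw [hPψ, eval_multiset_prod, Multiset.map_map, Multiset.prod_eq_zero_iff] at hx
      obtain ⟨θ, hθ, hx⟩ := Multiset.mem_map.1 hx
      refine ⟨θ, hθ, ?_⟩
      simp only [Function.comp_apply, eval_sub, eval_X, eval_C] at hx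
      exact sub_eq_zero.1 hx
    let _ : Algebra (𝓞 K ⧸ v.asIdeal) (AlgebraicClosure (ZMod p)) := ψ'.toAlgebra
    rw [isCoprime_iff_aeval_ne_zero_of_isAlgClosed _ (AlgebraicClosure (ZMod p))]
    intro x
    by_contra hx
    push Not at hx
    obtain ⟨hx1, hx2⟩ := hx
    rw [aeval_def, ← eval_map] at hx2
    obtain ⟨ρ, hρ, h5⟩ := hroot x hx2
    simp only [map_sub, map_pow, aeval_X] at hx1
    rw [sub_eq_zero, hnorm, h5, ← hφn n ρ hρ] at hx1
    exact hne n hn ρ hρ (hφinj _ (hRn n ρ hρ) _ hρ hx1)) 1 one_pos le_rfl ε hε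
  refine ⟨T, hT, ?_⟩
  simpa only [one_mul] using hTε

end Pool.Agent.Helper45.EP
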