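import Pool.Graph.R_seed8.Y157.PS.All

/-! Elements of a function field are units for the Gauss valuations of almost all primes. -/

set_option autoImplicit false
set_option linter.all false

open Polynomial FF NumberField

namespace Pool.Agent.Helper45.EP

open Pool.Agent.Y157.PS

/-- `M` is a field over `κ ⊇ K` which contains `E`, `V` is a valuation ring of `κ` for which `c` is a
unit, and `O` is a Gauss valuation ring of `M` with respect to `x` -/
structure Over (K : Type) [Field K] {E κ M : Type} [Field E] [Algebra K E] [Field κ] [Field M]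
    [Algebra K κ] [Algebra κ M] (x : E) (c : 𝓞 K) (i : E →+* M) (V : ValuationSubring κ)
    (O : ValuationSubring M) : Prop where
  comp : ∀ a : K, i (algebraMap K E a) = algebraMap κ M (algebraMap K κ a)
  int : ∀ a : 𝓞 K, algebraMap K κ (algebraMap (𝓞 K) K a) ∈ V
  unit : IsU V (algebraMap K κ (algebraMap (𝓞 K) K c))
  gauss : Gauss V (i x) O

section

variable {K : Type} [Field K] {E κ M : Type} [Field E] [Algebra K E] [Field κ] [Field M]
    [Algebra K κ] [Algebra κ M] {x : E} {c c' : 𝓞 K} {i : E →+* M} {V : ValuationSubring κ}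
    {O : ValuationSubring M}

theorem isU_left {a b : κ} (ha : a ∈ V) (hb : b ∈ V) (h : IsU V (a * b)) : IsU V a := by
  have h0 : a ≠ 0 := fun h0 => h.1 (by rw [h0, zero_mul])
  have hb0 : b ≠ 0 := fun h0 => h.1 (by rw [h0, mul_zero])
  refine ⟨h0, ha, ?_⟩
  have h1 : a⁻¹ = b * (a * b)⁻¹ := by
    rw [mul_inv, mul_comm a⁻¹, mul_inv_cancel_left₀ hb0]
  rw [h1]
  exact mul_mem hb h.2.2

theorem Over.left (h : Over K x (c * c') i V O) : Over K x c i V O := by
  refine ⟨h.comp, h.int, isU_left (h.int c) (h.int c') ?_, h.gauss⟩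
  have := h.unit
  rwa [map_mul, map_mul] at this

theorem Over.right (h : Over K x (c * c') i V O) : Over K x c' i V O :=
  Over.left (c' := c) (by rw [mul_comm]; exact h)

end

/-- `z` is a unit for the Gauss valuations of almost all primes -/
def AlmU (K : Type) [Field K] {E : Type} [Field E] [Algebra K E] (x z : E) : Prop :=
  ∃ c : 𝓞 K, c ≠ 0 ∧ ∀ (κ M : Type) [Field κ] [Field M] [Algebra K κ] [Algebra κ M] (i : E →+* M)
    (V : ValuationSubring κ) (O : ValuationSubring M), Over K x c i V O → IsU O (i z)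

section

variable {K : Type} [Field K] [NumberField K] {E : Type} [Field E] [Algebra K E] {x : E}

theorem AlmU.mul {z w : E} (hz : AlmU K x z) (hw : AlmU K x w) : AlmU K x (z * w) := by
  obtain ⟨c, hc, h⟩ := hz
  obtain ⟨c', hc', h'⟩ := hw
  refine ⟨c * c', mul_ne_zero hc hc', fun κ M _ _ _ _ i V O hO => ?_⟩
  rw [map_mul]
  exact (h κ M i V O hO.left).mul (h' κ M i V O hO.right)

theorem AlmU.inv {z : E} (hz : AlmU K x z) : AlmU K x z⁻¹ := by
  obtain ⟨c, hc, h⟩ := hz
  refine ⟨c, hc, fun κ M _ _ _ _ i V O hO => ?_⟩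
  rw [map_inv₀]
  exact (h κ M i V O hO).inv

theorem AlmU.poly (p : (𝓞 K)[X]) (hp : p ≠ 0) :
    AlmU K x (aeval x (p.map (algebraMap (𝓞 K) K))) := by
  refine ⟨p.leadingCoeff, leadingCoeff_ne_zero.2 hp, fun κ M _ _ _ _ i V O hO => ?_⟩
  have h1 : i (aeval x (p.map (algebraMap (𝓞 K) K))) =
      aeval (i x) ((p.map (algebraMap (𝓞 K) K)).map (algebraMap K κ)) := by
    rw [aeval_def, aeval_def, eval₂_map (algebraMap K κ), Polynomial.hom_eval₂]
    congr 1
    ext a
    exact hO.comp a
  rw [h1]
  refine hO.gauss.2 _ (fun n => ?_) ⟨p.natDegree, ?_⟩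
  · rw [coeff_map, coeff_map]; exact hO.int _
  · rw [coeff_map, coeff_map]; exact hO.unit

theorem AlmU.polyK (p : K[X]) (hp : p ≠ 0) : AlmU K x (aeval x p) := by
  classical
  obtain ⟨c, hc, hcf⟩ := IsLocalization.integerNormalization_spec (nonZeroDivisors (𝓞 K)) p
  set g := IsLocalization.integerNormalization (nonZeroDivisors (𝓞 K)) p with hg
  have hc0 : c ≠ 0 := nonZeroDivisors.ne_zero hc
  have hinj : Function.Injective (algebraMap (𝓞 K) K) := IsFractionRing.injective (𝓞 K) K
  have hcK : algebraMap (𝓞 K) K c ≠ 0 := by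
    rw [Ne, map_eq_zero_iff _ hinj]
    exact hc0
  have hgf : g.map (algebraMap (𝓞 K) K) = C (algebraMap (𝓞 K) K c) * p := by
    rw [hcf]
    ext i
    rw [coeff_smul, coeff_C_mul, Algebra.smul_def]
  have hg0 : g ≠ 0 := by
    intro h
    rw [h, Polynomial.map_zero] at hgf
    rcases mul_eq_zero.1 hgf.symm with h1 | h1
    · exact hcK (C_eq_zero.1 h1)
    · exact hp h1
  have h1 := AlmU.poly (K := K) (x := x) g hg0
  have h2 := AlmU.poly (K := K) (x := x) (C c) (C_ne_zero.2 hc0)
  have h3 : aeval x p = aeval x (g.map (algebraMap (𝓞 K) K)) *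
      (aeval x ((C c).map (algebraMap (𝓞 K) K)))⁻¹ := by
    rw [hgf, map_mul, map_C, aeval_C]
    have h4 : algebraMap K E (algebraMap (𝓞 K) K c) ≠ 0 := (_root_.map_ne_zero _).2 hcK
    field_simp
  rw [h3]
  exact h1.mul h2.inv

/-- nonzero elements of `K(x)` -/
theorem AlmU.rat {z : E} (hz : z ∈ IntermediateField.adjoin K {x}) (h0 : z ≠ 0) :
    AlmU K x z := by
  rw [IntermediateField.mem_adjoin_simple_iff] at hz
  obtain ⟨p, q, h⟩ := hz
  have hq : aeval x q ≠ 0 := by
    intro hq
    rw [hq, div_zero] at h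
    exact h0 h
  have hp : aeval x p ≠ 0 := by
    intro hp
    rw [hp, zero_div] at h
    exact h0 h
  rw [h, div_eq_mul_inv]
  exact (AlmU.polyK p (by rintro rfl; exact hp (map_zero _))).mul
    (AlmU.polyK q (by rintro rfl; exact hq (map_zero _))).inv

/-- finitely many elements -/
theorem AlmU.fin {ι : Type} (T : Finset ι) (f : ι → E) (h : ∀ j ∈ T, AlmU K x (f j)) :
    ∃ c : 𝓞 K, c ≠ 0 ∧ ∀ (κ M : Type) [Field κ] [Field M] [Algebra K κ] [Algebra κ M] (i : E →+* M)
      (V : ValuationSubring κ) (O : ValuationSubring M), Over K x c i V O →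
        ∀ j ∈ T, IsU O (i (f j)) := by
  classical
  induction T using Finset.induction_on with
  | empty =>
    refine ⟨1, one_ne_zero, fun κ M _ _ _ _ i V O hO j hj => absurd hj (Finset.notMem_empty j)⟩
  | insert a T ha ih =>
    obtain ⟨c, hc, hc'⟩ := ih fun j hj => h j (Finset.mem_insert_of_mem hj)
    obtain ⟨d, hd, hd'⟩ := h a (Finset.mem_insert_self a T)
    refine ⟨c * d, mul_ne_zero hc hd, fun κ M _ _ _ _ i V O hO j hj => ?_⟩
    rcases Finset.mem_insert.1 hj with rfl | hj
    · exact hd' κ M i V O hO.right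
    · exact hc' κ M i V O hO.left j hj

/-- roots of monic polynomials with coefficients in a valuation ring -/
theorem mem_of_monic {L M : Type} [Field L] [Field M] (O : ValuationSubring M) (j : L →+* M)
    (P : L[X]) (hP : P.Monic) (hc : ∀ n, j (P.coeff n) ∈ O) (z : M) (hz : P.eval₂ j z = 0) :
    z ∈ O := by
  have hP' : (P.map j).Monic := hP.map j
  have hsub : ((P.map j).coeffs : Set M) ⊆ O.toSubring := by
    intro w hw
    obtain ⟨n, -, hn⟩ := Polynomial.mem_coeffs_iff.1 hw
    rw [hn, coeff_map]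
    exact hc n
  let Q := (P.map j).toSubring O.toSubring hsub
  have hQm : Q.Monic := (Polynomial.monic_toSubring _ _ _).2 hP'
  have h1 : IsIntegral O z := by
    refine ⟨Q, hQm, ?_⟩
    have h2 : Q.map O.toSubring.subtype = P.map j := Polynomial.map_toSubring _ _ _
    have h3 : eval₂ (algebraMap O M) z Q = (Q.map O.toSubring.subtype).eval z := by
      rw [eval_map]; rfl
    rw [h3, h2, eval_map, hz]
  obtain ⟨y, hy⟩ := IsIntegrallyClosed.isIntegral_iff.1 h1
  rw [← hy]
  exact y.2

/-- all nonzero elements -/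
theorem AlmU.all {z : E} (halg : IsAlgebraic (IntermediateField.adjoin K {x}) z) (h0 : z ≠ 0) :
    AlmU K x z := by
  classical
  set L := IntermediateField.adjoin K {x} with hL
  have hint : IsIntegral L z := halg.isIntegral
  set P := minpoly L z with hP
  have hPm : P.Monic := minpoly.monic hint
  have hP0 : P.coeff 0 ≠ 0 := by
    rw [hP]
    exact minpoly.coeff_zero_ne_zero hint h0
  obtain ⟨c, hc, hc'⟩ := AlmU.fin (K := K) (x := x) P.support (fun n => ((P.coeff n : L) : E))
    (fun n hn => AlmU.rat (P.coeff n).2 (by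
      intro h
      exact (mem_support_iff.1 hn) (Subtype.ext h)))
  refine ⟨c, hc, fun κ M _ _ _ _ i V O hO => ?_⟩
  have hcO : ∀ n, i ((P.coeff n : L) : E) ∈ O := by
    intro n
    by_cases hn : n ∈ P.support
    · exact (hc' κ M i V O hO n hn).2.1
    · rw [notMem_support_iff.1 hn]
      change i 0 ∈ O
      rw [map_zero]; exact zero_mem _
  have hPz : P.eval₂ (i.comp (algebraMap L E)) (i z) = 0 := by
    have h1 : P.eval₂ (algebraMap L E) z = 0 := minpoly.aeval L z
    rw [← Polynomial.hom_eval₂, h1, map_zero]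
  have hzO : i z ∈ O := mem_of_monic O (i.comp (algebraMap L E)) P hPm hcO _ hPz
  have hiz0 : i z ≠ 0 := (_root_.map_ne_zero i).2 h0
  refine ⟨hiz0, hzO, ?_⟩
  have h0U : IsU O (i ((P.coeff 0 : L) : E)) :=
    hc' κ M i V O hO 0 (mem_support_iff.2 hP0)
  -- `z * w = - c₀`
  have h1 : P.eval₂ (i.comp (algebraMap L E)) (i z) =
      (P.divX).eval₂ (i.comp (algebraMap L E)) (i z) * i z + i ((P.coeff 0 : L) : E) := by
    conv_lhs => rw [← P.divX_mul_X_add]
    rw [eval₂_add, eval₂_mul, eval₂_X, eval₂_C]
    rfl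
  rw [hPz] at h1
  have h2 : (P.divX).eval₂ (i.comp (algebraMap L E)) (i z) ∈ O := by
    rw [eval₂_eq_sum_range]
    refine sum_mem fun n _ => mul_mem ?_ (pow_mem hzO n)
    rw [coeff_divX]
    exact hcO _
  have h3 : (i z)⁻¹ = - ((P.divX).eval₂ (i.comp (algebraMap L E)) (i z) *
      (i ((P.coeff 0 : L) : E))⁻¹) := by
    have h4 := h0U.1
    have h5 : (P.divX).eval₂ (i.comp (algebraMap L E)) (i z) * i z =
      - i ((P.coeff 0 : L) : E) := by linear_combination - h1
    field_simp
    linear_combination h5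
  rw [h3]
  exact neg_mem (mul_mem h2 h0U.2.2)

/-- automorphisms which act trivially on the residues of `E` fix the elements of `E` -/
theorem exists_good (x : E) [FiniteDimensional (IntermediateField.adjoin K {x}) E] :
    ∃ c : 𝓞 K, c ≠ 0 ∧ ∀ (κ M : Type) [Field κ] [Field M] [Algebra K κ] [Algebra κ M] (i : E →+* M)
      (V : ValuationSubring κ) (O : ValuationSubring M), Over K x c i V O →
      ∀ γ : M ≃+* M, (∀ c : κ, γ (algebraMap κ M c) = algebraMap κ M c) → γ (i x) = i x →
        (∀ e, i e ∈ O → γ (i e) - i e ∈ O.nonunits) → ∀ e, γ (i e) = i e := by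
  classical
  haveI : CharZero K := inferInstance
  set L := IntermediateField.adjoin K {x} with hL
  haveI : CharZero L := charZero_of_injective_algebraMap (algebraMap K L).injective
  obtain ⟨θ, hθ⟩ := Field.exists_primitive_element L E
  have hint : IsIntegral L θ := Algebra.IsIntegral.isIntegral θ
  set P := minpoly L θ with hP
  have hPm : P.Monic := minpoly.monic hint
  have hPs : P.Separable := (minpoly.irreducible hint).separable
  have hPθ : aeval θ P = 0 := minpoly.aeval L θ
  have hPd : aeval θ (derivative P) ≠ 0 := hPs.aeval_derivative_ne_zero hPθ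
  have halg : ∀ z : E, IsAlgebraic L z := fun z => Algebra.IsAlgebraic.isAlgebraic z
  obtain ⟨c, hc, hc'⟩ := AlmU.fin (K := K) (x := x) P.support (fun n => ((P.coeff n : L) : E))
    (fun n hn => AlmU.rat (P.coeff n).2 (by
      intro h
      exact (mem_support_iff.1 hn) (Subtype.ext h)))
  obtain ⟨c1, hc1, hc1'⟩ := AlmU.all (halg (aeval θ (derivative P))) hPd
  refine ⟨c * c1, mul_ne_zero hc hc1, fun κ M _ _ _ _ i V O hO γ hγc hγx hγ => ?_⟩
  have hcO : ∀ n, i ((P.coeff n : L) : E) ∈ O := by
    intro n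
    by_cases hn : n ∈ P.support
    · exact (hc' κ M i V O hO.left n hn).2.1
    · rw [notMem_support_iff.1 hn]
      change i 0 ∈ O
      rw [map_zero]; exact zero_mem _
  -- `γ` fixes `L`
  have hγL : ∀ z ∈ L, γ (i z) = i z := by
    intro z hz
    have h1 : L ≤ IntermediateField.adjoin K {x} := le_refl _
    refine IntermediateField.adjoin_induction (F := K) (s := {x})
      (p := fun z _ => γ (i z) = i z) ?_ ?_ ?_ ?_ ?_ (h1 hz)
    · intro z hz
      rw [Set.mem_singleton_iff.1 hz]
      exact hγx
    · intro a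
      rw [hO.comp, hγc]
    · intro a b _ _ ha hb
      rw [map_add, map_add, ha, hb]
    · intro a _ ha
      rw [map_inv₀, map_inv₀, ha]
    · intro a b _ _ ha hb
      rw [map_mul, map_mul, ha, hb]
  set j : L →+* M := i.comp (algebraMap L E) with hj
  have hPz : P.eval₂ j (i θ) = 0 := by
    have h1 : P.eval₂ (algebraMap L E) θ = 0 := hPθ
    rw [hj, ← Polynomial.hom_eval₂, h1, map_zero]
  have hθO : i θ ∈ O := mem_of_monic O j P hPm hcO _ hPz
  have hyn : γ (i θ) - i θ ∈ O.nonunits := hγ θ hθO
  have hyO : γ (i θ) - i θ ∈ O := non_mem hyn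
  have hγθO : γ (i θ) ∈ O := by
    have := add_mem hyO hθO
    rwa [sub_add_cancel] at this
  have hPγ : P.eval₂ j (γ (i θ)) = 0 := by
    have h1 : γ (P.eval₂ j (i θ)) = P.eval₂ ((γ : M →+* M).comp j) (γ (i θ)) :=
      Polynomial.hom_eval₂ P j (γ : M →+* M) (i θ)
    have h2 : ((γ : M →+* M).comp j) = j := by
      ext z
      exact hγL z z.2
    rw [hPz, map_zero, h2] at h1
    exact h1.symm
  -- the polynomial over `O`
  have hsub : ((P.map j).coeffs : Set M) ⊆ O.toSubring := by
    intro w hw
    obtain ⟨n, -, hn⟩ := Polynomial.mem_coeffs_iff.1 hw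
    rw [hn, coeff_map]
    exact hcO n
  set Q := (P.map j).toSubring O.toSubring hsub with hQ
  have hQP : Q.map O.toSubring.subtype = P.map j := Polynomial.map_toSubring _ _ _
  have hev : ∀ (w : O.toSubring), ((Q.eval w : O.toSubring) : M) = P.eval₂ j (w : M) := by
    intro w
    have h1 : O.toSubring.subtype (Q.eval w) = (Q.map O.toSubring.subtype).eval (w : M) := by
      rw [eval_map]
      exact (Polynomial.hom_eval₂ Q (RingHom.id _) O.toSubring.subtype w).trans (by
        rw [RingHom.comp_id]; rfl)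
    rw [hQP, eval_map] at h1
    exact h1
  have hev' : (((derivative Q).eval (⟨i θ, hθO⟩ : O.toSubring) : O.toSubring) : M) =
      i (aeval θ (derivative P)) := by
    have h1 : O.toSubring.subtype ((derivative Q).eval (⟨i θ, hθO⟩ : O.toSubring)) =
        ((derivative Q).map O.toSubring.subtype).eval (i θ) := by
      rw [eval_map]
      exact (Polynomial.hom_eval₂ (derivative Q) (RingHom.id _) O.toSubring.subtype _).trans (by
        rw [RingHom.comp_id]; rfl)
    rw [← derivative_map, hQP, derivative_map, eval_map] at h1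
    have h2 : (derivative P).eval₂ j (i θ) = i (aeval θ (derivative P)) := by
      rw [hj, ← Polynomial.hom_eval₂]
      rfl
    rw [h2] at h1
    exact h1
  have hθfix : γ (i θ) = i θ := by
    by_contra hne
    set y : O.toSubring := ⟨γ (i θ) - i θ, hyO⟩ with hy
    set t : O.toSubring := ⟨i θ, hθO⟩ with ht
    have hy0 : y ≠ 0 := by
      intro h
      apply hne
      have := congrArg (fun z : O.toSubring => (z : M)) h
      exact sub_eq_zero.1 this
    obtain ⟨k, hk⟩ := Polynomial.binomExpansion Q t y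
    have hty : t + y = ⟨γ (i θ), hγθO⟩ := by
      apply Subtype.ext
      change i θ + (γ (i θ) - i θ) = γ (i θ)
      ring
    have e1 : Q.eval (t + y) = 0 := by
      rw [hty]
      apply Subtype.ext
      rw [hev]
      exact hPγ
    have e2 : Q.eval t = 0 := by
      apply Subtype.ext
      rw [hev]
      exact hPz
    rw [e1, e2] at hk
    have h3 : y * ((derivative Q).eval t + k * y) = 0 := by
      linear_combination - hk
    rcases mul_eq_zero.1 h3 with h4 | h4
    · exact hy0 h4
    have h5 : i (aeval θ (derivative P)) = - ((k : M) * (γ (i θ) - i θ)) := by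
      rw [← hev']
      have h6 := congrArg (fun z : O.toSubring => (z : M)) h4
      have h7 : (((derivative Q).eval t : O.toSubring) : M) + (k : M) * (γ (i θ) - i θ) = 0 := h6
      linear_combination h7
    have h8 := (hc1' κ M i V O hO.right).not_nonunit
    apply h8
    rw [h5]
    exact non_neg (non_mul k.2 hyn)
  -- `E = L(θ)`
  intro e
  have he : e ∈ IntermediateField.adjoin L {θ} := by rw [hθ]; trivial
  refine IntermediateField.adjoin_induction (F := L) (s := {θ})
      (p := fun z _ => γ (i z) = i z) ?_ ?_ ?_ ?_ ?_ he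
  · intro z hz
    rw [Set.mem_singleton_iff.1 hz]
    exact hθfix
  · intro a
    exact hγL _ a.2
  · intro a b _ _ ha hb
    rw [map_add, map_add, ha, hb]
  · intro a _ ha
    rw [map_inv₀, map_inv₀, ha]
  · intro a b _ _ ha hb
    rw [map_mul, map_mul, ha, hb]

end

end Pool.Agent.Helper45.EP
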