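import Pool.Graph.R_seed8.TH377.NC.Dvr

/-! Discrete valuation rings of extensions whose degree is not in a numerical semigroup; a variant of
`Pool.Agent.TH377.NC.dvr_data` and `Pool.Agent.V11235.SE.dvr_ext`. -/

set_option autoImplicit false
set_option linter.all false

namespace Pool.Agent.Helper45.EP

open Polynomial IsDedekindDomain Pool.Agent.TH377.NC

theorem dvr_ext2 {R : Type} {k : Type} {L : Type} [CommRing R] [IsDomain R]
    [IsDiscreteValuationRing R] [Field k] [Algebra R k] [IsFractionRing R k] [CharZero k]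
    [Field L] [Algebra k L] [FiniteDimensional k L] [Algebra R L] [IsScalarTower R k L]
    [Finite (IsLocalRing.ResidueField R)]
    (ℓ : ℕ) (hℓ : ℓ.Prime) (Λ : Set ℕ) (hdeg : Module.finrank k L ∉ AddSubmonoid.closure (insert ℓ Λ))
    (g : R[X]) (hlc : IsUnit g.leadingCoeff) (hs : (g.map (IsLocalRing.residue R)).Separable)
    (h : R[X])
    (hcop : ∀ n : ℕ, (∀ r ∈ Λ, ¬ r ∣ n) →
      IsCoprime (X ^ (Nat.card (IsLocalRing.ResidueField R) ^ n) - X)
      (h.map (IsLocalRing.residue R)))
    (ϖ0 t0 : R) (hϖ0 : Irreducible ϖ0) (ht0 : IsUnit t0) (m : ℤ) (hm : ¬ (ℓ : ℤ) ∣ m) :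
    ∃ (A : Type) (_ : CommRing A) (_ : IsDomain A)
      (_ : IsDiscreteValuationRing A) (_ : Algebra A L) (_ : IsFractionRing A L)
      (_ : Finite (IsLocalRing.ResidueField A)) (j : R →+* A),
      (algebraMap A L).comp j = algebraMap R L ∧ IsUnit (g.map j).leadingCoeff ∧
      ((g.map j).map (IsLocalRing.residue A)).Separable ∧
      (∀ b : A, (h.map j).eval b ∉ IsLocalRing.maximalIdeal A) ∧
      ∃ (ϖ t : A) (m' : ℤ), Irreducible ϖ ∧ IsUnit t ∧ ¬ (ℓ : ℤ) ∣ m' ∧
        algebraMap R L t0 * algebraMap R L ϖ0 ^ m = algebraMap A L t * algebraMap A L ϖ ^ m' := by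
  classical
  -- the integral closure
  have hsep : Algebra.IsSeparable k L := inferInstance
  let S := integralClosure R L
  have hfr : IsFractionRing S L := integralClosure.isFractionRing_of_finite_extension k L
  have hded : IsDedekindDomain S := integralClosure.isDedekindDomain R k L
  have hfinS : Module.Finite R S := IsIntegralClosure.finite R k L S
  have hRL : Function.Injective (algebraMap R L) := by
    rw [IsScalarTower.algebraMap_eq R k L]
    exact (algebraMap k L).injective.comp (IsFractionRing.injective R k)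
  have hRS : Function.Injective (algebraMap R S) := by
    intro x y hxy
    apply hRL
    rw [IsScalarTower.algebraMap_apply R S L, hxy, ← IsScalarTower.algebraMap_apply R S L]
  have htf : Module.IsTorsionFree R S :=
    (Module.isTorsionFree_iff_algebraMap_injective (R := R) (A := S)).2 hRS
  have hflat : Module.Flat R S := inferInstance
  set p : Ideal R := IsLocalRing.maximalIdeal R with hp
  have hp0 : p ≠ ⊥ := IsDiscreteValuationRing.not_a_field R
  have hprime : p.IsPrime := inferInstance
  have hmaxp : p.IsMaximal := inferInstance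
  have hrank : Module.finrank R S = Module.finrank k L := (IsFractionRing.finrank_eq R k S L).symm
  have hft : Finite (p.primesOver S) := inferInstance
  let _ : Fintype (p.primesOver S) := Fintype.ofFinite _
  obtain ⟨q, hq⟩ : ∃ q : p.primesOver S,
      ¬ ℓ ∣ q.1.ramificationIdx R ∧ ∀ r ∈ Λ, ¬ r ∣ q.1.inertiaDeg R := by
    by_contra h1
    rw [not_exists] at h1
    apply hdeg
    rw [← hrank, ← Ideal.sum_ramification_inertia_eq_finrank p S]
    refine sum_mem fun q _ => ?_
    by_cases h2 : ℓ ∣ q.1.ramificationIdx R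
    · obtain ⟨b, hb⟩ := h2
      have h3 : q.1.ramificationIdx R * q.1.inertiaDeg R = (b * q.1.inertiaDeg R) • ℓ := by
        rw [hb, smul_eq_mul]; ring
      rw [h3]
      exact nsmul_mem (AddSubmonoid.subset_closure (Set.mem_insert _ _)) _
    · have h3 : ∃ r ∈ Λ, r ∣ q.1.inertiaDeg R := by
        by_contra h4
        push Not at h4
        exact h1 q ⟨h2, h4⟩
      obtain ⟨r, hr, b, hb⟩ := h3
      have h3 : q.1.ramificationIdx R * q.1.inertiaDeg R = (q.1.ramificationIdx R * b) • r := by
        rw [hb, smul_eq_mul]; ring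
      rw [h3]
      exact nsmul_mem (AddSubmonoid.subset_closure (Set.mem_insert_of_mem _ hr)) _
  set e := q.1.ramificationIdx R with he
  set fd := q.1.inertiaDeg R with hfd
  obtain ⟨heℓ, hfΛ⟩ := hq
  have hqp : q.1.IsPrime := q.2.1
  have hlies : q.1.LiesOver p := q.2.2
  have hq0 : q.1 ≠ ⊥ := by
    intro h
    apply hp0
    have h1 := hlies.over
    rw [h] at h1
    rw [h1]
    exact Ideal.comap_bot_of_injective _ hRS
  have hqm : q.1.IsMaximal := Ideal.IsPrime.isMaximal hqp hq0
  obtain ⟨A, iA1, iA2, iA3, iA4, j, ε, hfrA, hjL, hjr, hbn⟩ := local_ringS (L := L) q.1 hqp hq0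
  let _ : Field (R ⧸ p) := Ideal.Quotient.field _
  let _ : Field (S ⧸ q.1) := Ideal.Quotient.field _
  have hfinq : FiniteDimensional (R ⧸ p) (S ⧸ q.1) := inferInstance
  have hfinp : Finite (R ⧸ p) := (inferInstance : Finite (IsLocalRing.ResidueField R))
  have hfinq' : Finite (S ⧸ q.1) := Module.finite_of_finite (R ⧸ p)
  have hfinA : Finite (IsLocalRing.ResidueField A) := Finite.of_equiv _ ε.toEquiv
  set ι : (R ⧸ p) →+* (S ⧸ q.1) := algebraMap (R ⧸ p) (S ⧸ q.1) with hι
  have hmap : ∀ g : R[X], ((g.map (algebraMap R S)).map j).map (IsLocalRing.residue A) =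
      ((g.map (Ideal.Quotient.mk p)).map ι).map
        (ε : (S ⧸ q.1) →+* IsLocalRing.ResidueField A) := by
    intro g
    rw [Polynomial.map_map, Polynomial.map_map, Polynomial.map_map, Polynomial.map_map]
    congr 1
    rw [hjr]
    rfl
  have hfdeq : fd = Module.finrank (R ⧸ p) (S ⧸ q.1) := Ideal.inertiaDeg_eq_of_isMaximal p q.1
  have hcardS : Nat.card (S ⧸ q.1) = Nat.card (R ⧸ p) ^ fd := by
    rw [hfdeq]
    exact Module.natCard_eq_pow_finrank (K := R ⧸ p) (V := S ⧸ q.1)
  have hcardA : Nat.card (IsLocalRing.ResidueField A) = Nat.card (IsLocalRing.ResidueField R) ^ fd := by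
    rw [← Nat.card_congr ε.toEquiv, hcardS]
    rfl
  have hmapmap : ∀ g : R[X], g.map (j.comp (algebraMap R S)) = (g.map (algebraMap R S)).map j :=
    fun g => (Polynomial.map_map _ _ _).symm
  have hjinj : Function.Injective (j.comp (algebraMap R S)) := by
    intro x y hxy
    apply hRL
    have h1 := congrArg (algebraMap A L) hxy
    have h2 : ∀ x, algebraMap A L ((j.comp (algebraMap R S)) x) = algebraMap R L x := by
      intro x
      rw [RingHom.comp_apply, ← RingHom.comp_apply, hjL, ← IsScalarTower.algebraMap_apply R S L]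
    rwa [h2, h2] at h1
  refine ⟨A, iA1, iA2, iA3, iA4, hfrA, hfinA, j.comp (algebraMap R S), ?_, ?_, ?_, ?_, ?_⟩
  · rw [← RingHom.comp_assoc, hjL]
    exact (IsScalarTower.algebraMap_eq R S L).symm
  · rw [leadingCoeff_map_of_injective hjinj]
    exact hlc.map _
  · rw [hmapmap, hmap]
    exact (hs.map (f := ι)).map
  · intro b hb
    have h1 : (((h.map (algebraMap R S)).map j).map (IsLocalRing.residue A)).eval
        (IsLocalRing.residue A b) = 0 := by
      rw [eval_map_apply, ← hmapmap]
      exact (IsLocalRing.residue_eq_zero_iff _).2 hb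
    have h2 : (IsLocalRing.residue A b) ^ (Nat.card (IsLocalRing.ResidueField R) ^ fd) =
        IsLocalRing.residue A b := by
      rw [← hcardA]
      let _ := Fintype.ofFinite (IsLocalRing.ResidueField A)
      rw [Nat.card_eq_fintype_card]
      exact FiniteField.pow_card _
    obtain ⟨u, w, huw⟩ := hcop fd hfΛ
    let ι' : IsLocalRing.ResidueField R →+* IsLocalRing.ResidueField A :=
      (ε : (S ⧸ q.1) →+* IsLocalRing.ResidueField A).comp ι
    have h3 : ((u * (X ^ (Nat.card (IsLocalRing.ResidueField R) ^ fd) - X) +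
        w * h.map (IsLocalRing.residue R)).map ι').eval (IsLocalRing.residue A b) =
        ((1 : (IsLocalRing.ResidueField R)[X]).map ι').eval (IsLocalRing.residue A b) := by
      rw [huw]
    have h4 : ((h.map (IsLocalRing.residue R)).map ι').eval (IsLocalRing.residue A b) = 0 := by
      rw [← h1, hmap, Polynomial.map_map, Polynomial.map_map, Polynomial.map_map]
      rfl
    rw [Polynomial.map_add, Polynomial.map_mul, Polynomial.map_mul, eval_add, eval_mul, eval_mul,
      h4, Polynomial.map_sub, Polynomial.map_pow, map_X, eval_sub, eval_pow, eval_X, h2, sub_self,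
      mul_zero, mul_zero, add_zero, Polynomial.map_one, eval_one] at h3
    exact zero_ne_one h3
  · have hϖS : algebraMap R S ϖ0 ≠ 0 := by
      intro h
      exact hϖ0.ne_zero (hRS (by rw [h, map_zero]))
    obtain ⟨ϖ, t, n, hϖ, ht, hb2, hb3⟩ := hbn (algebraMap R S ϖ0) hϖS
    have hspan : p = Ideal.span {ϖ0} := hϖ0.maximalIdeal_eq
    have hmp : p.map (algebraMap R S) = Ideal.span {algebraMap R S ϖ0} := by
      rw [hspan, Ideal.map_span, Set.image_singleton]
    have hmapp : ∀ i, p.map (algebraMap R S) ≤ q.1 ^ i ↔ i ≤ n := by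
      intro i
      rw [← hb3, hmp, Ideal.span_singleton_le_iff_mem]
    have hen : e = n := by
      have h1 : p.ramificationIdx' q.1 = n :=
        Ideal.ramificationIdx'_spec ((hmapp n).2 le_rfl) (fun h => by
          have := (hmapp (n + 1)).1 h
          omega)
      have h2 : p.ramificationIdx' q.1 = q.1.ramificationIdx R :=
        Ideal.ramificationIdx'_eq_ramificationIdx _ _ hp0
      rw [he, ← h2, h1]
    have htu : IsUnit (j (algebraMap R S t0)) := (ht0.map _).map j
    have hL0 : algebraMap R L t0 = algebraMap A L (j (algebraMap R S t0)) := by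
      rw [IsScalarTower.algebraMap_apply R S L, ← hjL, RingHom.comp_apply]
    obtain ⟨tu, htu'⟩ := ht
    have htinv : ∀ m : ℤ, algebraMap A L t ^ m = algebraMap A L ((tu ^ m : Aˣ) : A) := by
      intro m
      rw [← htu']
      have h := congrArg Units.val (map_zpow (Units.map (algebraMap A L : A →* L)) tu m)
      rw [Units.val_zpow_eq_zpow_val] at h
      exact h.symm
    refine ⟨ϖ, j (algebraMap R S t0) * ((tu ^ m : Aˣ) : A), e * m, hϖ,
      htu.mul (Units.isUnit _), ?_, ?_⟩
    · intro h
      have hℓ' : Prime (ℓ : ℤ) := Nat.prime_iff_prime_int.1 hℓ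
      rcases hℓ'.dvd_or_dvd h with h1 | h1
      · exact heℓ (Int.natCast_dvd_natCast.1 h1)
      · exact hm h1
    · rw [hL0, map_mul, ← htinv, IsScalarTower.algebraMap_apply R S L ϖ0, hb2, ← hen, mul_zpow,
        mul_assoc, ← zpow_natCast, ← zpow_mul]

end Pool.Agent.Helper45.EP
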