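import Pool.Agent.Helper45.EP.Ar

/-! The local ring at a prime of a number field. -/

set_option autoImplicit false
set_option linter.all false

open Polynomial NumberField IsDedekindDomain

namespace Pool.Agent.Helper45.EP

theorem num2 {K : Type} [Field K] [NumberField K] (v : HeightOneSpectrum (𝓞 K))
    (g h : (𝓞 K)[X]) (hlc : g.leadingCoeff ∉ v.asIdeal)
    (hs : (g.map (Ideal.Quotient.mk v.asIdeal)).Separable) (Q : ℕ → Prop) (hQ : NoRoots v Q h)
    (b : 𝓞 K) (hb : b ∈ v.asIdeal) (hb' : b ∉ v.asIdeal ^ 2) :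
    ∃ (A : Type) (_ : CommRing A) (_ : IsDomain A) (_ : IsDiscreteValuationRing A)
      (_ : Algebra A K) (_ : Finite (IsLocalRing.ResidueField A)) (_ : IsFractionRing A K)
      (j : 𝓞 K →+* A), (algebraMap A K).comp j = algebraMap (𝓞 K) K ∧
      (∀ c : 𝓞 K, c ∉ v.asIdeal → IsUnit (j c)) ∧
      IsUnit (g.map j).leadingCoeff ∧ ((g.map j).map (IsLocalRing.residue A)).Separable ∧
      (∀ n, Q n → IsCoprime (X ^ (Nat.card (IsLocalRing.ResidueField A) ^ n) - X)
        ((h.map j).map (IsLocalRing.residue A))) ∧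
      ∃ ϖ t : A, Irreducible ϖ ∧ IsUnit t ∧ j b = t * ϖ := by
  classical
  have hvm : v.asIdeal.IsMaximal := v.isMaximal
  have hvp : v.asIdeal.IsPrime := v.isPrime
  have hle : v.asIdeal.primeCompl ≤ nonZeroDivisors (𝓞 K) := v.asIdeal.primeCompl_le_nonZeroDivisors
  let A := Localization.subalgebra.ofField K v.asIdeal.primeCompl hle
  have hloc : IsLocalization.AtPrime A v.asIdeal :=
    Localization.subalgebra.isLocalization_ofField K v.asIdeal.primeCompl hle
  have hdvr : IsDiscreteValuationRing A :=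
    IsLocalization.AtPrime.isDiscreteValuationRing_of_dedekind_domain (𝓞 K) v.ne_bot A
  have hfr : IsFractionRing A K := inferInstance
  have hunit : ∀ c : 𝓞 K, c ∉ v.asIdeal → IsUnit (algebraMap (𝓞 K) A c) := fun c hc =>
    (IsLocalization.AtPrime.isUnit_to_map_iff A v.asIdeal c).2 hc
  let e : (𝓞 K ⧸ v.asIdeal) ≃+* IsLocalRing.ResidueField A :=
    IsLocalization.AtPrime.equivQuotMaximalIdeal v.asIdeal A
  have hcomp : (IsLocalRing.residue A).comp (algebraMap (𝓞 K) A) =
      (e : (𝓞 K ⧸ v.asIdeal) →+* IsLocalRing.ResidueField A).comp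
        (Ideal.Quotient.mk v.asIdeal) := by
    ext c
    rfl
  have hcompK : (algebraMap A K).comp (algebraMap (𝓞 K) A) = algebraMap (𝓞 K) K := by
    ext c
    rfl
  have hfin0 : Finite (𝓞 K ⧸ v.asIdeal) := Ideal.finiteQuotientOfFreeOfNeBot _ v.ne_bot
  have hfin : Finite (IsLocalRing.ResidueField A) := Finite.of_equiv _ e.toEquiv
  have hcard : Nat.card (IsLocalRing.ResidueField A) = Ideal.absNorm v.asIdeal := by
    rw [← Nat.card_congr e.toEquiv, Ideal.absNorm_apply, Submodule.cardQuot_apply]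
  have hmapres : ∀ g : (𝓞 K)[X], (g.map (algebraMap (𝓞 K) A)).map (IsLocalRing.residue A) =
      (g.map (Ideal.Quotient.mk v.asIdeal)).map
        (e : (𝓞 K ⧸ v.asIdeal) →+* IsLocalRing.ResidueField A) := by
    intro g
    rw [Polynomial.map_map, hcomp, ← Polynomial.map_map]
  refine ⟨A, inferInstance, inferInstance, hdvr, inferInstance, hfin, hfr, algebraMap (𝓞 K) A,
    hcompK, hunit, ?_, ?_, ?_, ?_⟩
  · rw [leadingCoeff_map_of_leadingCoeff_ne_zero _ (hunit _ hlc).ne_zero]
    exact hunit _ hlc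
  · rw [hmapres]
    exact hs.map
  · intro n hn
    rw [hmapres, hcard]
    have h1 := (hQ n hn).map (mapRingHom (e : (𝓞 K ⧸ v.asIdeal) →+* IsLocalRing.ResidueField A))
    simp only [coe_mapRingHom, Polynomial.map_sub, Polynomial.map_pow, map_X] at h1
    exact h1
  · obtain ⟨ϖ, hϖ⟩ := IsDiscreteValuationRing.exists_irreducible A
    have hpow : ∀ m : ℕ, b ∈ v.asIdeal ^ m ↔ algebraMap (𝓞 K) A b ∈
        IsLocalRing.maximalIdeal A ^ m := by
      intro m
      rw [← IsLocalization.AtPrime.under_maximalIdeal_pow v.asIdeal A]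
      rfl
    have hb0 : algebraMap (𝓞 K) A b ≠ 0 := by
      intro h
      apply hb'
      rw [hpow, h]
      exact zero_mem _
    obtain ⟨j, u, hj⟩ := IsDiscreteValuationRing.eq_unit_mul_pow_irreducible hb0 hϖ
    have hdvd : ∀ m : ℕ, b ∈ v.asIdeal ^ m ↔ m ≤ j := by
      intro m
      rw [hpow, hϖ.maximalIdeal_eq, Ideal.span_singleton_pow, Ideal.mem_span_singleton, hj,
        (Units.isUnit u).dvd_mul_left, pow_dvd_pow_iff hϖ.ne_zero hϖ.not_isUnit]
    have hjn : j = 1 := by
      have h1 := (hdvd 1).1 (by rwa [pow_one])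
      have h2 := mt (hdvd 2).2 hb'
      omega
    refine ⟨ϖ, u, hϖ, u.isUnit, ?_⟩
    rw [hj, hjn, pow_one]

end Pool.Agent.Helper45.EP
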