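import Pool.Agent.Helper45.EP.GeoG
import Pool.Agent.Helper45.EP.Bad
import Pool.Agent.Helper45.EP.Num2
import Pool.Agent.Helper45.EP.Dvr2
import Pool.Graph.R_seed8.Y157.PS.Sup

/-! No sections: the local theorem over extensions of a number field. -/

set_option autoImplicit false
set_option linter.all false

open Polynomial FF NumberField IsDedekindDomain

namespace Pool.Agent.Helper45.EP

open Pool.Agent.Y157.PS Pool.Agent.R925.L Pool.Agent.Y529.PS.IN Pool.Agent.R925.Q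
  Pool.Agent.R925.X Pool.Agent.Y31.PS

/-- values of polynomials at congruent elements are congruent -/
theorem eval_cong {R Ω : Type} [CommRing R] [Field Ω] (W : ValuationSubring Ω) (φ : R →+* Ω)
    (hφ : ∀ r, φ r ∈ W) (h : R[X]) {z c : Ω} (hz : z ∈ W) (hc : c ∈ W)
    (hzc : z - c ∈ W.nonunits) (hhz : h.eval₂ φ z ∈ W.nonunits) : h.eval₂ φ c ∈ W.nonunits := by
  let φ' : R →+* W.toSubring := φ.codRestrict W.toSubring hφ
  have hev : ∀ (w : W.toSubring), (((h.map φ').eval w : W.toSubring) : Ω) = h.eval₂ φ (w : Ω) := by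
    intro w
    rw [eval_map]
    exact Polynomial.hom_eval₂ h φ' W.toSubring.subtype w
  obtain ⟨q, hq⟩ := Polynomial.sub_dvd_eval_sub (⟨z, hz⟩ : W.toSubring) ⟨c, hc⟩ (h.map φ')
  have h1 := congrArg (fun w : W.toSubring => (w : Ω)) hq
  have h2 : h.eval₂ φ z - h.eval₂ φ c = (z - c) * (q : Ω) := by
    rw [← hev ⟨z, hz⟩, ← hev ⟨c, hc⟩]
    exact h1
  have h3 : h.eval₂ φ c = h.eval₂ φ z - (q : Ω) * (z - c) := by
    linear_combination -h2
  rw [h3]
  exact non_sub hhz (non_mul q.2 hzc)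

theorem loc_core {K : Type} [Field K] [NumberField K] {ℓ j : ℕ} [Fact ℓ.Prime]
    (v : HeightOneSpectrum (𝓞 K)) (hℓ : (ℓ : 𝓞 K) ∉ v.asIdeal) (f₀ : (𝓞 K)[X])
    (hlc : f₀.leadingCoeff ∉ v.asIdeal)
    (hs : ((expand (𝓞 K) (ℓ ^ j) f₀).map (Ideal.Quotient.mk v.asIdeal)).Separable)
    (hdvd : ℓ ∣ (expand (𝓞 K) (ℓ ^ j) f₀).natDegree)
    (h3 : 3 ≤ (expand (𝓞 K) (ℓ ^ j) f₀).natDegree)
    (h : (𝓞 K)[X]) (hm : h.Monic) (Λ : Set ℕ) (hQ : NoRoots v (fun n => ∀ r ∈ Λ, ¬ r ∣ n) h)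
    (a : 𝓞 K) (ha : a ∈ v.asIdeal) (ha' : a ∉ v.asIdeal ^ 2)
    {E : Type} [Field E] [Algebra K E] (x g z : E) (c : 𝓞 K) (hcv : c ∉ v.asIdeal)
    (hgood : ∀ (κ M : Type) [Field κ] [Field M] [Algebra K κ] [Algebra κ M] (i : E →+* M)
      (V : ValuationSubring κ) (O : ValuationSubring M), Over K x c i V O → IsU O (i g) ∧
      ∀ γ : M ≃+* M, (∀ c : κ, γ (algebraMap κ M c) = algebraMap κ M c) → γ (i x) = i x →
        (∀ e, i e ∈ O → γ (i e) - i e ∈ O.nonunits) → ∀ e, γ (i e) = i e)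
    {L : Type} [Field L] [Algebra K L] [FiniteDimensional K L]
    (hdeg : Module.finrank K L ∉ AddSubmonoid.closure (insert ℓ Λ))
    {F Ω : Type} [Field F] [Field Ω] [Algebra L F] [Algebra F Ω] [Algebra L Ω]
    [IsScalarTower L F Ω] [IsAlgClosed Ω] [Algebra.IsAlgebraic F Ω] (i : E →+* F)
    (hi : ∀ b : K, i (algebraMap K E b) = algebraMap L F (algebraMap K L b))
    (hx : Transcendental L (i x)) (hFx : Algebra.IsAlgebraic (IntermediateField.adjoin L {i x}) F)
    (u y : Ω) (t : F) (hu : u ^ (ℓ ^ j) = algebraMap F Ω (i x))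
    (hy : y ^ ℓ = f₀.eval₂ ((algebraMap L Ω).comp ((algebraMap K L).comp (algebraMap (𝓞 K) K)))
      (algebraMap F Ω (i x)))
    (ht : t ^ ℓ = algebraMap L F (algebraMap K L (algebraMap (𝓞 K) K a)) * i g)
    (hET : ∀ e : E, algebraMap F Ω (i e) ∈ maxPro ℓ L (curveF L u y) Ω)
    (htT : ∀ t₁ : Ω, t₁ ^ ℓ = algebraMap F Ω (i g) → t₁ ∈ maxPro ℓ L (curveF L u y) Ω)
    (N : IntermediateField F Ω) (hN : ∀ z ∈ maxPro ℓ L (curveF L u y) Ω, z ∈ N)
    (S : (algebraicClosure L Ω ≃ₐ[L] algebraicClosure L Ω) →* (N ≃ₐ[F] N)) (hcont : Continuous S)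
    (hcompat : ∀ σ (c : algebraicClosure L Ω) (z : N), (z : Ω) = (c : Ω) →
      (S σ z : Ω) = (σ c : Ω))
    (hram : ∀ (t₁ : Ω) (W : ValuationSubring Ω), t₁ ^ ℓ = algebraMap F Ω (i g) →
      (∀ c : L, algebraMap L Ω c ∈ W) → W ≠ ⊤ →
      (∀ u ∈ Subfield.closure ((algebraicClosure L Ω : Set Ω) ∪
        Set.range (fun e => algebraMap F Ω (i e))), u ≠ 0 → ¬ IsU W (t₁ / u)) →
      algebraMap F Ω (i z) ∈ W ∧
        h.eval₂ ((algebraMap L Ω).comp ((algebraMap K L).comp (algebraMap (𝓞 K) K)))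
          (algebraMap F Ω (i z)) ∈ W.nonunits) : False := by
  classical
  have hℓp : ℓ.Prime := Fact.out
  have hℓj : 0 < ℓ ^ j := pow_pos hℓp.pos j
  have hczL : CharZero L := charZero_of_injective_algebraMap (algebraMap K L).injective
  obtain ⟨R, _, _, _, _, _, _, jR, hjR, hunit, hlcR, hsR, hcopR, ϖ0, t0, hϖ0, ht0, hb⟩ :=
    num2 v (expand (𝓞 K) (ℓ ^ j) f₀) h (by rwa [leadingCoeff_expand hℓj]) hs _ hQ a ha ha'
  letI : Algebra R L := ((algebraMap K L).comp (algebraMap R K)).toAlgebra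
  haveI : IsScalarTower R K L := IsScalarTower.of_algebraMap_eq fun _ => rfl
  have h1ℓ : ¬ (ℓ : ℤ) ∣ 1 := by
    intro h0
    have h5 : (ℓ : ℤ) = 1 ∨ (ℓ : ℤ) = -1 := Int.natAbs_eq_iff.1 (by
      have := Int.natAbs_dvd_natAbs.2 h0
      simpa using this)
    rcases h5 with h5 | h5
    · exact hℓp.one_lt.ne' (by exact_mod_cast h5)
    · omega
  obtain ⟨A, _, _, _, _, _, _, j', hj', hlcA, hsA, hrA, ϖ, t', m', hϖ, ht', hm', heq⟩ :=
    dvr_ext2 (k := K) (L := L) ℓ hℓp Λ hdeg _ hlcR hsR (h.map jR) hcopR ϖ0 t0 hϖ0 ht0 1 h1ℓ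
  set J : 𝓞 K →+* A := j'.comp jR with hJ
  have hJL : (algebraMap A L).comp J = (algebraMap K L).comp (algebraMap (𝓞 K) K) := by
    rw [hJ, ← RingHom.comp_assoc, hj', ← hjR]
    rfl
  have hJL' : ∀ r, algebraMap A L (J r) = algebraMap K L (algebraMap (𝓞 K) K r) :=
    fun r => congrFun (congrArg DFunLike.coe hJL) r
  have hJinj : Function.Injective J := by
    have h1 : Function.Injective ((algebraMap A L).comp J) := by
      rw [hJL]
      exact (algebraMap K L).injective.comp (IsFractionRing.injective (𝓞 K) K)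
    exact Function.Injective.of_comp h1
  have hJu : ∀ c : 𝓞 K, c ∉ v.asIdeal → IsUnit (J c) := fun c hc => (hunit c hc).map j'
  have hexp : expand A (ℓ ^ j) (f₀.map J) = ((expand (𝓞 K) (ℓ ^ j) f₀).map jR).map j' := by
    rw [Polynomial.map_map, ← hJ, ← map_expand]
  have hdegE : (expand A (ℓ ^ j) (f₀.map J)).natDegree = (expand (𝓞 K) (ℓ ^ j) f₀).natDegree := by
    rw [hexp, Polynomial.map_map, ← hJ]
    exact natDegree_map_eq_of_injective hJinj _
  have hlcf : IsUnit (f₀.map J).leadingCoeff := by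
    rw [← leadingCoeff_expand (R := A) hℓj, hexp]
    exact hlcA
  have hψ : ∀ r : 𝓞 K, ((algebraMap L Ω).comp ((algebraMap K L).comp (algebraMap (𝓞 K) K))) r =
      algebraMap L Ω (algebraMap A L (J r)) := by
    intro r
    rw [hJL']
    rfl
  obtain ⟨V, hVA, hVm⟩ := exists_V A L (algebraicClosure L Ω)
  have hat : algebraMap K L (algebraMap (𝓞 K) K a) = algebraMap A L t' * algebraMap A L ϖ ^ m' := by
    rw [← heq, zpow_one, ← map_mul, ← hb]
    have h1 : algebraMap R L (jR a) = algebraMap K L (algebraMap R K (jR a)) := rfl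
    rw [h1]
    congr 1
    exact (congrFun (congrArg DFunLike.coe hjR) a).symm
  obtain ⟨t₁, W, ht₁, hWL, hWtop, hWram, hWres⟩ :=
    geoG (A := A) (k := L) (K₀ := K) (ℓ := ℓ) (j := j) V hVA hVm (by
        have := hJu _ hℓ
        rwa [map_natCast] at this) (f₀.map J) hlcf (by rw [hexp]; exact hsA)
      (by rw [hdegE]; exact hdvd) (by rw [hdegE]; exact h3) ϖ hϖ _ m' hm' t' ht' hat i hi x g hx hFx
      (by
        intro M _ _ i' O hi' hO
        letI : Algebra K (algebraicClosure L Ω) :=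
          ((algebraMap L (algebraicClosure L Ω)).comp (algebraMap K L)).toAlgebra
        refine hgood (algebraicClosure L Ω) M i' V O ⟨hi', ?_, ?_, hO⟩
        · intro r
          have h1 := hVA (J r)
          rw [hJL'] at h1
          exact h1
        · obtain ⟨w, hw⟩ := hJu c hcv
          have h1 := hVA (J c)
          have h2 := hVA (↑w⁻¹ : A)
          have h4 : algebraMap L (algebraicClosure L Ω) (algebraMap A L (J c)) *
              algebraMap L (algebraicClosure L Ω) (algebraMap A L (↑w⁻¹ : A)) = 1 := by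
            rw [← map_mul, ← map_mul, ← hw, Units.mul_inv, map_one, map_one]
          rw [hJL'] at h1 h4
          refine ⟨left_ne_zero_of_mul_eq_one h4, h1, ?_⟩
          have h5 : (algebraMap K (algebraicClosure L Ω) (algebraMap (𝓞 K) K c))⁻¹ =
              algebraMap L (algebraicClosure L Ω) (algebraMap A L (↑w⁻¹ : A)) :=
            inv_eq_of_mul_eq_one_right h4
          rw [h5]
          exact h2)
      u y t hu (by
        rw [hy, aeval_def, Polynomial.map_map, eval₂_map, hJL]) ht hET htT N hN S hcont hcompat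
  obtain ⟨hz1, hz2⟩ := hram t₁ W ht₁ hWL hWtop hWram
  obtain ⟨e, he1, he2⟩ := hWres z hz1
  have heW : (e : Ω) ∈ W := Pool.Agent.W620.SC.const_mem hWL e.2
  have he3 := eval_cong W ((algebraMap L Ω).comp ((algebraMap K L).comp (algebraMap (𝓞 K) K)))
    (fun r => hWL (algebraMap K L (algebraMap (𝓞 K) K r))) h hz1 heW he1 hz2
  have he0 : aeval e ((h.map J).map (algebraMap A L)) = 0 := by
    rw [Polynomial.map_map, hJL, aeval_def, eval₂_map]
    by_contra h0
    set w : algebraicClosure L Ω := h.eval₂ ((algebraMap L (algebraicClosure L Ω)).comp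
      ((algebraMap K L).comp (algebraMap (𝓞 K) K))) e with hw
    have h1 : (w : Ω) = h.eval₂ ((algebraMap L Ω).comp
        ((algebraMap K L).comp (algebraMap (𝓞 K) K))) (e : Ω) :=
      Polynomial.hom_eval₂ h _ (algebraMap (algebraicClosure L Ω) Ω) e
    rw [← h1] at he3
    have h2 : ((w⁻¹ : algebraicClosure L Ω) : Ω) ∈ W :=
      Pool.Agent.W620.SC.const_mem hWL (w⁻¹).2
    have h4 := non_mul h2 he3
    have h5 : ((w⁻¹ : algebraicClosure L Ω) : Ω) * (w : Ω) = 1 := by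
      have h6 : w⁻¹ * w = 1 := inv_mul_cancel₀ h0
      exact congrArg (fun q : algebraicClosure L Ω => (q : Ω)) h6
    rw [h5] at h4
    exact isU_one.not_nonunit h4
  obtain ⟨b, hb2⟩ := root_mod (A := A) (k := L) V hVA hVm (h.map J)
    (by rw [(hm.map J).leadingCoeff]; exact isUnit_one) e he0 he2
  refine hrA b ?_
  rw [Polynomial.map_map, ← hJ]
  exact hb2

end Pool.Agent.Helper45.EP
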