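import Pool.Agent.Helper45.EP.LocG

/-! The dichotomy: the inertia group acts trivially, or the section is locally the section of exactly one
branch point. -/

set_option autoImplicit false
set_option linter.all false

open Polynomial FF

namespace Pool.Agent.Helper45.EP

open Pool.Agent.Y157.PS Pool.Agent.Y157.GT Pool.Agent.Y31.PS Pool.Agent.R925.Q Pool.Agent.R925.X
  Pool.Agent.R925.L

section

variable {A k κ : Type} [CommRing A] [IsDomain A]
    [IsDiscreteValuationRing A] [Field k] [Field κ] [Algebra A k] [Algebra k κ] [Algebra A κ]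
    [IsScalarTower A k κ] [IsFractionRing A k] [CharZero k] [IsAlgClosure k κ]
    [Finite (IsLocalRing.ResidueField A)]


variable {R M : Type} [Field R] [Field M] [Algebra κ R]
    [Algebra R M] [Algebra κ M] [IsScalarTower κ R M]

/-- the place `W` is above a zero of `f`, or above `x = 0, ∞` if `j ≥ 1` -/
def BrP (j : ℕ) (X : M) (B : Finset κ) (W : Place κ M) : Prop :=
  (∃ e ∈ B, 0 < W.ord (X - algebraMap κ M e)) ∨ (1 ≤ j ∧ W.ord X ≠ 0)

/-- a place above a branch point which is fixed by the image of inertia has a symmetry -/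
theorem sym_at {ℓ j : ℕ} [Fact ℓ.Prime] [IsAlgClosed κ] [CharZero κ] {V : ValuationSubring κ}
    (hℓU : IsU V (ℓ : κ)) {x : R} {B : Finset κ} {Y : M} (hC : Cov ℓ κ R M x B Y)
    (hB : ∀ ζ : κ, ζ ^ (ℓ ^ j) = 1 → ∀ e ∈ B, ζ * e ∈ B) (h0 : 1 ≤ j → (0 : κ) ∉ B)
    (hRot : HasRot κ R M x B Y V)
    {ρ δ : κ} {s : (κ ≃ₐ[k] κ) →* RingAut M} (hs : Sec2 k κ R M x Y ρ δ s)
    {τ : κ ≃ₐ[k] κ} (hτ : Ine V τ) {W : Place κ M} (hW : BrP j (algebraMap R M x) B W)
    (hfix : Fixes W (s τ)) :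
    ∃ (c : M ≃ₐ[κ] M) (a : κ), a ^ (ℓ ^ j) = 1 ∧
      c (algebraMap R M x) = algebraMap κ M a * algebraMap R M x ∧ c ≠ 1 ∧ c ^ ℓ = 1 ∧
      Fixes W c ∧ ∀ z, s τ (c z) = c (s τ z) := by
  have hp := (Fact.out : ℓ.Prime).pos
  have hm : 0 < ℓ ^ j := pow_pos hp j
  set X := algebraMap R M x with hX
  have htr : Transcendental κ X := trX hC
  have hX0 : X ≠ 0 := by
    intro h
    exact htr (h ▸ isAlgebraic_zero)
  have hY0 : Y ≠ 0 := Y_ne hC htr
  rcases hW with ⟨e', he', hWe'⟩ | ⟨hj, hWX⟩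
  · obtain ⟨-, c, We, -, -, hc, hWc, hcY⟩ := hRot e' he'
    have hconst : ∀ (γ : M ≃ₐ[R] M) (c : κ), γ (algebraMap κ M c) = algebraMap κ M c := by
      intro γ c
      rw [IsScalarTower.algebraMap_apply κ R M, γ.commutes]
    have hnor : Normal R M := by
      have := hC.gal
      infer_instance
    obtain ⟨g, hg⟩ := a_conj R M W.O We.O (trace_eq hC.rat e' hWe' hWc)
    have hgW : ∀ z, We.ord z = W.ord (g z) := by
      let W1 := Place.comapEquiv W (g : M ≃+* M) (RingEquiv.refl κ) (hconst g)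
      have h1 : We = W1 := by
        apply Place.ext_O
        ext z
        rw [hg, Place.mem_O, Place.mem_O]
        unfold Place.Reg
        change g z = 0 ∨ _ ↔ z = 0 ∨ _
        rw [map_eq_zero_iff g g.injective]
        rfl
      intro z
      rw [h1]; rfl
    let c' : M ≃ₐ[R] M := g * c * g⁻¹
    have hc'z : ∀ z, c' z = g (c (g⁻¹ z)) := fun z => rfl
    have hginv : ∀ z, g (g⁻¹ z) = z := fun z => g.apply_symm_apply z
    have hc' : Fixes W c' := by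
      intro z
      rw [hc'z, ← hgW, hc, hgW, hginv]
    have hY' : W.ord Y = 1 := hC.ordY W he' hWe'
    have hc'Y : c' Y ≠ Y := by
      intro h
      obtain ⟨ξ, hξ, h1⟩ := hC.actY hY0 g⁻¹
      rw [hc'z, h1, map_mul, hconst, map_mul, hconst] at h
      have h2 : g (g⁻¹ Y) = Y := hginv Y
      rw [h1, map_mul, hconst] at h2
      have hξ0 : algebraMap κ M ξ ≠ 0 := by
        intro h0
        rw [h0, zero_mul] at h2
        exact hY0 h2.symm
      have h3 : g (c Y) = g Y := mul_left_cancel₀ hξ0 (h.trans h2.symm)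
      exact hcY (g.injective h3)
    obtain ⟨ζ', hζ', hc'Y'⟩ := hC.actY hY0 c'
    have hpowY : ∀ n : ℕ, (c' ^ n) Y = algebraMap κ M (ζ' ^ n) * Y := by
      intro n
      induction n with
      | zero => rw [pow_zero, pow_zero, map_one, one_mul]; rfl
      | succ n ih =>
        rw [pow_succ, pow_succ]
        change (c' ^ n) (c' Y) = _
        rw [hc'Y', map_mul, hconst, ih, map_mul]
        ring
    have hc'ℓ : c' ^ ℓ = 1 := by
      refine hC.stabR a_stab W _ (hc'.pow ℓ) Y hY' ?_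
      rw [hpowY, hζ', map_one, one_mul]
    let c₁ : M ≃ₐ[κ] M := c'.restrictScalars κ
    have hc₁ : ∀ z, c₁ z = c' z := fun z => rfl
    have hc₁X : c₁ X = X := c'.commutes x
    refine ⟨c₁, 1, one_pow _, by rw [map_one, one_mul, hc₁X], ?_, ?_, hc', ?_⟩
    · intro h
      apply hc'Y
      rw [← hc₁, h]; rfl
    · ext z
      have h1 : ∀ (n : ℕ) z, (c₁ ^ n) z = (c' ^ n) z := by
        intro n
        induction n with
        | zero => intro z; rfl
        | succ n ih => intro z; rw [pow_succ, AlgEquiv.mul_apply, ih, pow_succ]; rfl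
      rw [h1, hc'ℓ]; rfl
    · obtain ⟨θ, hθ⟩ := conjS (s := s) hs.const c₁ τ
      have hθX : θ X = X := by
        apply (s τ).injective
        rw [hθ, hs.fixx, map_mul, c₁.commutes, hc₁X]
      obtain ⟨θ', hθ'⟩ := toR hC.rat θ hθX
      have hθY : θ' Y = algebraMap κ M ζ' * Y := by
        rw [hθ']
        apply (s τ).injective
        have h1 : τ ζ' = ζ' := hτ.fix_root hℓU hζ'
        rw [hθ, hs.fixy, map_mul, c₁.commutes, hc₁, hc'Y', map_mul, hs.const, h1, hs.fixy]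
        ring
      have hθW : Fixes W θ' := by
        intro z
        rw [hθ', ← hfix (θ z), hθ, hc₁, hc', hfix]
      have h2 : c'⁻¹ * θ' = 1 := by
        refine hC.stabR a_stab W _ (hc'.inv.mul hθW) Y hY' ?_
        change c'.symm (θ' Y) = Y
        rw [AlgEquiv.symm_apply_eq, hθY, hc'Y']
      have h3 : θ' = c' := (inv_mul_eq_one.1 h2).symm
      intro z
      rw [← hθ, ← hθ', h3]
      rfl
  · have h0' := h0 hj
    obtain ⟨ζ₀, hζ₀⟩ := HasEnoughRootsOfUnity.exists_primitiveRoot κ ℓ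
    have hζ₀m : ζ₀ ^ (ℓ ^ j) = 1 := by
      obtain ⟨i, rfl⟩ : ∃ i, j = i + 1 := ⟨j - 1, by omega⟩
      rw [pow_succ', pow_mul, hζ₀.pow_eq_one, one_pow]
    obtain ⟨c, hcX, hcW⟩ := exists_rotW hC hm hB hζ₀m hWX
    have hcn : ∀ n : ℕ, (c ^ n) X = algebraMap κ M (ζ₀ ^ n) * X := by
      intro n
      induction n with
      | zero => rw [pow_zero, pow_zero, map_one, one_mul]; rfl
      | succ n ih =>
        rw [pow_succ, AlgEquiv.mul_apply, hcX, map_mul, (c ^ n).commutes, ih, pow_succ, map_mul]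
        ring
    refine ⟨c, ζ₀, hζ₀m, hcX, ?_, ?_, hcW, ?_⟩
    · intro h
      rw [h] at hcX
      have h1 : algebraMap κ M ζ₀ * X = 1 * X := by rw [← hcX, one_mul]; rfl
      have h2 := mul_right_cancel₀ hX0 h1
      rw [← map_one (algebraMap κ M)] at h2
      exact hζ₀.ne_one (Fact.out : ℓ.Prime).one_lt ((algebraMap κ M).injective h2)
    · refine stabX hC h0' hWX (Fixes_pow' hcW _) (fun z => rfl) ?_
      rw [← hX, hcn, hζ₀.pow_eq_one, map_one, one_mul]; rfl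
    · obtain ⟨θ, hθ⟩ := conjS (s := s) hs.const c τ
      have h1 : τ ζ₀ = ζ₀ := hτ.fix_root hℓU hζ₀.pow_eq_one
      have hθX : θ X = c X := by
        apply (s τ).injective
        rw [hθ, hcX, hs.fixx, map_mul, c.commutes, hcX, map_mul, hs.const, hs.fixx, h1]
        ring
      have hθW : Fixes W θ := by
        intro z
        rw [← hfix (θ z), hθ, hcW, hfix]
      have hθc : θ = c := stabX hC h0' hWX hθW hcW hθX
      intro z
      rw [← hθ, hθc]

/-- **the dichotomy** -/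
theorem dich {ℓ j : ℕ} [Fact ℓ.Prime] {V : ValuationSubring κ} (hl : IsUnit (ℓ : A))
    (hVA : ∀ a : A, algebraMap A κ a ∈ V)
    (hVm : ∀ a ∈ IsLocalRing.maximalIdeal A, algebraMap A κ a ∈ V.nonunits)
    {x : R} {B : Finset κ} {Y : M} (hC : Cov ℓ κ R M x B Y)
    (hG : Good V B) (hB : ∀ ζ : κ, ζ ^ (ℓ ^ j) = 1 → ∀ e ∈ B, ζ * e ∈ B)
    (h0 : 1 ≤ j → (0 : κ) ∉ B)
    {F : Type} [Field F] {r : V →+* F} (hr : Res V r) (D : Disc ℓ V r)
    {b d : k} (hb0 : b ≠ 0) (hd0 : d ≠ 0) {ρ δ : κ} (hρ : ρ ^ (ℓ ^ j) = algebraMap k κ b)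
    (hδ : δ ^ ℓ = algebraMap k κ d)
    {s : (κ ≃ₐ[k] κ) →* RingAut M} (hs : Sec2 k κ R M x Y ρ δ s) :
    ∃ O : ValuationSubring M, Gauss V (algebraMap R M x) O ∧
      (∀ O', Gauss V (algebraMap R M x) O' → O' = O) ∧
      (∀ (γ γ' : M ≃ₐ[κ] M) (a a' : κ), a ^ (ℓ ^ j) = 1 → a' ^ (ℓ ^ j) = 1 →
        γ (algebraMap R M x) = algebraMap κ M a * algebraMap R M x →
        γ' (algebraMap R M x) = algebraMap κ M a' * algebraMap R M x →
        (∀ z ∈ O, γ z - γ' z ∈ O.nonunits) → γ = γ') ∧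
      ((∀ σ : κ ≃ₐ[k] κ, Ine V σ → ∀ z ∈ O, s σ z - z ∈ O.nonunits) ∨
        ∃ W : Place κ M, BrP j (algebraMap R M x) B W ∧
          (∀ σ : κ ≃ₐ[k] κ, Dec V σ → Fixes W (s σ)) ∧
          ∀ W' : Place κ M, BrP j (algebraMap R M x) B W' →
            (∀ σ : κ ≃ₐ[k] κ, Dec V σ → Fixes W' (s σ)) → W' = W) := by
  have hac : IsAlgClosed κ := IsAlgClosure.isAlgClosed k
  have hcz : CharZero κ := charZero_of_injective_algebraMap (algebraMap k κ).injective
  have hp := (Fact.out : ℓ.Prime).pos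
  have hm : 0 < ℓ ^ j := pow_pos hp j
  have hℓU : IsU V (ℓ : κ) := by
    have h1 := isU_of_unit (V := V) hVA hl
    rwa [map_natCast] at h1
  have hmU : IsU V ((ℓ ^ j : ℕ) : κ) := isU_natpow hℓU j
  obtain ⟨ϖ, hϖ⟩ := IsDiscreteValuationRing.exists_irreducible A
  have hinj : Function.Injective (algebraMap A κ) := by
    rw [IsScalarTower.algebraMap_eq A k κ]
    exact (algebraMap k κ).injective.comp (IsFractionRing.injective A k)
  have hϖ0 : algebraMap A κ ϖ ≠ 0 := by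
    intro h
    exact hϖ.ne_zero (hinj (by rw [h, map_zero]))
  have hρ0 : ρ ≠ 0 := by
    rintro rfl
    rw [zero_pow hm.ne'] at hρ
    exact (_root_.map_ne_zero (algebraMap k κ)).2 hb0 hρ.symm
  have hδ0 : δ ≠ 0 := by
    rintro rfl
    rw [zero_pow hp.ne'] at hδ
    exact (_root_.map_ne_zero (algebraMap k κ)).2 hd0 hδ.symm
  have hrt : ∀ σ : κ ≃ₐ[k] κ, (σ ρ / ρ) ^ (ℓ ^ j) = 1 := by
    intro σ
    rw [div_pow, ← map_pow, hρ, σ.commutes, div_self]
    exact (_root_.map_ne_zero (algebraMap k κ)).2 hb0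
  -- the root of the uniformiser
  obtain ⟨Θ, hΘ⟩ := IsAlgClosed.exists_pow_nat_eq (algebraMap A κ ϖ) (pow_pos hp (j + 1))
  have hΘ0 : Θ ≠ 0 := by
    rintro rfl
    rw [zero_pow (pow_pos hp (j + 1)).ne'] at hΘ
    exact hϖ0 hΘ.symm
  obtain ⟨τ, hτ, hprim, hall⟩ :=
    exists_tame (k := k) hl hVA hVm hϖ (by omega) hΘ
  have hmU' : IsU V ((ℓ ^ (j + 1) : ℕ) : κ) := isU_natpow hℓU (j + 1)
  have hτfix : τ (τ Θ / Θ) = τ Θ / Θ := ine_root (pow_pos hp (j + 1)) hmU' hτ hprim.pow_eq_one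
  have hτi : ∀ n : ℕ, (τ ^ n) Θ = (τ Θ / Θ) ^ n * Θ := by
    intro n
    induction n with
    | zero => rw [pow_zero, pow_zero, one_mul]; rfl
    | succ n ih =>
      rw [pow_succ', AlgEquiv.mul_apply, ih, map_mul, map_pow, hτfix, pow_succ, mul_assoc,
        div_mul_cancel₀ _ hΘ0]
  obtain ⟨tb, βb, htb, hbt⟩ := exists_unit_zpow (A := A) (k := k) hϖ hb0
  obtain ⟨td, βd, htd, hdt⟩ := exists_unit_zpow (A := A) (k := k) hϖ hd0
  have hAk : ∀ (t : A) (n : ℤ), algebraMap k κ (algebraMap A k t * algebraMap A k ϖ ^ n) =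
      algebraMap A κ t * algebraMap A κ ϖ ^ n := by
    intro t n
    rw [map_mul, map_zpow₀, ← IsScalarTower.algebraMap_apply, ← IsScalarTower.algebraMap_apply]
  have hρ' : ρ ^ (ℓ ^ j) = algebraMap A κ tb * algebraMap A κ ϖ ^ βb := by rw [hρ, hbt, hAk]
  have hδ' : δ ^ (ℓ ^ 1) = algebraMap A κ td * algebraMap A κ ϖ ^ βd := by
    rw [pow_one, hδ, hdt, hAk]
  have hfixρ : ∀ σ : κ ≃ₐ[k] κ, Ine V σ → σ Θ = Θ → σ ρ = ρ := by
    intro σ hσ h
    have h1 := act_rad hl hVA hϖ (Nat.le_succ j) hΘ htb hρ' hσ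
    rw [h, div_self hΘ0, one_pow, one_zpow, div_eq_one_iff_eq hρ0] at h1
    exact h1
  have hfixδ : ∀ σ : κ ≃ₐ[k] κ, Ine V σ → σ Θ = Θ → σ δ = δ := by
    intro σ hσ h
    have h1 := act_rad hl hVA hϖ (by omega : 1 ≤ j + 1) hΘ htd hδ' hσ
    rw [h, div_self hΘ0, one_pow, one_zpow, div_eq_one_iff_eq hδ0] at h1
    exact h1
  -- the Gauss valuation
  have hRot := a_gex ℓ κ R M x B Y hC F V r hr hG D
  obtain ⟨e0, he0⟩ : B.Nonempty := by
    rw [← Finset.card_pos]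
    have := hC.three
    omega
  obtain ⟨O, -, -, hO, -⟩ := hRot e0 he0
  have hun : ∀ O' : ValuationSubring M, Gauss V (algebraMap R M x) O' → O' = O :=
    fun O' h => a_gun ℓ κ R M x B Y hC V hRot O' O h hO
  have hinf : ¬ FiniteDimensional R M := inf_of_rot hC fun e he => by
    obtain ⟨-, c, W, -, -, h3, h4, h5⟩ := hRot e he
    exact ⟨c, W, h3, h4, h5⟩
  have hUL : ∀ (γ γ' : M ≃ₐ[κ] M) (a a' : κ), a ^ (ℓ ^ j) = 1 → a' ^ (ℓ ^ j) = 1 →
      γ (algebraMap R M x) = algebraMap κ M a * algebraMap R M x →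
      γ' (algebraMap R M x) = algebraMap κ M a' * algebraMap R M x →
      (∀ z ∈ O, γ z - γ' z ∈ O.nonunits) → γ = γ' := fun γ γ' a a' h1 h2 h3 h4 h5 =>
    unique_lift2 hC hm hmU hℓU hO hun h1 h2 h3 h4 h5
  refine ⟨O, hO, hun, hUL, ?_⟩
  set X := algebraMap R M x with hX
  have UL := hUL
  have htr : Transcendental κ X := trX hC
  have hX0 : X ≠ 0 := by
    intro h
    exact htr (h ▸ isAlgebraic_zero)
  have st : ∀ σ : κ ≃ₐ[k] κ, Dec V σ → ∀ z, s σ z ∈ O ↔ z ∈ O := fun σ hσ =>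
    stable2 hO hun (s σ) (σ : κ ≃+* κ) (hs.const σ) (isU_root hm (hrt σ)) (hs.fixx σ) hσ
  have stn : ∀ σ : κ ≃ₐ[k] κ, Dec V σ → ∀ z, s σ z ∈ O.nonunits ↔ z ∈ O.nonunits := fun σ hσ =>
    stable_non (st σ hσ)
  have wgt : ∀ σ : κ ≃ₐ[k] κ, Ine V σ → σ Θ = Θ → ∀ z ∈ O, s σ z - z ∈ O.nonunits :=
    fun σ hσ h1 z hz =>
      wgt2 hl hVA hVm hC hG hr D hρ0 hδ0 hs hO hun hσ (hfixρ σ hσ h1) (hfixδ σ hσ h1) hz
  have smul : ∀ (σ σ' : κ ≃ₐ[k] κ) z, s (σ * σ') z = s σ (s σ' z) := by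
    intro σ σ' z
    rw [map_mul]; rfl
  have sinv : ∀ (σ : κ ≃ₐ[k] κ) z, s σ⁻¹ (s σ z) = z := by
    intro σ z
    rw [← smul, inv_mul_cancel, map_one]; rfl
  have sinv' : ∀ (σ : κ ≃ₐ[k] κ) z, s σ (s σ⁻¹ z) = z := by
    intro σ z
    rw [← smul, mul_inv_cancel, map_one]; rfl
  set ζ := τ ρ / ρ with hζ
  have hζm : ζ ^ (ℓ ^ j) = 1 := hrt τ
  -- the lift of `s τ`
  obtain ⟨γ, hγX, hγ⟩ := exists_lift2 hC hm hB hO hun (s τ) (st τ hτ.1) (fun c hc => by
    rw [hs.const, ← map_sub, hO.nonunit]; exact hτ.2 c hc) hζm (hs.fixx τ)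
  have hγn : ∀ n : ℕ, (γ ^ n) X = algebraMap κ M (ζ ^ n) * X := by
    intro n
    induction n with
    | zero => rw [pow_zero, pow_zero, map_one, one_mul]; rfl
    | succ n ih =>
      rw [pow_succ, AlgEquiv.mul_apply, hγX, map_mul, (γ ^ n).commutes, ih, pow_succ, map_mul]
      ring
  have hζn : ∀ n : ℕ, (ζ ^ n) ^ (ℓ ^ j) = 1 := by
    intro n
    rw [← pow_mul, mul_comm, pow_mul, hζm, one_pow]
  have gt : ∀ z, γ z ∈ O ↔ z ∈ O := stable3 hO hun γ hm hζm hγX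
  have hpow : ∀ (n : ℕ), ∀ z ∈ O, (γ ^ n) z - s (τ ^ n) z ∈ O.nonunits := by
    intro n
    induction n with
    | zero =>
      intro z hz
      rw [pow_zero, pow_zero, map_one]
      change z - z ∈ _
      rw [sub_self]; exact nonunits_iff.2 ⟨zero_mem _, Or.inl rfl⟩
    | succ n ih =>
      intro z hz
      rw [pow_succ, pow_succ, smul]
      change (γ ^ n) (γ z) - _ ∈ _
      have h1 : (γ ^ n) (γ z) - s (τ ^ n) (s τ z) =
          ((γ ^ n) (γ z) - s (τ ^ n) (γ z)) + s (τ ^ n) (γ z - s τ z) := by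
        rw [map_sub]; ring
      rw [h1]
      exact non_add (ih _ ((gt z).2 hz)) ((stn _ (hτ.pow n).1 _).2 (hγ z hz))
  by_cases hγ1 : γ = 1
  · left
    intro σ hσ z hz
    obtain ⟨a, ha⟩ := hall σ hσ
    have hρI : Ine V (τ⁻¹ ^ a * σ) := (hτ.inv.pow a).mul hσ
    have h2 : σ = τ ^ a * (τ⁻¹ ^ a * σ) := by
      rw [inv_pow, mul_inv_cancel_left]
    have h3 : s σ z - z = s (τ ^ a) (s (τ⁻¹ ^ a * σ) z - z) - ((γ ^ a) z - s (τ ^ a) z) := by
      rw [hγ1, one_pow, map_sub, ← smul, ← h2]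
      change _ = s σ z - s (τ ^ a) z - (z - s (τ ^ a) z)
      ring
    rw [h3]
    exact non_sub ((stn _ (hτ.pow a).1 _).2 (wgt _ hρI ha z hz)) (hpow a z hz)
  right
  have hτN : (τ ^ (ℓ ^ (j + 1))) Θ = Θ := by rw [hτi, hprim.pow_eq_one, one_mul]
  have hζN : ζ ^ (ℓ ^ (j + 1)) = 1 := by rw [pow_succ, pow_mul, hζm, one_pow]
  have hγm : γ ^ (ℓ ^ (j + 1)) = 1 := by
    refine UL _ _ (ζ ^ (ℓ ^ (j + 1))) 1 (hζn _) (one_pow _) (hγn _)
      (by rw [map_one, one_mul]; rfl) ?_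
    intro z hz
    change (γ ^ (ℓ ^ (j + 1))) z - z ∈ _
    have h1 : (γ ^ (ℓ ^ (j + 1))) z - z = ((γ ^ (ℓ ^ (j + 1))) z - s (τ ^ (ℓ ^ (j + 1))) z) +
      (s (τ ^ (ℓ ^ (j + 1))) z - z) := by ring
    rw [h1]
    exact non_add (hpow _ z hz) (wgt _ (hτ.pow _) hτN z hz)
  -- the power of order `ℓ`
  obtain ⟨n', hηne, hηℓ⟩ := exists_ord hγm hγ1
  set η := γ ^ (ℓ ^ n') with hη
  have hηX : η X = algebraMap κ M (ζ ^ (ℓ ^ n')) * X := hγn _
  have hηs : StR R η := stR_of_rot hC.rat hηX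
  obtain ⟨W, hW⟩ := exf3 hC η hηℓ hηne hηs
  have hBr : BrP j X B W := by
    by_cases h1 : ζ ^ (ℓ ^ n') = 1
    · left
      have h2 : η X = X := by rw [hηX, h1, map_one, one_mul]
      obtain ⟨g, hg⟩ := toR hC.rat η h2
      have hgne : g ≠ 1 := by
        intro h
        apply hηne
        ext z
        rw [← hg, h]; rfl
      obtain ⟨-, e, he, hWe, -⟩ := hC.fixed a_stab W g (fun z => by rw [hg, hW]) hgne
      exact ⟨e, he, hWe⟩
    · right
      refine ⟨?_, fun h => h1 (eig_one hC hW hX0 h hηX)⟩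
      by_contra hj
      have hj0 : j = 0 := by omega
      apply h1
      have h2 := hζn (ℓ ^ n')
      rwa [hj0, pow_zero, pow_one] at h2
  -- the image of the section fixes `W`
  have hfix : ∀ σ : κ ≃ₐ[k] κ, Dec V σ → Fixes W (s σ) := by
    intro σ hσ
    obtain ⟨η', hη'⟩ := conjS (s := s) hs.const γ σ
    obtain ⟨a, ha⟩ := hall (σ⁻¹ * τ * σ) (Ine.conj hσ hτ)
    have hρI : Ine V (τ⁻¹ ^ a * (σ⁻¹ * τ * σ)) := (hτ.inv.pow a).mul (Ine.conj hσ hτ)
    have hη'X : η' X = algebraMap κ M (σ⁻¹ ζ) * X := by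
      apply (s σ).injective
      rw [hη', hs.fixx, map_mul, γ.commutes, hγX, map_mul, hs.const, hs.fixx]
      have h1 : σ (σ⁻¹ ζ) = ζ := σ.apply_symm_apply ζ
      rw [h1]
      ring
    have hηγ : η' = γ ^ a := by
      refine UL _ _ (σ⁻¹ ζ) (ζ ^ a) (by rw [← map_pow, hζm, map_one]) (hζn a) hη'X (hγn a) ?_
      intro z hz
      have h1 : s (σ⁻¹ * τ * σ) z = s σ⁻¹ (s τ (s σ z)) := by rw [smul, smul]
      have h2 : σ⁻¹ * τ * σ = τ ^ a * (τ⁻¹ ^ a * (σ⁻¹ * τ * σ)) := by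
        rw [inv_pow, mul_inv_cancel_left]
      have h0' : η' z = s σ⁻¹ (γ (s σ z)) := by
        rw [← hη', sinv]
      have h3 : η' z - s (σ⁻¹ * τ * σ) z ∈ O.nonunits := by
        rw [h1, h0', ← map_sub]
        exact (stn _ hσ.inv _).2 (hγ _ ((st σ hσ z).2 hz))
      have h4 : s (σ⁻¹ * τ * σ) z - s (τ ^ a) z ∈ O.nonunits := by
        rw [h2, smul, ← map_sub]
        exact (stn _ (hτ.pow a).1 _).2 (wgt _ hρI ha z hz)
      have h5 := hpow a z hz
      have h6 : η' z - (γ ^ a) z = (η' z - s (σ⁻¹ * τ * σ) z) +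
          ((s (σ⁻¹ * τ * σ) z - s (τ ^ a) z) - ((γ ^ a) z - s (τ ^ a) z)) := by ring
      rw [h6]
      exact non_add h3 (non_sub h4 h5)
    have hconj : ∀ (i : ℕ) z, s σ ((η' ^ i) z) = (γ ^ i) (s σ z) := by
      intro i
      induction i with
      | zero => intro z; rfl
      | succ i ih =>
        intro z
        rw [pow_succ, AlgEquiv.mul_apply, ih, hη', pow_succ, AlgEquiv.mul_apply]
    have hηa : η' ^ (ℓ ^ n') = η ^ a := by rw [hηγ, hη, ← pow_mul, ← pow_mul, mul_comm]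
    have h1 : (η ^ a) ^ ℓ = 1 := by rw [← pow_mul, mul_comm, pow_mul, hηℓ, one_pow]
    have h2 : η ^ a ≠ 1 := by
      intro h
      apply hηne
      ext z
      have h3 := hconj (ℓ ^ n') (s σ⁻¹ z)
      rw [hηa, h, sinv'] at h3
      rw [← hη] at h3
      rw [← h3]
      change s σ (s σ⁻¹ z) = _
      rw [sinv']; rfl
    have h4 : StR R (η ^ a) := hηs.pow a
    let Wσ := Place.comapEquiv W (s σ) (σ : κ ≃+* κ) (hs.const σ)
    have h5 : Wσ = W := by
      refine unq3 hC hinf h1 h2 h4 (W := Wσ) (W' := W) ?_ (Fixes_pow' hW a)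
      intro z
      change W.ord (s σ ((η ^ a) z)) = W.ord (s σ z)
      rw [← hηa, hconj, ← hη, hW]
    intro z
    change Wσ.ord z = W.ord z
    rw [h5]
  refine ⟨W, hBr, hfix, ?_⟩
  intro W' hW' hfix'
  obtain ⟨c, a, ha, hcX, hc1, hcℓ, hcW, hcomm⟩ :=
    sym_at hℓU hC hB h0 hRot hs hτ hW' (hfix' τ hτ.1)
  have hcO := stable3 hO hun c hm ha hcX
  have hcN := stable_non (τ := (c : M ≃+* M)) hcO
  have hcomm' : γ * c = c * γ := by
    have hmm : (ζ * a) ^ (ℓ ^ j) = 1 := by rw [mul_pow, hζm, ha, one_mul]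
    refine UL _ _ (ζ * a) (ζ * a) hmm hmm ?_ ?_ ?_
    · rw [AlgEquiv.mul_apply, hcX, map_mul, γ.commutes, hγX, map_mul]; ring
    · rw [AlgEquiv.mul_apply, hγX, map_mul, c.commutes, hcX, map_mul]; ring
    · intro z hz
      change γ (c z) - c (γ z) ∈ _
      have h1 : γ (c z) - c (γ z) = (γ (c z) - s τ (c z)) - c (γ z - s τ z) := by
        rw [hcomm, map_sub]; ring
      rw [h1]
      exact non_sub (hγ _ ((hcO z).2 hz)) ((hcN _).2 (hγ z hz))
  have hγW' : Fixes W' γ := by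
    rw [fixes_iff]
    refine unq3 hC hinf hcℓ hc1 (stR_of_rot hC.rat hcX) (W := pl W' γ) (W' := W') (fun z => ?_) hcW
    rw [pl_ord, pl_ord, ← AlgEquiv.mul_apply, hcomm', AlgEquiv.mul_apply, hcW]
  exact unq3 hC hinf hηℓ hηne hηs (Fixes_pow' hγW' _) hW

end

end Pool.Agent.Helper45.EP
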