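import Pool.Agent.Helper45.EP.GeoP

/-! Prolongations of the Gauss valuation of `k(x)` for a discrete valuation ring. -/

set_option autoImplicit false
set_option linter.all false

open Polynomial

namespace Pool.Agent.Helper45.EP

open Pool.Agent.Y157.PS Pool.Agent.R925.L

section

variable {A k Ω : Type} [CommRing A] [IsDomain A] [IsDiscreteValuationRing A] [Field k]
    [Algebra A k] [IsFractionRing A k] [Field Ω] [Algebra k Ω]

/-- the valuation ring `W` induces the Gauss valuation on `k(x)` -/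
def GaussA (A k : Type) {Ω : Type} [CommRing A] [IsDomain A] [IsDiscreteValuationRing A] [Field k]
    [Algebra A k] [Field Ω] [Algebra k Ω] (x : Ω) (W : ValuationSubring Ω) : Prop :=
  (∀ a ∈ IsLocalRing.maximalIdeal A, algebraMap k Ω (algebraMap A k a) ∈ W.nonunits) ∧
    ∀ p : A[X], (∃ n, IsUnit (p.coeff n)) → aeval x (p.map (algebraMap A k)) ∈ W ∧
      (aeval x (p.map (algebraMap A k)))⁻¹ ∈ W

/-- a nonzero polynomial is a constant times a primitive one -/
theorem prim_poly {p : k[X]} (hp : p ≠ 0) : ∃ (c : k) (P : A[X]), c ≠ 0 ∧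
    (∃ n, IsUnit (P.coeff n)) ∧ p = C c * P.map (algebraMap A k) := by
  classical
  obtain ⟨ϖ, hϖ⟩ := IsDiscreteValuationRing.exists_irreducible A
  have hinj := IsFractionRing.injective A k
  have hϖ0 : algebraMap A k ϖ ≠ 0 := by
    rw [Ne, map_eq_zero_iff _ hinj]
    exact hϖ.ne_zero
  have h1 : ∀ i : ℕ, ∃ n : ℤ, p.coeff i ≠ 0 → ∃ t : A, IsUnit t ∧
      p.coeff i = algebraMap A k t * algebraMap A k ϖ ^ n := by
    intro i
    by_cases h : p.coeff i = 0
    · exact ⟨0, fun h' => (h' h).elim⟩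
    · obtain ⟨t, n, ht, htn⟩ := exists_unit_zpow (A := A) hϖ h
      exact ⟨n, fun _ => ⟨t, ht, htn⟩⟩
  choose n hn using h1
  obtain ⟨i₀, hi₀, hmin⟩ := p.support.exists_min_image n (support_nonempty.2 hp)
  set c : k := algebraMap A k ϖ ^ n i₀ with hc
  have hc0 : c ≠ 0 := zpow_ne_zero _ hϖ0
  have hlift : C c⁻¹ * p ∈ Polynomial.lifts (algebraMap A k) := by
    rw [Polynomial.lifts_iff_coeff_lifts]
    intro i
    rw [coeff_C_mul]
    by_cases h : p.coeff i = 0
    · exact ⟨0, by rw [h, mul_zero, map_zero]⟩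
    · obtain ⟨t, -, ht⟩ := hn i h
      have h2 := hmin i (mem_support_iff.2 h)
      obtain ⟨N, hN⟩ : ∃ N : ℕ, n i = n i₀ + N := ⟨(n i - n i₀).toNat, by omega⟩
      refine ⟨t * ϖ ^ N, ?_⟩
      rw [ht, hN, zpow_add₀ hϖ0, zpow_natCast, ← hc, map_mul, map_pow]
      field_simp
  obtain ⟨P, hP⟩ := hlift
  have hP' : P.map (algebraMap A k) = C c⁻¹ * p := hP
  refine ⟨c, P, hc0, ⟨i₀, ?_⟩, ?_⟩
  · obtain ⟨t, ht, ht'⟩ := hn i₀ (mem_support_iff.1 hi₀)
    have h3 : algebraMap A k (P.coeff i₀) = algebraMap A k t := by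
      rw [← coeff_map, hP', coeff_C_mul, ht', ← hc]
      field_simp
    rw [hinj h3]
    exact ht
  · rw [hP', ← mul_assoc, ← C_mul, mul_inv_cancel₀ hc0, C_1, one_mul]

theorem GaussA.const {x : Ω} {W : ValuationSubring Ω} (h : GaussA A k x W) {ϖ : A}
    (hϖ : Irreducible ϖ) {t : A} (ht : IsUnit t) (n : ℤ) :
    algebraMap k Ω (algebraMap A k t * algebraMap A k ϖ ^ n) ∈ W ↔ 0 ≤ n := by
  have hinj := IsFractionRing.injective A k
  have hϖ0 : algebraMap k Ω (algebraMap A k ϖ) ≠ 0 := by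
    rw [_root_.map_ne_zero, Ne, map_eq_zero_iff _ hinj]
    exact hϖ.ne_zero
  have ht1 := h.2 (C t) ⟨0, by rw [coeff_C_zero]; exact ht⟩
  rw [map_C, aeval_C] at ht1
  have ht0 : algebraMap k Ω (algebraMap A k t) ≠ 0 := by
    rw [_root_.map_ne_zero, Ne, map_eq_zero_iff _ hinj]
    exact ht.ne_zero
  have hϖn := h.1 ϖ ((IsLocalRing.mem_maximalIdeal _).2 hϖ.not_isUnit)
  rw [nonunits_iff] at hϖn
  rw [map_mul, map_zpow₀]
  constructor
  · intro h1
    by_contra hn
    obtain ⟨N, hN⟩ : ∃ N : ℕ, n = -((N : ℤ) + 1) := ⟨(-n - 1).toNat, by omega⟩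
    have h2 : algebraMap k Ω (algebraMap A k ϖ) ^ n ∈ W := by
      have h3 := mul_mem ht1.2 h1
      rwa [inv_mul_cancel_left₀ ht0] at h3
    have h4 : (algebraMap k Ω (algebraMap A k ϖ))⁻¹ =
        algebraMap k Ω (algebraMap A k ϖ) ^ n * algebraMap k Ω (algebraMap A k ϖ) ^ N := by
      rw [← zpow_natCast, ← zpow_add₀ hϖ0, hN, ← zpow_neg_one]
      congr 1
      ring
    rcases hϖn.2 with h5 | h5
    · exact hϖ0 h5
    · apply h5
      rw [h4]
      exact mul_mem h2 (pow_mem hϖn.1 N)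
  · intro hn
    obtain ⟨N, rfl⟩ := Int.eq_ofNat_of_zero_le hn
    rw [zpow_natCast]
    exact mul_mem ht1.1 (pow_mem hϖn.1 N)

/-- two such valuation rings agree on `k(x)` -/
theorem GaussA.agree {x : Ω} {W W' : ValuationSubring Ω} (h : GaussA A k x W)
    (h' : GaussA A k x W') {z : Ω} (hz : z ∈ IntermediateField.adjoin k {x}) :
    z ∈ W ↔ z ∈ W' := by
  rw [IntermediateField.mem_adjoin_simple_iff] at hz
  obtain ⟨p, q, rfl⟩ := hz
  by_cases hp : p = 0
  · rw [hp, map_zero, zero_div]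
    exact ⟨fun _ => zero_mem _, fun _ => zero_mem _⟩
  by_cases hq : q = 0
  · rw [hq, map_zero, div_zero]
    exact ⟨fun _ => zero_mem _, fun _ => zero_mem _⟩
  obtain ⟨c, P, hc, hP, rfl⟩ := prim_poly (A := A) hp
  obtain ⟨d, Q, hd, hQ, rfl⟩ := prim_poly (A := A) hq
  obtain ⟨ϖ, hϖ⟩ := IsDiscreteValuationRing.exists_irreducible A
  obtain ⟨t, n, ht, htn⟩ := exists_unit_zpow (A := A) hϖ (div_ne_zero hc hd)
  have key : ∀ W : ValuationSubring Ω, GaussA A k x W →
      ((aeval x) (C c * map (algebraMap A k) P) / (aeval x) (C d * map (algebraMap A k) Q) ∈ W ↔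
        0 ≤ n ∨ aeval x (map (algebraMap A k) P) = 0 ∨ aeval x (map (algebraMap A k) Q) = 0) := by
    intro W hW
    obtain ⟨hP1, hP2⟩ := hW.2 P hP
    obtain ⟨hQ1, hQ2⟩ := hW.2 Q hQ
    have hcd : algebraMap k Ω c / algebraMap k Ω d = algebraMap k Ω (c / d) := (map_div₀ _ _ _).symm
    by_cases hP0 : aeval x (map (algebraMap A k) P) = 0
    · rw [map_mul, hP0, mul_zero, zero_div]
      exact ⟨fun _ => Or.inr (Or.inl rfl), fun _ => zero_mem _⟩
    by_cases hQ0 : aeval x (map (algebraMap A k) Q) = 0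
    · rw [map_mul (aeval x) (C d), hQ0, mul_zero, div_zero]
      exact ⟨fun _ => Or.inr (Or.inr rfl), fun _ => zero_mem _⟩
    have h1 : (aeval x) (C c * map (algebraMap A k) P) / (aeval x) (C d * map (algebraMap A k) Q) =
        algebraMap k Ω (c / d) * (aeval x (map (algebraMap A k) P) *
          (aeval x (map (algebraMap A k) Q))⁻¹) := by
      rw [map_mul, map_mul, aeval_C, aeval_C, ← hcd]
      field_simp
    have h2 : algebraMap k Ω (c / d) = (aeval x) (C c * map (algebraMap A k) P) /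
        (aeval x) (C d * map (algebraMap A k) Q) * ((aeval x (map (algebraMap A k) P))⁻¹ *
          aeval x (map (algebraMap A k) Q)) := by
      rw [h1]
      field_simp
    rw [← hW.const hϖ ht n, ← htn]
    constructor
    · intro h3
      left
      rw [h2]
      exact mul_mem h3 (mul_mem hP2 hQ1)
    · intro h3
      rw [h1]
      rcases h3 with h3 | h3 | h3
      · exact mul_mem h3 (mul_mem hP1 hQ2)
      · exact (hP0 h3).elim
      · exact (hQ0 h3).elim
  rw [key W h, key W' h']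

theorem const_iff {L : Type} [Field L] [Algebra k L] {W : ValuationSubring L}
    (hA : ∀ a : A, algebraMap k L (algebraMap A k a) ∈ W)
    (hm : ∀ a ∈ IsLocalRing.maximalIdeal A, algebraMap k L (algebraMap A k a) ∈ W.nonunits) {ϖ : A}
    (hϖ : Irreducible ϖ) {t : A} (ht : IsUnit t) (n : ℤ) :
    algebraMap k L (algebraMap A k t * algebraMap A k ϖ ^ n) ∈ W ↔ 0 ≤ n := by
  have hinj := IsFractionRing.injective A k
  have hϖ0 : algebraMap k L (algebraMap A k ϖ) ≠ 0 := by
    rw [_root_.map_ne_zero, Ne, map_eq_zero_iff _ hinj]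
    exact hϖ.ne_zero
  obtain ⟨t', ht'⟩ := ht.exists_right_inv
  have ht1 : (algebraMap k L (algebraMap A k t))⁻¹ ∈ W := by
    have h1 : algebraMap k L (algebraMap A k t) * algebraMap k L (algebraMap A k t') = 1 := by
      rw [← map_mul, ← map_mul, ht', map_one, map_one]
    rw [inv_eq_of_mul_eq_one_right h1]
    exact hA t'
  have ht0 : algebraMap k L (algebraMap A k t) ≠ 0 := by
    rw [_root_.map_ne_zero, Ne, map_eq_zero_iff _ hinj]
    exact ht.ne_zero
  have hϖn := hm ϖ ((IsLocalRing.mem_maximalIdeal _).2 hϖ.not_isUnit)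
  rw [nonunits_iff] at hϖn
  rw [map_mul, map_zpow₀]
  constructor
  · intro h1
    by_contra hn
    obtain ⟨N, hN⟩ : ∃ N : ℕ, n = -((N : ℤ) + 1) := ⟨(-n - 1).toNat, by omega⟩
    have h2 : algebraMap k L (algebraMap A k ϖ) ^ n ∈ W := by
      have h3 := mul_mem ht1 h1
      rwa [inv_mul_cancel_left₀ ht0] at h3
    have h4 : (algebraMap k L (algebraMap A k ϖ))⁻¹ =
        algebraMap k L (algebraMap A k ϖ) ^ n * algebraMap k L (algebraMap A k ϖ) ^ N := by
      rw [← zpow_natCast, ← zpow_add₀ hϖ0, hN, ← zpow_neg_one]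
      congr 1
      ring
    rcases hϖn.2 with h5 | h5
    · exact hϖ0 h5
    · apply h5
      rw [h4]
      exact mul_mem h2 (pow_mem hϖn.1 N)
  · intro hn
    obtain ⟨N, rfl⟩ := Int.eq_ofNat_of_zero_le hn
    rw [zpow_natCast]
    exact mul_mem (hA t) (pow_mem hϖn.1 N)

end

end Pool.Agent.Helper45.EP
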