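import Pool.Agent.Helper45.EP.Dich
import Pool.Agent.Helper45.EP.GauA

/-! Sections of curves in the tower of a superelliptic curve: the local dichotomy. -/

set_option autoImplicit false
set_option linter.all false

open Polynomial FF

namespace Pool.Agent.Helper45.EP

open Pool.Agent.Y157.PS Pool.Agent.R925.L Pool.Agent.Y529.PS.IN Pool.Agent.R925.Q
  Pool.Agent.R925.X Pool.Agent.Y31.PS

section main

variable {A k F Ω : Type} [CommRing A] [IsDomain A] [IsDiscreteValuationRing A]
    [Finite (IsLocalRing.ResidueField A)] [Field k] [CharZero k] [Algebra A k] [IsFractionRing A k]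
    [Field F] [Field Ω] [Algebra k F] [Algebra F Ω] [Algebra k Ω] [IsScalarTower k F Ω]
    [IsAlgClosed Ω] [Algebra.IsAlgebraic F Ω]

theorem geoD {ℓ j : ℕ} [Fact ℓ.Prime] (V : ValuationSubring (algebraicClosure k Ω))
    (hVA : ∀ a : A, algebraMap k (algebraicClosure k Ω) (algebraMap A k a) ∈ V)
    (hVm : ∀ a ∈ IsLocalRing.maximalIdeal A,
      algebraMap k (algebraicClosure k Ω) (algebraMap A k a) ∈ V.nonunits)
    (hℓ : IsUnit (ℓ : A)) (f : A[X]) (hlc : IsUnit f.leadingCoeff)
    (hs : ((expand A (ℓ ^ j) f).map (IsLocalRing.residue A)).Separable)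
    (hdvd : ℓ ∣ (expand A (ℓ ^ j) f).natDegree) (h3 : 3 ≤ (expand A (ℓ ^ j) f).natDegree)
    (x : F) (hx : Transcendental k x)
    (hFx : Algebra.IsAlgebraic (IntermediateField.adjoin k {x}) F)
    (u y : Ω) (hu : u ^ (ℓ ^ j) = algebraMap F Ω x)
    (hy : y ^ ℓ = aeval (algebraMap F Ω x) (f.map (algebraMap A k)))
    (N : IntermediateField F Ω)
    (hN : ∀ z ∈ maxPro ℓ k (curveF k u y) Ω, z ∈ N)
    (S : (algebraicClosure k Ω ≃ₐ[k] algebraicClosure k Ω) →* (N ≃ₐ[F] N)) (hcont : Continuous S)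
    (hcompat : ∀ σ (c : algebraicClosure k Ω) (z : N), (z : Ω) = (c : Ω) →
      (S σ z : Ω) = (σ c : Ω))
    (hram : ∃ (W₀ : ValuationSubring Ω)
      (g : Ω ≃ₐ[IntermediateField.adjoin k {algebraMap F Ω x}] Ω) (z₀ : F),
      (∀ c : algebraicClosure k Ω, (c : Ω) ∈ W₀ ↔ c ∈ V) ∧
      GaussA A k (algebraMap F Ω x) W₀ ∧ (∀ w, g w ∈ W₀ ↔ w ∈ W₀) ∧
      (∀ w ∈ W₀, g w - w ∈ W₀.nonunits) ∧
      algebraMap F Ω z₀ ∈ maxPro ℓ k (curveF k u y) Ω ∧
      g (algebraMap F Ω z₀) ≠ algebraMap F Ω z₀) :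
    ∃ W : ValuationSubring N,
      ((∀ c : k, algebraMap F N (algebraMap k F c) ∈ W) ∧
        (algebraMap F N (aeval x (f.map (algebraMap A k))) ∈ W.nonunits ∨
          1 ≤ j ∧ (algebraMap F N x ∈ W.nonunits ∨ algebraMap F N x⁻¹ ∈ W.nonunits)) ∧
        (∀ z : F, algebraMap F Ω z ∈ maxPro ℓ k (curveF k u y) Ω → algebraMap F N z ∈ W →
          ∃ c : algebraicClosure k Ω,
            (∀ σ : algebraicClosure k Ω ≃ₐ[k] algebraicClosure k Ω, Dec V σ → σ c = c) ∧
            ∃ z' ∈ W.nonunits, (z' : Ω) = algebraMap F Ω z - c) ∧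
        ∀ σ : algebraicClosure k Ω ≃ₐ[k] algebraicClosure k Ω, Dec V σ →
          ∀ z : N, (z : Ω) ∈ maxPro ℓ k (curveF k u y) Ω → (S σ z ∈ W ↔ z ∈ W)) ∧
      ∀ W' : ValuationSubring N,
        (∀ c : k, algebraMap F N (algebraMap k F c) ∈ W') →
        (algebraMap F N (aeval x (f.map (algebraMap A k))) ∈ W'.nonunits ∨
          1 ≤ j ∧ (algebraMap F N x ∈ W'.nonunits ∨ algebraMap F N x⁻¹ ∈ W'.nonunits)) →
        (∀ σ : algebraicClosure k Ω ≃ₐ[k] algebraicClosure k Ω, Dec V σ →
          ∀ z : N, (z : Ω) ∈ maxPro ℓ k (curveF k u y) Ω → (S σ z ∈ W' ↔ z ∈ W')) →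
        ∀ z : N, (z : Ω) ∈ maxPro ℓ k (curveF k u y) Ω → (z ∈ W' ↔ z ∈ W) := by
  classical
  have hℓp : ℓ.Prime := Fact.out
  have hm : 0 < ℓ ^ j := pow_pos hℓp.pos j
  have hac : IsAlgClosure k (algebraicClosure k Ω) := inferInstance
  have hkb : IsAlgClosed (algebraicClosure k Ω) := hac.1
  have hch : CharZero (algebraicClosure k Ω) :=
    charZero_of_injective_algebraMap (algebraMap k (algebraicClosure k Ω)).injective
  letI : Algebra A (algebraicClosure k Ω) :=
    ((algebraMap k (algebraicClosure k Ω)).comp (algebraMap A k)).toAlgebra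
  haveI hst : IsScalarTower A k (algebraicClosure k Ω) :=
    IsScalarTower.of_algebraMap_eq (fun _ => rfl)
  have hVa : ∀ a : A, algebraMap A (algebraicClosure k Ω) a ∈ V := hVA
  have hVm' : ∀ a ∈ IsLocalRing.maximalIdeal A, algebraMap A (algebraicClosure k Ω) a ∈
    V.nonunits := hVm
  have hunit : ∀ b : A, IsUnit b → IsU V (algebraMap A (algebraicClosure k Ω) b) :=
    fun b hb => isU_of_unit hVa hb
  have hAk : Function.Injective (algebraMap A k) := IsFractionRing.injective A k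
  have hAinj : Function.Injective (algebraMap A (algebraicClosure k Ω)) := by
    rw [IsScalarTower.algebraMap_eq A k (algebraicClosure k Ω)]
    exact (algebraMap k (algebraicClosure k Ω)).injective.comp hAk
  -- the roots
  have hfe : ∀ {K : Type} [Field K] [Algebra A K] (z : K), aeval z (expand A (ℓ ^ j) f) =
      aeval (z ^ (ℓ ^ j)) f := fun z => expand_aeval _ f z
  have hlce : (expand A (ℓ ^ j) f).leadingCoeff = f.leadingCoeff := leadingCoeff_expand hm
  obtain ⟨f₁, hf₁⟩ : ∃ f₁ : A[X], f₁ = expand A (ℓ ^ j) f := ⟨_, rfl⟩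
  have hlc₀ := hlc
  rw [← hf₁] at hs hdvd h3 hlce
  rw [← hlce] at hlc
  simp only [← hf₁] at hfe
  obtain ⟨hnd, hdist⟩ := Pool.Agent.W623.SecC.roots_distinct V hVa hVm' f₁ hlc hs
  set P := f₁.map (algebraMap A (algebraicClosure k Ω)) with hP
  have hlc0 : algebraMap A (algebraicClosure k Ω) f₁.leadingCoeff ≠ 0 := (hunit _ hlc).1
  have hP0 : P ≠ 0 := by
    intro h
    apply hlc0
    rw [← leadingCoeff_map_of_leadingCoeff_ne_zero _ hlc0, ← hP, h, leadingCoeff_zero]
  have hPdeg : P.natDegree = f₁.natDegree := natDegree_map_of_leadingCoeff_ne_zero _ hlc0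
  set B : Finset (algebraicClosure k Ω) := P.roots.toFinset with hBdef
  have hmemB : ∀ θ, θ ∈ B ↔ aeval θ f₁ = 0 := by
    intro θ
    rw [hBdef, Multiset.mem_toFinset, mem_roots hP0, IsRoot.def, hP, eval_map]
    rfl
  have hcard : B.card = f₁.natDegree := by
    rw [hBdef, Multiset.toFinset_card_of_nodup hnd, ← hPdeg]
    exact (IsAlgClosed.splits P).natDegree_eq_card_roots.symm
  have hGood : Good V B := by
    constructor
    · intro e he
      exact Pool.Agent.W308.SecC.root_mem V hVa f₁ hlc _ ((hmemB _).1 he)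
    · intro e he e' he' hne
      exact hdist e (Multiset.mem_toFinset.1 he) e' (Multiset.mem_toFinset.1 he') hne
  -- the product formula
  have hPx : ∀ z : Ω, P.eval₂ (algebraMap (algebraicClosure k Ω) Ω) z =
      algebraMap (algebraicClosure k Ω) Ω (algebraMap A (algebraicClosure k Ω) f₁.leadingCoeff) *
        ∏ e ∈ B, (z - algebraMap (algebraicClosure k Ω) Ω e) := by
    intro z
    have h1 := (IsAlgClosed.splits P).eq_prod_roots
    have h5 : P.leadingCoeff = algebraMap A (algebraicClosure k Ω) f₁.leadingCoeff :=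
      leadingCoeff_map_of_leadingCoeff_ne_zero _ hlc0
    rw [h5] at h1
    have h6 : ∏ e ∈ B, (z - algebraMap (algebraicClosure k Ω) Ω e) =
        (P.roots.map fun e => z - algebraMap (algebraicClosure k Ω) Ω e).prod := by
      rw [hBdef, Finset.prod, Multiset.toFinset_val, Multiset.dedup_eq_self.2 hnd]
    rw [h6]
    conv_lhs => rw [h1]
    rw [eval₂_mul, eval₂_C, ← coe_eval₂RingHom, map_multiset_prod, Multiset.map_map]
    congr 2
    refine Multiset.map_congr rfl fun a _ => ?_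
    simp
  have hBrot : ∀ ζ : algebraicClosure k Ω, ζ ^ (ℓ ^ j) = 1 → ∀ e ∈ B, ζ * e ∈ B := by
    intro ζ hζ e he
    rw [hmemB, hfe] at he ⊢
    rw [mul_pow, hζ, one_mul, he]
  set x0 : Ω := algebraMap F Ω x with hx0
  have hfx : aeval x0 (f.map (algebraMap A k)) =
      P.eval₂ (algebraMap (algebraicClosure k Ω) Ω) u := by
    have e1 : P.eval₂ (algebraMap (algebraicClosure k Ω) Ω) u =
        ((expand k (ℓ ^ j)) (f.map (algebraMap A k))).eval₂ (algebraMap k Ω) u := by
      rw [hP, eval₂_map, hf₁, ← map_expand, eval₂_map,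
        IsScalarTower.algebraMap_eq A k (algebraicClosure k Ω), ← RingHom.comp_assoc,
        ← IsScalarTower.algebraMap_eq k (algebraicClosure k Ω) Ω]
    rw [e1, ← aeval_def, expand_aeval, hu]
  -- normalisation of `y`
  obtain ⟨c0, hc0⟩ : ∃ c0 : algebraicClosure k Ω, c0 ^ ℓ =
      algebraMap A (algebraicClosure k Ω) f₁.leadingCoeff :=
    IsAlgClosed.exists_pow_nat_eq _ hℓp.pos
  have hc00 : c0 ≠ 0 := by
    rintro rfl
    rw [zero_pow hℓp.ne_zero] at hc0
    exact hlc0 hc0.symm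
  set δ0 : algebraicClosure k Ω := c0⁻¹ with hδ0def
  have hδ00 : δ0 ≠ 0 := inv_ne_zero hc00
  have hδ0ℓ : (δ0 : Ω) ^ ℓ * algebraMap (algebraicClosure k Ω) Ω
      (algebraMap A (algebraicClosure k Ω) f₁.leadingCoeff) = 1 := by
    rw [← hc0]
    have h1 : (c0⁻¹ : algebraicClosure k Ω) ^ ℓ * c0 ^ ℓ = 1 := by
      rw [← mul_pow, inv_mul_cancel₀ hc00, one_pow]
    have h2 := congrArg (algebraMap (algebraicClosure k Ω) Ω) h1
    rw [map_mul, map_pow, map_one] at h2
    exact h2
  set Y0 : Ω := (δ0 : Ω) * y with hY0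
  have hY : Y0 ^ ℓ = ∏ e ∈ B, (u - algebraMap (algebraicClosure k Ω) Ω e) := by
    rw [hY0, mul_pow, hy, hfx, hPx, ← mul_assoc, hδ0ℓ, one_mul]
  -- the covering field
  have hX0 : Transcendental k u := by
    have h1 : Transcendental k x0 :=
      (transcendental_algebraMap_iff (R := k) (algebraMap F Ω).injective (a := x)).2 hx
    intro h
    apply h1
    rw [← hu]
    exact h.pow _
  have hrat := ratF_adj (trans_up hX0)
  let R := IntermediateField.adjoin (algebraicClosure k Ω) {u}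
  have hclR : IsAlgClosure R Ω := by
    refine ⟨inferInstance, ?_⟩
    have hmem : ∀ r ∈ IntermediateField.adjoin k {x}, algebraMap F Ω r ∈ R := by
      intro r hr
      have h1 : ∀ w ∈ IntermediateField.adjoin k {x},
          w ∈ R.toSubfield.comap (algebraMap F Ω) := by
        refine adjoin_le_sub ?_ ?_
        · intro c
          rw [Subfield.mem_comap, ← IsScalarTower.algebraMap_apply]
          exact IntermediateField.algebraMap_mem R (algebraMap k (algebraicClosure k Ω) c)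
        · intro w hw
          rw [Subfield.mem_comap, Set.mem_singleton_iff.1 hw, ← hx0, ← hu]
          exact pow_mem (IntermediateField.mem_adjoin_simple_self _ _) _
      exact h1 r hr
    let i1 : IntermediateField.adjoin k {x} →+* R :=
      ((algebraMap F Ω).comp (algebraMap (IntermediateField.adjoin k {x}) F)).codRestrict
        R.toSubfield (fun r => hmem r r.2)
    letI : Algebra (IntermediateField.adjoin k {x}) R := i1.toAlgebra
    haveI : IsScalarTower (IntermediateField.adjoin k {x}) R Ω :=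
      IsScalarTower.of_algebraMap_eq fun r => rfl
    haveI : Algebra.IsAlgebraic (IntermediateField.adjoin k {x}) Ω :=
      Algebra.IsAlgebraic.trans (IntermediateField.adjoin k {x}) F Ω
    exact Algebra.IsAlgebraic.tower_top (K := IntermediateField.adjoin k {x}) R
  let x' : R := ⟨u, IntermediateField.mem_adjoin_simple_self _ _⟩
  obtain ⟨M, hM⟩ : ∃ M : IntermediateField R Ω,
      ∀ z, z ∈ M ↔ z ∈ maxPro ℓ (algebraicClosure k Ω) (IntermediateField.adjoin R {Y0}) Ω :=
    ⟨(maxPro ℓ (algebraicClosure k Ω) (IntermediateField.adjoin R {Y0}) Ω).restrictScalars R,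
      fun z => Iff.rfl⟩
  have hYM : Y0 ∈ M := by
    rw [hM]
    exact (maxPro ℓ (algebraicClosure k Ω) (IntermediateField.adjoin R {Y0}) Ω).algebraMap_mem
      ⟨Y0, IntermediateField.mem_adjoin_simple_self _ _⟩
  have hCov : Cov ℓ (algebraicClosure k Ω) R M x' B ⟨Y0, hYM⟩ :=
    a_cov ℓ (algebraicClosure k Ω) R Ω x' hrat B (by rw [hcard]; exact hdvd)
      (by rw [hcard]; exact h3) Y0 hY M hM ⟨Y0, hYM⟩ rfl
  have hMT : ∀ z, z ∈ M ↔ z ∈ maxPro ℓ k (curveF k u y) Ω := fun z =>
    (hM z).trans (maxPro_curveF ℓ u y δ0 hδ00 z)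
  have hMN : ∀ z, z ∈ M → z ∈ N := fun z hz => hN z ((hMT z).1 hz)
  -- the section on `M`
  let jj : M →+* N := (algebraMap M Ω).codRestrict N.toSubfield (fun z => hMN z z.2)
  have hjj : ∀ z : M, ((jj z : N) : Ω) = (z : Ω) := fun z => rfl
  have hclF : IsAlgClosure F Ω := ⟨inferInstance, inferInstance⟩
  have hNn : Normal F Ω := IsAlgClosure.normal F Ω
  have hst' : ∀ σ (z : M), ∃ w : M, jj w = S σ (jj z) := by
    intro σ z
    let τ : Ω ≃ₐ[F] Ω := (S σ).liftNormal Ω
    have hτ : ∀ w : N, τ (w : Ω) = (S σ w : Ω) := fun w => AlgEquiv.liftNormal_commutes (S σ) Ω w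
    have hτx : (τ.restrictScalars k : Ω ≃ₐ[k] Ω) (u ^ (ℓ ^ j)) = u ^ (ℓ ^ j) := by
      rw [hu]
      exact τ.commutes x
    have hτy : (τ.restrictScalars k : Ω ≃ₐ[k] Ω) (y ^ ℓ) = y ^ ℓ := by
      rw [hy, hx0, aeval_algebraMap_apply]
      exact τ.commutes _
    have h1 : τ (z : Ω) ∈ maxPro ℓ k (curveF k u y) Ω :=
      tower_stable' hm hℓp.pos (τ.restrictScalars k : Ω ≃ₐ[k] Ω) hτx hτy ((hMT _).1 z.2)
    refine ⟨⟨τ (z : Ω), (hMT _).2 h1⟩, ?_⟩
    apply Subtype.ext
    exact hτ (jj z)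
  obtain ⟨s, hs'⟩ := exists_restr jj S hst'
  have hsΩ : ∀ σ (z : M), ((s σ z : M) : Ω) = ((S σ (jj z) : N) : Ω) := by
    intro σ z
    rw [← hs' σ z]
    rfl
  have hconst : ∀ σ c, s σ (algebraMap (algebraicClosure k Ω) M c) =
      algebraMap (algebraicClosure k Ω) M (σ c) := by
    intro σ c
    apply Subtype.ext
    rw [hsΩ]
    exact hcompat σ c _ rfl
  have hbase : ∀ σ (r : F) (w : M), (w : Ω) = algebraMap F Ω r → s σ w = w := by
    intro σ r w hw
    apply Subtype.ext
    rw [hsΩ]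
    have h1 : jj w = algebraMap F N r := Subtype.ext hw
    rw [h1, (S σ).commutes, hw]
    rfl
  have hscont : ∀ z : M, ∃ L : IntermediateField k (algebraicClosure k Ω),
      FiniteDimensional k L ∧ ∀ σ ∈ L.fixingSubgroup, s σ z = z := by
    intro z
    haveI : Algebra.IsAlgebraic F N := inferInstance
    obtain ⟨L, hL, hL'⟩ := cont_fix S hcont (jj z)
    refine ⟨L, hL, fun σ hσ => jj.injective ?_⟩
    rw [hs', hL' σ hσ]
  set Y : M := ⟨Y0, hYM⟩ with hYdef
  have hxm : ((algebraMap R M x' ^ (ℓ ^ j) : M) : Ω) = algebraMap F Ω x := hu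
  have hx'M : ∀ σ, s σ (algebraMap R M x' ^ (ℓ ^ j)) = algebraMap R M x' ^ (ℓ ^ j) :=
    fun σ => hbase σ x _ hxm
  have hX0M : algebraMap R M x' ≠ 0 := by
    intro h
    have h2 : Transcendental (algebraicClosure k Ω) (algebraMap R M x') :=
      (transcendental_algebraMap_iff (algebraMap R M).injective).2 hCov.rat.trans
    apply h2
    rw [h]
    exact isAlgebraic_zero
  have hY0' : Y ≠ 0 := by
    intro h
    have h1 : Y ^ ℓ = 0 := by rw [h, zero_pow hℓp.ne_zero]
    rw [hCov.eqn, Finset.prod_eq_zero_iff] at h1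
    obtain ⟨e, -, he⟩ := h1
    have h2 : Transcendental (algebraicClosure k Ω) (algebraMap R M x') :=
      (transcendental_algebraMap_iff (algebraMap R M).injective).2 hCov.rat.trans
    apply h2
    rw [sub_eq_zero.1 he]
    exact isAlgebraic_algebraMap _
  have hYfix : ∀ σ, s σ (Y ^ ℓ) = Y ^ ℓ := by
    intro σ
    refine hbase σ (algebraMap k F (algebraMap A k f₁.leadingCoeff)⁻¹ *
      aeval x (f.map (algebraMap A k))) _ ?_
    have h1 : ((Y ^ ℓ : M) : Ω) = (δ0 : Ω) ^ ℓ * y ^ ℓ := by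
      change Y0 ^ ℓ = _
      rw [hY0, mul_pow]
    have h2 : (δ0 : Ω) ^ ℓ = algebraMap F Ω (algebraMap k F (algebraMap A k f₁.leadingCoeff)⁻¹) := by
      rw [← IsScalarTower.algebraMap_apply, map_inv₀]
      refine eq_inv_of_mul_eq_one_left ?_
      rw [← hδ0ℓ]
      rfl
    rw [h1, h2, hy, map_mul, hx0, aeval_algebraMap_apply]
  obtain ⟨δ, d, hd0, hd, hδ⟩ := exists_delta (k := k) hℓp.pos s hconst hscont Y hY0' hYfix
  obtain ⟨ρ, b, hb0, hb, hρ⟩ := exists_delta (k := k) hm s hconst hscont _ hX0M hx'M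
  have hSec : Sec2 k (algebraicClosure k Ω) R M x' Y ρ δ s := ⟨hconst, hρ, hδ, hscont⟩
  have h0B : 1 ≤ j → (0 : algebraicClosure k Ω) ∉ B := by
    intro hj h
    have hm2 : 2 ≤ ℓ ^ j := by
      calc 2 ≤ ℓ := hℓp.two_le
        _ = ℓ ^ 1 := (pow_one ℓ).symm
        _ ≤ ℓ ^ j := Nat.pow_le_pow_right hℓp.pos hj
    have hsep := key_sep (k := k) V hVa hVm' f₁ hlc hs
    rw [hf₁, map_expand] at hsep
    apply expand_zero (κ := algebraicClosure k Ω) hm2 _ hsep
    rw [hmemB] at h
    rw [← map_expand, ← hf₁, aeval_map_algebraMap]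
    exact h
  obtain ⟨F0, iF0, r, hr, ⟨D⟩⟩ := a_ndisc A k (algebraicClosure k Ω) V hVa hVm' ℓ hℓ
  obtain ⟨O, hO, hun, hUL, hcases⟩ :=
    dich (A := A) hℓ hVa hVm' hCov hGood hBrot h0B hr D hb0 hd0 hb hd hSec
  have hu0 : u ≠ 0 := by
    intro h
    exact hX0 (h ▸ isAlgebraic_zero)
  obtain ⟨W₀, g, z₀, hW₀V, hW₀, hg1, hg2, hz₀, hgz₀⟩ := hram
  -- the inertia group does not act trivially
  have hnot : ¬ ∀ σ : algebraicClosure k Ω ≃ₐ[k] algebraicClosure k Ω, Ine V σ →
      ∀ z ∈ O, s σ z - z ∈ O.nonunits := by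
    intro ha
    let K0 := IntermediateField.adjoin k {x0}
    have hxK0 : x0 ∈ K0 := IntermediateField.mem_adjoin_simple_self _ _
    have hfixx : ∀ τ : Ω ≃ₐ[K0] Ω, τ x0 = x0 := fun τ =>
      τ.commutes ⟨_, hxK0⟩
    have hfixk : ∀ (τ : Ω ≃ₐ[K0] Ω) (c : k), τ (algebraMap k Ω c) = algebraMap k Ω c := fun τ c =>
      τ.commutes (algebraMap k K0 c)
    have hfixp : ∀ (τ : Ω ≃ₐ[K0] Ω) (p : k[X]), τ (aeval x0 p) =
        aeval x0 p := by
      intro τ p
      have h1 : aeval x0 p ∈ K0 := by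
        have h2 : aeval x0 p =
            ((aeval (⟨x0, hxK0⟩ : K0) p : K0) : Ω) := by
          have h3 := aeval_algebraMap_apply Ω (⟨x0, hxK0⟩ : K0) p
          exact h3
        rw [h2]
        exact SetLike.coe_mem _
      exact τ.commutes ⟨_, h1⟩
    have hstab : ∀ (τ : Ω ≃ₐ[K0] Ω) (z : M), ∃ w : M, algebraMap M Ω w =
        (MonoidHom.id (Ω ≃ₐ[K0] Ω)) τ (algebraMap M Ω z) := by
      intro τ z
      have h1 : τ (z : Ω) ∈ maxPro ℓ k (curveF k u y) Ω := by
        refine tower_stable' hm hℓp.pos (τ.restrictScalars k : Ω ≃ₐ[k] Ω) (z := (z : Ω)) ?_ ?_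
          ((hMT _).1 z.2)
        · rw [hu]
          exact hfixx τ
        · rw [hy]
          exact hfixp τ _
      exact ⟨⟨τ (z : Ω), (hMT _).2 h1⟩, rfl⟩
    obtain ⟨sG, hsG⟩ := exists_restr (algebraMap M Ω) (MonoidHom.id (Ω ≃ₐ[K0] Ω)) hstab
    have hsG' : ∀ (τ : Ω ≃ₐ[K0] Ω) (z : M), ((sG τ z : M) : Ω) = τ (z : Ω) := hsG
    have hnormκ : Normal k (algebraicClosure k Ω) := IsAlgClosure.normal k _
    have hrest : ∀ τ : Ω ≃ₐ[K0] Ω, ∃ (τ₀ : algebraicClosure k Ω ≃ₐ[k] algebraicClosure k Ω)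
        (a : algebraicClosure k Ω), (∀ c : algebraicClosure k Ω, ((τ₀ c : algebraicClosure k Ω) : Ω) =
          τ (c : Ω)) ∧ a ^ (ℓ ^ j) = 1 ∧ τ u = (a : Ω) * u := by
      intro τ
      obtain ⟨a, ha1, ha2⟩ := const_of_pow (κ := algebraicClosure k Ω) (z := τ u / u) hm (a := 1) (by
        rw [div_pow, ← map_pow, hu, hfixx, div_self (hu ▸ pow_ne_zero _ hu0), map_one])
      refine ⟨(τ.restrictScalars k : Ω ≃ₐ[k] Ω).restrictNormal (algebraicClosure k Ω), a,
        fun c => ?_, ha2, ?_⟩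
      · exact AlgEquiv.restrictNormal_commutes (τ.restrictScalars k : Ω ≃ₐ[k] Ω)
          (algebraicClosure k Ω) c
      · have h1 : (a : Ω) = τ u / u := ha1
        rw [h1, div_mul_cancel₀ _ hu0]
    have hsGc : ∀ (τ : Ω ≃ₐ[K0] Ω) (τ₀ : algebraicClosure k Ω ≃ₐ[k] algebraicClosure k Ω),
        (∀ c : algebraicClosure k Ω, ((τ₀ c : algebraicClosure k Ω) : Ω) = τ (c : Ω)) →
        ∀ c, sG τ (algebraMap (algebraicClosure k Ω) M c) =
          algebraMap (algebraicClosure k Ω) M (τ₀ c) := by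
      intro τ τ₀ h c
      apply Subtype.ext
      rw [hsG']
      exact (h c).symm
    have hsGx : ∀ (τ : Ω ≃ₐ[K0] Ω) (a : algebraicClosure k Ω), τ u = (a : Ω) * u →
        sG τ (algebraMap R M x') = algebraMap (algebraicClosure k Ω) M a * algebraMap R M x' := by
      intro τ a h
      apply Subtype.ext
      rw [hsG']
      exact h
    -- the prolongation of `O`
    obtain ⟨W₁, hW₁⟩ := a_extv M Ω O
    have hmem₁ : ∀ z : M, (z : Ω) ∈ W₁ ↔ z ∈ O := by
      intro z
      rw [← hW₁, ValuationSubring.mem_comap]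
      rfl
    have hnon₁ : ∀ z : M, (z : Ω) ∈ W₁.nonunits ↔ z ∈ O.nonunits := by
      intro z
      rw [nonunits_iff, nonunits_iff, hmem₁, ← hmem₁ z⁻¹]
      have h1 : ((z⁻¹ : M) : Ω) = (z : Ω)⁻¹ := rfl
      rw [h1]
      have h2 : (z : Ω) = 0 ↔ z = 0 := by
        rw [← ZeroMemClass.coe_zero M, Subtype.coe_inj]
      rw [h2]
    have hG₁ : GaussA A k x0 W₁ := by
      haveI hstM : IsScalarTower (algebraicClosure k Ω) M Ω :=
        IsScalarTower.of_algebraMap_eq fun c => rfl
      constructor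
      · intro a ha'
        have h1 : algebraMap k Ω (algebraMap A k a) =
            ((algebraMap (algebraicClosure k Ω) M (algebraMap k _ (algebraMap A k a)) : M) : Ω) :=
          rfl
        rw [h1, hnon₁, hO.nonunit]
        exact hVm a ha'
      · intro p hp
        have h1 : aeval x0 (p.map (algebraMap A k)) =
            ((aeval (algebraMap R M x') ((expand A (ℓ ^ j) p).map
              (algebraMap A (algebraicClosure k Ω))) : M) : Ω) := by
          have h2 : ((aeval (algebraMap R M x') ((expand A (ℓ ^ j) p).map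
              (algebraMap A (algebraicClosure k Ω))) : M) : Ω) =
              aeval u ((expand A (ℓ ^ j) p).map (algebraMap A (algebraicClosure k Ω))) :=
            (aeval_algebraMap_apply Ω (algebraMap R M x') _).symm
          have e1 : aeval u ((expand A (ℓ ^ j) p).map (algebraMap A (algebraicClosure k Ω))) =
              aeval u (expand k (ℓ ^ j) (p.map (algebraMap A k))) := by
            rw [← map_expand, IsScalarTower.algebraMap_eq A k (algebraicClosure k Ω), ← map_map,
              aeval_map_algebraMap]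
          rw [h2, e1, expand_aeval, hu]
        have h2 : IsU O (aeval (algebraMap R M x') ((expand A (ℓ ^ j) p).map
            (algebraMap A (algebraicClosure k Ω)))) := by
          refine hO.2 _ (fun n => ?_) ?_
          · rw [coeff_map]
            exact hVa _
          · obtain ⟨n, hn⟩ := hp
            refine ⟨n * ℓ ^ j, ?_⟩
            rw [coeff_map, coeff_expand_mul hm]
            exact hunit _ hn
        rw [h1]
        refine ⟨(hmem₁ _).2 h2.2.1, ?_⟩
        have h4 := (hmem₁ _).2 h2.2.2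
        exact h4
    have hnormΩ : Normal K0 Ω := by
      haveI : Algebra.IsAlgebraic K0 Ω := by
        let i1 : IntermediateField.adjoin k {x} →+* K0 :=
          ((algebraMap F Ω).comp (algebraMap (IntermediateField.adjoin k {x}) F)).codRestrict
            K0.toSubfield (fun r => by
              have h1 : ∀ w ∈ IntermediateField.adjoin k {x},
                  w ∈ K0.toSubfield.comap (algebraMap F Ω) := by
                refine adjoin_le_sub ?_ ?_
                · intro c
                  rw [Subfield.mem_comap, ← IsScalarTower.algebraMap_apply]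
                  exact IntermediateField.algebraMap_mem K0 c
                · intro w hw
                  rw [Subfield.mem_comap, Set.mem_singleton_iff.1 hw]
                  exact hxK0
              exact h1 r r.2)
        letI : Algebra (IntermediateField.adjoin k {x}) K0 := i1.toAlgebra
        haveI : IsScalarTower (IntermediateField.adjoin k {x}) K0 Ω :=
          IsScalarTower.of_algebraMap_eq fun r => rfl
        haveI : Algebra.IsAlgebraic (IntermediateField.adjoin k {x}) Ω :=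
          Algebra.IsAlgebraic.trans (IntermediateField.adjoin k {x}) F Ω
        exact Algebra.IsAlgebraic.tower_top (K := IntermediateField.adjoin k {x}) K0
      haveI : IsAlgClosure K0 Ω := ⟨inferInstance, inferInstance⟩
      exact IsAlgClosure.normal K0 Ω
    obtain ⟨γ, hγ⟩ := a_conj K0 Ω W₁ W₀ (by
      ext z
      rw [ValuationSubring.mem_comap, ValuationSubring.mem_comap]
      exact hG₁.agree hW₀ z.2)
    obtain ⟨γ₀, a, hγ₀, ham, hau⟩ := hrest γ
    have hVγ : ∀ c, γ₀ c ∈ V ↔ c ∈ V := by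
      intro c
      rw [← hW₀V c, hγ, ← hO.1, ← hmem₁]
      have h1 : ((algebraMap (algebraicClosure k Ω) M (γ₀ c) : M) : Ω) = γ (c : Ω) := hγ₀ c
      rw [h1]
    have hW₀M : ∀ z : M, (z : Ω) ∈ W₀ ↔ z ∈ O := by
      intro z
      rw [hγ, ← hsG', hmem₁]
      exact stable2 hO hun (sG γ) (γ₀ : algebraicClosure k Ω ≃+* algebraicClosure k Ω)
        (hsGc γ γ₀ hγ₀) (isU_root hm ham) (hsGx γ a hau) hVγ z
    have hW₀N : ∀ z : M, (z : Ω) ∈ W₀.nonunits ↔ z ∈ O.nonunits := by
      intro z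
      rw [nonunits_iff, nonunits_iff, hW₀M, ← hW₀M z⁻¹]
      have h1 : ((z⁻¹ : M) : Ω) = (z : Ω)⁻¹ := rfl
      rw [h1]
      have h2 : (z : Ω) = 0 ↔ z = 0 := by
        rw [← ZeroMemClass.coe_zero M, Subtype.coe_inj]
      rw [h2]
    -- `g` and the section
    obtain ⟨σ, a', hσ₀, ham', hau'⟩ := hrest g
    have hVnon : ∀ c : algebraicClosure k Ω, (c : Ω) ∈ W₀.nonunits ↔ c ∈ V.nonunits := by
      intro c
      have h1 := hW₀N (algebraMap (algebraicClosure k Ω) M c)
      rw [hO.nonunit] at h1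
      exact h1
    have hσI : Ine V σ := by
      constructor
      · intro c
        rw [← hW₀V, ← hW₀V, hσ₀]
        exact hg1 _
      · intro c hc
        rw [← hVnon]
        have h1 := hg2 _ ((hW₀V c).2 hc)
        have h2 : ((σ c - c : algebraicClosure k Ω) : Ω) = g (c : Ω) - (c : Ω) := by
          rw [← hσ₀]; rfl
        rw [h2]
        exact h1
    have hss : ∀ z, s σ⁻¹ (s σ z) = z := by
      intro z
      have h1 : s σ⁻¹ (s σ z) = s (σ⁻¹ * σ) z := by rw [map_mul]; rfl
      rw [h1, inv_mul_cancel, map_one]; rfl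
    have hss' : ∀ z, s σ (s σ⁻¹ z) = z := by
      intro z
      have h1 : s σ (s σ⁻¹ z) = s (σ * σ⁻¹) z := by rw [map_mul]; rfl
      rw [h1, mul_inv_cancel, map_one]; rfl
    let fφ : M ≃+* M := (sG g : M ≃+* M).trans (s σ⁻¹ : M ≃+* M)
    have hfφ : ∀ z, fφ z = s σ⁻¹ (sG g z) := fun z => rfl
    let φ : M ≃ₐ[algebraicClosure k Ω] M := AlgEquiv.ofRingEquiv (f := fφ) (fun c => by
      rw [hfφ, hsGc g σ hσ₀, hconst]
      congr 1
      exact σ.symm_apply_apply c)
    have hφ : ∀ z, φ z = s σ⁻¹ (sG g z) := fun z => rfl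
    have hrtρ : (σ⁻¹ ρ / ρ) ^ (ℓ ^ j) = 1 := by
      rw [div_pow, ← map_pow, hb, AlgEquiv.commutes, div_self]
      exact (_root_.map_ne_zero (algebraMap k _)).2 hb0
    have stn : ∀ z, s σ⁻¹ z ∈ O.nonunits ↔ z ∈ O.nonunits := by
      refine stable_non (τ := s σ⁻¹) ?_
      exact stable2 hO hun (s σ⁻¹) ((σ⁻¹ : algebraicClosure k Ω ≃ₐ[k] algebraicClosure k Ω) :
        algebraicClosure k Ω ≃+* algebraicClosure k Ω) (hconst σ⁻¹) (isU_root hm hrtρ) (hρ σ⁻¹)
        hσI.1.inv
    have hφ1 : φ = 1 := by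
      refine hUL φ 1 (σ⁻¹ a' * (σ⁻¹ ρ / ρ)) 1 ?_ (one_pow _) ?_ (by rw [map_one, one_mul]; rfl) ?_
      · rw [mul_pow, hrtρ, mul_one, ← map_pow, ham', map_one]
      · rw [hφ, hsGx g a' hau', map_mul, hconst, hρ, map_mul]
        ring
      · intro z hz
        rw [hφ]
        change s σ⁻¹ (sG g z) - z ∈ O.nonunits
        have h1 : s σ⁻¹ (sG g z) - z = s σ⁻¹ ((sG g z - z) - (s σ z - z)) := by
          rw [map_sub, map_sub, map_sub, hss]
          ring
        rw [h1, stn]
        refine non_sub ?_ (ha σ hσI z hz)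
        rw [← hW₀N]
        have h2 := hg2 _ ((hW₀M z).2 hz)
        rw [← hsG'] at h2
        exact h2
    have hgs : ∀ z : M, sG g z = s σ z := by
      intro z
      have h1 : φ z = z := by rw [hφ1]; rfl
      rw [hφ] at h1
      rw [← hss' (sG g z), h1]
    apply hgz₀
    have h1 := hgs ⟨algebraMap F Ω z₀, (hMT _).2 hz₀⟩
    rw [hbase σ z₀ _ rfl] at h1
    have h2 := congrArg (fun w : M => (w : Ω)) h1
    simp only [hsG'] at h2
    exact h2
  rcases hcases with ha | ⟨W, hBr, hfix, hWun⟩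
  · exact (hnot ha).elim
  -- the elements `x` and `f(x)`
  have hstM : IsScalarTower (algebraicClosure k Ω) M Ω :=
    IsScalarTower.of_algebraMap_eq fun c => rfl
  set yM : M := algebraMap (algebraicClosure k Ω) M c0 * Y with hyM
  have hyM0 : yM ≠ 0 := mul_ne_zero ((_root_.map_ne_zero _).2 hc00) hY0'
  have hyMΩ : (yM : Ω) = y := by
    have h1 : (yM : Ω) = (c0 : Ω) * ((c0⁻¹ : algebraicClosure k Ω) * y) := rfl
    have h2 : ((c0⁻¹ : algebraicClosure k Ω) : Ω) = (c0 : Ω)⁻¹ := rfl
    rw [h1, h2, mul_inv_cancel_left₀]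
    intro h
    exact hc00 (Subtype.ext h)
  have hfN : ∀ w : N, algebraMap F N (aeval x (f.map (algebraMap A k))) = w ↔
      (w : Ω) = ((yM ^ ℓ : M) : Ω) := by
    intro w
    have h1 : ((yM ^ ℓ : M) : Ω) = y ^ ℓ := by
      change (yM : Ω) ^ ℓ = _
      rw [hyMΩ]
    have h2 : ((algebraMap F N (aeval x (f.map (algebraMap A k))) : N) : Ω) = y ^ ℓ := by
      rw [hy]
      change algebraMap F Ω (aeval x (f.map (algebraMap A k))) = _
      rw [← aeval_algebraMap_apply]
    rw [h1, ← h2]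
    constructor
    · rintro rfl; rfl
    · intro h; exact Subtype.ext h.symm
  have hfj : algebraMap F N (aeval x (f.map (algebraMap A k))) = jj (yM ^ ℓ) := (hfN _).2 rfl
  have hxj : algebraMap F N x = jj (algebraMap R M x' ^ (ℓ ^ j)) := Subtype.ext hxm.symm
  have hxj' : algebraMap F N x⁻¹ = jj (algebraMap R M x' ^ (ℓ ^ j))⁻¹ := by
    rw [map_inv₀, map_inv₀, hxj]
  have hXm0 : algebraMap R M x' ^ (ℓ ^ j) ≠ 0 := pow_ne_zero _ hX0M
  have hbr : ∀ Q : Place (algebraicClosure k Ω) M, BrP j (algebraMap R M x') B Q ↔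
      (yM ^ ℓ ∈ Q.O.nonunits ∨ 1 ≤ j ∧ (algebraMap R M x' ^ (ℓ ^ j) ∈ Q.O.nonunits ∨
        (algebraMap R M x' ^ (ℓ ^ j))⁻¹ ∈ Q.O.nonunits)) := by
    intro Q
    have hc0' : algebraMap (algebraicClosure k Ω) M c0 ≠ 0 := (_root_.map_ne_zero _).2 hc00
    have hordy : Q.ord (yM ^ ℓ) = ℓ * Q.ord Y := by
      rw [Q.ord_pow, hyM, Q.ord_mul hc0' hY0', Q.ord_const hc00, zero_add]
    have hℓ0 : (0 : ℤ) < ℓ := by exact_mod_cast hℓp.pos
    have hm0 : (0 : ℤ) < ((ℓ ^ j : ℕ) : ℤ) := by exact_mod_cast hm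
    rw [O_non_iff Q (pow_ne_zero _ hyM0), O_non_iff Q hXm0, O_non_iff Q (inv_ne_zero hXm0),
      Q.ord_inv, hordy, Q.ord_pow]
    unfold BrP
    constructor
    · rintro (⟨e, he, h1⟩ | ⟨hj, h1⟩)
      · left
        rw [hCov.ordY Q he h1, mul_one]
        exact hℓ0
      · right
        refine ⟨hj, ?_⟩
        rcases lt_or_gt_of_ne h1 with h2 | h2
        · right
          rw [← mul_neg]
          exact mul_pos hm0 (by omega)
        · left
          exact mul_pos hm0 h2
    · rintro (h1 | ⟨hj, h1⟩)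
      · left
        by_contra hno
        push Not at hno
        have h2 : Q.ord (Y ^ ℓ) ≤ 0 := by
          rw [hCov.eqn]
          have h3 : ∀ T : Finset (algebraicClosure k Ω), T ⊆ B →
              (∏ e ∈ T, (algebraMap R M x' - algebraMap (algebraicClosure k Ω) M e)) ≠ 0 ∧
              Q.ord (∏ e ∈ T, (algebraMap R M x' - algebraMap (algebraicClosure k Ω) M e)) ≤ 0 := by
            intro T
            induction T using Finset.induction_on with
            | empty => intro _; rw [Finset.prod_empty, Q.ord_one]; exact ⟨one_ne_zero, le_rfl⟩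
            | insert e T he ih =>
              intro hT
              have h4 := ih fun z hz => hT (Finset.mem_insert_of_mem hz)
              have h5 : algebraMap R M x' - algebraMap (algebraicClosure k Ω) M e ≠ 0 := by
                intro h
                apply trX hCov
                rw [sub_eq_zero.1 h]
                exact isAlgebraic_algebraMap _
              rw [Finset.prod_insert he, Q.ord_mul h5 h4.1]
              refine ⟨mul_ne_zero h5 h4.1, ?_⟩
              have h6 := hno e (hT (Finset.mem_insert_self _ _))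
              omega
          exact (h3 B (Finset.Subset.refl _)).2
        rw [Q.ord_pow] at h2
        omega
      · right
        refine ⟨hj, fun h2 => ?_⟩
        rw [h2, mul_zero, neg_zero] at h1
        omega
  obtain ⟨W', hW'⟩ := a_extv M Ω W.O
  have hmem : ∀ z : M, (z : Ω) ∈ W' ↔ z ∈ W.O := by
    intro z
    rw [← hW', ValuationSubring.mem_comap]
    rfl
  have hnonW : ∀ z : M, (z : Ω) ∈ W'.nonunits ↔ z ∈ W.O.nonunits := by
    intro z
    rw [← hW', non_incl]
    rfl
  have hmemN : ∀ z : M, jj z ∈ W'.comap (algebraMap N Ω) ↔ z ∈ W.O := hmem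
  have hnonN : ∀ z : M, jj z ∈ (W'.comap (algebraMap N Ω)).nonunits ↔ z ∈ W.O.nonunits := by
    intro z
    rw [non_incl]
    exact hnonW z
  have hjs : ∀ z : N, (z : Ω) ∈ maxPro ℓ k (curveF k u y) Ω → ∃ w : M, jj w = z := fun z hz =>
    ⟨⟨(z : Ω), (hMT _).2 hz⟩, Subtype.ext rfl⟩
  refine ⟨W'.comap (algebraMap N Ω), ⟨?_, ?_, ?_, ?_⟩, ?_⟩
  · intro c
    have h1 : algebraMap F N (algebraMap k F c) =
        jj (algebraMap (algebraicClosure k Ω) M (algebraMap k _ c)) :=
      Subtype.ext (IsScalarTower.algebraMap_apply k F Ω c).symm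
    rw [h1, hmemN, Place.mem_O]
    exact W.reg_const _
  · rw [hfj, hxj, hxj', hnonN, hnonN, hnonN]
    exact (hbr W).1 hBr
  · intro z hz hzW
    obtain ⟨w, hw⟩ := hjs (algebraMap F N z) hz
    rw [← hw, hmemN] at hzW
    obtain ⟨c, hc⟩ := exists_res (algebraMap R M x') hCov.alg W hzW
    refine ⟨c, fun σ hσ => ?_, jj (w - algebraMap (algebraicClosure k Ω) M c), (hnonN _).2 hc, ?_⟩
    · have h2 := non_of_fixes W (s σ) (hfix σ hσ) hc
      have hwz : (w : Ω) = algebraMap F Ω z := congrArg (fun t : N => (t : Ω)) hw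
      rw [map_sub, hconst, hbase σ z _ hwz] at h2
      have h3 := non_sub hc h2
      have h4 : w - algebraMap (algebraicClosure k Ω) M c -
          (w - algebraMap (algebraicClosure k Ω) M (σ c)) =
          algebraMap (algebraicClosure k Ω) M (σ c - c) := by
        rw [map_sub]; ring
      rw [h4] at h3
      exact sub_eq_zero.1 (const_zero W h3)
    · rw [map_sub, hw]
      rfl
  · intro σ hσ z hz
    obtain ⟨w, rfl⟩ := hjs z hz
    rw [← hs', hmemN, hmemN]
    exact O_of_fixes W (s σ) (hfix σ hσ) w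
  · intro U hU1 hU2 hU3 z hz
    obtain ⟨U', hU'⟩ := a_extv N Ω U
    have hmemU : ∀ z : N, (z : Ω) ∈ U' ↔ z ∈ U := by
      intro z
      rw [← hU', ValuationSubring.mem_comap]
      rfl
    have hkU : ∀ c : k, algebraMap k Ω c ∈ U' := by
      intro c
      have h1 : algebraMap k Ω c = ((algebraMap F N (algebraMap k F c) : N) : Ω) :=
        IsScalarTower.algebraMap_apply k F Ω c
      rw [h1, hmemU]
      exact hU1 c
    have hcU : ∀ c : algebraicClosure k Ω, algebraMap (algebraicClosure k Ω) M c ∈ U.comap jj := by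
      intro c
      rw [ValuationSubring.mem_comap, ← hmemU]
      exact Pool.Agent.W620.SC.const_mem hkU c.2
    have hnonU : ∀ z : M, z ∈ (U.comap jj).nonunits ↔ jj z ∈ U.nonunits := non_incl jj U
    have hU2' := hU2
    rw [hfj, hxj, hxj', ← hnonU, ← hnonU, ← hnonU] at hU2'
    have htop : U.comap jj ≠ ⊤ := by
      intro h0
      rw [h0] at hU2'
      have h1 : ∀ w : M, w ≠ 0 → w ∉ (⊤ : ValuationSubring M).nonunits := by
        intro w hw h2
        rw [nonunits_iff] at h2
        rcases h2.2 with h3 | h3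
        · exact hw h3
        · exact h3 trivial
      rcases hU2' with h2 | ⟨-, h2 | h2⟩
      · exact h1 _ (pow_ne_zero _ hyM0) h2
      · exact h1 _ hXm0 h2
      · exact h1 _ (inv_ne_zero hXm0) h2
    obtain ⟨Q, hQ, -⟩ := hCov.loc _ hcU htop
    have hQW : Q = W := by
      refine hWun Q ?_ fun σ hσ => ?_
      · rw [hbr, hQ]
        exact hU2'
      · refine fixes_of_O Q (s σ) (σ : algebraicClosure k Ω ≃+* algebraicClosure k Ω)
          (fun c => hconst σ c) fun z => ?_
        rw [hQ, ValuationSubring.mem_comap, ValuationSubring.mem_comap, hs']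
        exact hU3 σ hσ (jj z) ((hMT _).1 z.2)
    obtain ⟨w, rfl⟩ := hjs z hz
    rw [hmemN, ← hQW, hQ, ValuationSubring.mem_comap]

end main

end Pool.Agent.Helper45.EP
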