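import Pool.Agent.Helper45.EP.GeoD

/-! The local dichotomy at all places above the discrete valuation ring. -/

set_option autoImplicit false
set_option linter.all false

open Polynomial FF

namespace Pool.Agent.Helper45.EP

open Pool.Agent.Y157.PS Pool.Agent.R925.L

section main

variable {A k F Ω : Type} [CommRing A] [IsDomain A] [IsDiscreteValuationRing A]
    [Finite (IsLocalRing.ResidueField A)] [Field k] [CharZero k] [Algebra A k] [IsFractionRing A k]
    [Field F] [Field Ω] [Algebra k F] [Algebra F Ω] [Algebra k Ω] [IsScalarTower k F Ω]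
    [IsAlgClosed Ω] [Algebra.IsAlgebraic F Ω]

theorem GaussA.const_mem {x : Ω} {W : ValuationSubring Ω} (h : GaussA A k x W) (a : A) :
    algebraMap k Ω (algebraMap A k a) ∈ W := by
  by_cases ha : IsUnit a
  · have h1 := (h.2 (C a) ⟨0, by rw [coeff_C_zero]; exact ha⟩).1
    rwa [map_C, aeval_C] at h1
  · exact ValuationSubring.nonunits_subset (h.1 a ((IsLocalRing.mem_maximalIdeal _).2 ha))

theorem geoE {ℓ j : ℕ} [Fact ℓ.Prime] (V : ValuationSubring (algebraicClosure k Ω))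
    (hVA : ∀ a : A, algebraMap k (algebraicClosure k Ω) (algebraMap A k a) ∈ V)
    (hVm : ∀ a ∈ IsLocalRing.maximalIdeal A,
      algebraMap k (algebraicClosure k Ω) (algebraMap A k a) ∈ V.nonunits)
    (hℓ : IsUnit (ℓ : A)) (f : A[X]) (hlc : IsUnit f.leadingCoeff)
    (hs : ((expand A (ℓ ^ j) f).map (IsLocalRing.residue A)).Separable)
    (hdvd : ℓ ∣ (expand A (ℓ ^ j) f).natDegree) (h3 : 3 ≤ (expand A (ℓ ^ j) f).natDegree)
    (x : F) (hx : Transcendental k x)
    (hFx : Algebra.IsAlgebraic (IntermediateField.adjoin k {x}) F)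
    (u y : Ω) (hu : u ^ (ℓ ^ j) = algebraMap F Ω x)
    (hy : y ^ ℓ = aeval (algebraMap F Ω x) (f.map (algebraMap A k)))
    (N : IntermediateField F Ω)
    (hN : ∀ z ∈ maxPro ℓ k (curveF k u y) Ω, z ∈ N)
    (S : (algebraicClosure k Ω ≃ₐ[k] algebraicClosure k Ω) →* (N ≃ₐ[F] N)) (hcont : Continuous S)
    (hcompat : ∀ σ (c : algebraicClosure k Ω) (z : N), (z : Ω) = (c : Ω) →
      (S σ z : Ω) = (σ c : Ω))
    (hram : ∃ (W₀ : ValuationSubring Ω)
      (g : Ω ≃ₐ[IntermediateField.adjoin k {algebraMap F Ω x}] Ω) (z₀ : F),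
      GaussA A k (algebraMap F Ω x) W₀ ∧ (∀ w, g w ∈ W₀ ↔ w ∈ W₀) ∧
      (∀ w ∈ W₀, g w - w ∈ W₀.nonunits) ∧
      algebraMap F Ω z₀ ∈ maxPro ℓ k (curveF k u y) Ω ∧
      g (algebraMap F Ω z₀) ≠ algebraMap F Ω z₀) :
    ∃ W : ValuationSubring N,
      ((∀ c : k, algebraMap F N (algebraMap k F c) ∈ W) ∧
        (algebraMap F N (aeval x (f.map (algebraMap A k))) ∈ W.nonunits ∨
          1 ≤ j ∧ (algebraMap F N x ∈ W.nonunits ∨ algebraMap F N x⁻¹ ∈ W.nonunits)) ∧
        (∀ z : F, algebraMap F Ω z ∈ maxPro ℓ k (curveF k u y) Ω → algebraMap F N z ∈ W →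
          ∃ c : algebraicClosure k Ω,
            (∀ σ : algebraicClosure k Ω ≃ₐ[k] algebraicClosure k Ω, Dec V σ → σ c = c) ∧
            ∃ z' ∈ W.nonunits, (z' : Ω) = algebraMap F Ω z - c) ∧
        ∀ σ : algebraicClosure k Ω ≃ₐ[k] algebraicClosure k Ω, Dec V σ →
          ∀ z : N, (z : Ω) ∈ maxPro ℓ k (curveF k u y) Ω → (S σ z ∈ W ↔ z ∈ W)) ∧
      ∀ W' : ValuationSubring N,
        (∀ c : k, algebraMap F N (algebraMap k F c) ∈ W') →
        (algebraMap F N (aeval x (f.map (algebraMap A k))) ∈ W'.nonunits ∨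
          1 ≤ j ∧ (algebraMap F N x ∈ W'.nonunits ∨ algebraMap F N x⁻¹ ∈ W'.nonunits)) →
        (∀ σ : algebraicClosure k Ω ≃ₐ[k] algebraicClosure k Ω, Dec V σ →
          ∀ z : N, (z : Ω) ∈ maxPro ℓ k (curveF k u y) Ω → (S σ z ∈ W' ↔ z ∈ W')) →
        ∀ z : N, (z : Ω) ∈ maxPro ℓ k (curveF k u y) Ω → (z ∈ W' ↔ z ∈ W) := by
  obtain ⟨W₀, g, z₀, hW₀, hg1, hg2, hz₀, hgz₀⟩ := hram
  have hnorm : Normal k (algebraicClosure k Ω) := IsAlgClosure.normal k _
  have hclF : IsAlgClosure F Ω := ⟨inferInstance, inferInstance⟩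
  have hNn : Normal F Ω := IsAlgClosure.normal F Ω
  have h1 : V.comap (algebraMap k (algebraicClosure k Ω)) =
      (W₀.comap (algebraMap (algebraicClosure k Ω) Ω)).comap
        (algebraMap k (algebraicClosure k Ω)) := by
    ext c
    rw [ValuationSubring.mem_comap, ValuationSubring.mem_comap, ValuationSubring.mem_comap,
      ← IsScalarTower.algebraMap_apply k (algebraicClosure k Ω) Ω]
    by_cases hc : c = 0
    · rw [hc, map_zero, map_zero]
      exact ⟨fun _ => zero_mem _, fun _ => zero_mem _⟩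
    obtain ⟨ϖ, hϖ⟩ := IsDiscreteValuationRing.exists_irreducible A
    obtain ⟨t, n, ht, rfl⟩ := exists_unit_zpow (A := A) hϖ hc
    rw [const_iff hVA hVm hϖ ht n, const_iff hW₀.const_mem hW₀.1 hϖ ht n]
  obtain ⟨τ, hτ⟩ := a_conj k (algebraicClosure k Ω) V
    (W₀.comap (algebraMap (algebraicClosure k Ω) Ω)) h1
  have hτ' : ∀ c : algebraicClosure k Ω, (c : Ω) ∈ W₀ ↔ τ c ∈ V := hτ
  let τN : Ω ≃ₐ[F] Ω := (S τ).liftNormal Ω
  have hτN : ∀ w : N, τN (w : Ω) = (S τ w : Ω) := fun w => AlgEquiv.liftNormal_commutes (S τ) Ω w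
  have hτc : ∀ c : algebraicClosure k Ω, τN (c : Ω) = (τ c : Ω) := by
    intro c
    have hcN : (c : Ω) ∈ N := hN _ ((maxPro ℓ k (curveF k u y) Ω).algebraMap_mem
      ⟨(c : Ω), const_curveF c.2⟩)
    have h2 := hτN ⟨(c : Ω), hcN⟩
    rw [hcompat τ c ⟨(c : Ω), hcN⟩ rfl] at h2
    exact h2
  -- `τN` over `k(x)`
  have hK0 : ∀ r ∈ IntermediateField.adjoin k {algebraMap F Ω x}, τN r = r := by
    intro r hr
    have h2 : r ∈ (IsScalarTower.toAlgHom k F Ω).fieldRange := by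
      have h3 : IntermediateField.adjoin k {algebraMap F Ω x} ≤
          (IsScalarTower.toAlgHom k F Ω).fieldRange := by
        rw [IntermediateField.adjoin_simple_le_iff]
        exact ⟨x, rfl⟩
      exact h3 hr
    obtain ⟨f', hf'⟩ := h2
    rw [← hf']
    exact τN.commutes f'
  let τK : Ω ≃ₐ[IntermediateField.adjoin k {algebraMap F Ω x}] Ω :=
    AlgEquiv.ofRingEquiv (f := (τN : Ω ≃+* Ω)) (fun r => hK0 r r.2)
  have hτK : ∀ z, τK z = τN z := fun z => rfl
  have hτKs : ∀ z, τK.symm (τN z) = z := fun z => τK.symm_apply_apply z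
  have hτKs' : ∀ z, τN (τK.symm z) = z := fun z => τK.apply_symm_apply z
  let g₁ : Ω ≃ₐ[IntermediateField.adjoin k {algebraMap F Ω x}] Ω := (τK.symm.trans g).trans τK
  have hg₁ : ∀ z, g₁ z = τN (g (τK.symm z)) := fun z => rfl
  let W₁ : ValuationSubring Ω := W₀.comap ((τK.symm : Ω ≃+* Ω) : Ω →+* Ω)
  have hW₁ : ∀ z, z ∈ W₁ ↔ τK.symm z ∈ W₀ := fun z => Iff.rfl
  have hW₁n : ∀ z, z ∈ W₁.nonunits ↔ τK.symm z ∈ W₀.nonunits := fun z => non_incl _ _ z
  have hfixk : ∀ c : k, τK.symm (algebraMap k Ω c) = algebraMap k Ω c := fun c =>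
    τK.symm.commutes (algebraMap k (IntermediateField.adjoin k {algebraMap F Ω x}) c)
  have hfixp : ∀ p : k[X], τK.symm (aeval (algebraMap F Ω x) p) = aeval (algebraMap F Ω x) p := by
    intro p
    have h2 : aeval (algebraMap F Ω x) p ∈ IntermediateField.adjoin k {algebraMap F Ω x} := by
      have h3 : aeval (algebraMap F Ω x) p = ((aeval (⟨algebraMap F Ω x,
          IntermediateField.mem_adjoin_simple_self _ _⟩ :
            IntermediateField.adjoin k {algebraMap F Ω x}) p :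
            IntermediateField.adjoin k {algebraMap F Ω x}) : Ω) :=
        aeval_algebraMap_apply Ω (⟨algebraMap F Ω x,
          IntermediateField.mem_adjoin_simple_self _ _⟩ :
            IntermediateField.adjoin k {algebraMap F Ω x}) p
      rw [h3]
      exact SetLike.coe_mem _
    exact τK.symm.commutes ⟨_, h2⟩
  refine geoD V hVA hVm hℓ f hlc hs hdvd h3 x hx hFx u y hu hy N hN S hcont hcompat
    ⟨W₁, g₁, z₀, fun c => ?_, ⟨fun a ha => ?_, fun p hp => ?_⟩, fun w => ?_, fun w hw => ?_, hz₀,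
      fun h => ?_⟩
  · rw [hW₁]
    have h2 : τK.symm (c : Ω) = ((τ.symm c : algebraicClosure k Ω) : Ω) := by
      have h3 : (c : Ω) = τN ((τ.symm c : algebraicClosure k Ω) : Ω) := by
        rw [hτc, τ.apply_symm_apply]
      rw [h3, hτKs]
    rw [h2, hτ', τ.apply_symm_apply]
  · rw [hW₁n, hfixk]
    exact hW₀.1 a ha
  · rw [hW₁, hW₁, map_inv₀, hfixp]
    exact hW₀.2 p hp
  · rw [hW₁, hW₁, hg₁, hτKs, hg1]
  · rw [hW₁n, map_sub, hg₁, hτKs]
    exact hg2 _ ((hW₁ w).1 hw)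
  · apply hgz₀
    have h2 : τK.symm (algebraMap F Ω z₀) = algebraMap F Ω z₀ := by
      have h3 := hτKs (algebraMap F Ω z₀)
      rwa [τN.commutes] at h3
    rw [hg₁, h2] at h
    have h3 := congrArg τK.symm h
    rwa [hτKs, h2] at h3

end main

end Pool.Agent.Helper45.EP
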