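import Pool.Agent.Helper45.EP.GeoP

/-! Sections of twists of curves in the tower of a superelliptic curve: the local theorem. -/

set_option autoImplicit false
set_option linter.all false

open Polynomial FF

namespace Pool.Agent.Helper45.EP

open Pool.Agent.Y157.PS Pool.Agent.R925.L Pool.Agent.Y529.PS.IN Pool.Agent.R925.Q
  Pool.Agent.R925.X Pool.Agent.Y31.PS

section main

variable {A k F Ω : Type} [CommRing A] [IsDomain A] [IsDiscreteValuationRing A]
    [Finite (IsLocalRing.ResidueField A)] [Field k] [CharZero k] [Algebra A k] [IsFractionRing A k]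
    [Field F] [Field Ω] [Algebra k F] [Algebra F Ω] [Algebra k Ω] [IsScalarTower k F Ω]
    [IsAlgClosed Ω] [Algebra.IsAlgebraic F Ω]

theorem geoG {ℓ j : ℕ} [Fact ℓ.Prime] (V : ValuationSubring (algebraicClosure k Ω))
    (hVA : ∀ a : A, algebraMap k (algebraicClosure k Ω) (algebraMap A k a) ∈ V)
    (hVm : ∀ a ∈ IsLocalRing.maximalIdeal A,
      algebraMap k (algebraicClosure k Ω) (algebraMap A k a) ∈ V.nonunits)
    (hℓ : IsUnit (ℓ : A)) (f : A[X]) (hlc : IsUnit f.leadingCoeff)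
    (hs : ((expand A (ℓ ^ j) f).map (IsLocalRing.residue A)).Separable)
    (hdvd : ℓ ∣ (expand A (ℓ ^ j) f).natDegree) (h3 : 3 ≤ (expand A (ℓ ^ j) f).natDegree) (ϖ : A) (hϖ : Irreducible ϖ) (a : k) (n : ℤ) (hn : ¬ (ℓ : ℤ) ∣ n)
    (t0 : A) (ht0 : IsUnit t0) (ha : a = algebraMap A k t0 * algebraMap A k ϖ ^ n)
    {K₀ E : Type} [Field K₀] [Algebra K₀ k] [Field E] [Algebra K₀ E] (i : E →+* F)
    (hi : ∀ b : K₀, i (algebraMap K₀ E b) = algebraMap k F (algebraMap K₀ k b)) (x g : E)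
    (hx : Transcendental k (i x)) (hFx : Algebra.IsAlgebraic (IntermediateField.adjoin k {i x}) F)
    (hgood : ∀ (M : Type) [Field M] [Algebra (algebraicClosure k Ω) M] (i' : E →+* M)
      (O : ValuationSubring M),
      (∀ b : K₀, i' (algebraMap K₀ E b) = algebraMap (algebraicClosure k Ω) M
        (algebraMap k (algebraicClosure k Ω) (algebraMap K₀ k b))) →
      Gauss V (i' x) O → IsU O (i' g) ∧ ∀ γ : M ≃+* M,
        (∀ c, γ (algebraMap (algebraicClosure k Ω) M c) = algebraMap (algebraicClosure k Ω) M c) →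
        γ (i' x) = i' x → (∀ e, i' e ∈ O → γ (i' e) - i' e ∈ O.nonunits) →
          ∀ e, γ (i' e) = i' e)
    (u y : Ω) (t : F) (hu : u ^ (ℓ ^ j) = algebraMap F Ω (i x)) (hy : y ^ ℓ = aeval (algebraMap F Ω (i x)) (f.map (algebraMap A k)))
    (ht : t ^ ℓ = algebraMap k F a * i g)
    (hET : ∀ e : E, algebraMap F Ω (i e) ∈ maxPro ℓ k (curveF k u y) Ω)
    (htT : ∀ t₁ : Ω, t₁ ^ ℓ = algebraMap F Ω (i g) →
      t₁ ∈ maxPro ℓ k (curveF k u y) Ω)
    (N : IntermediateField F Ω)
    (hN : ∀ z ∈ maxPro ℓ k (curveF k u y) Ω, z ∈ N)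
    (S : (algebraicClosure k Ω ≃ₐ[k] algebraicClosure k Ω) →* (N ≃ₐ[F] N)) (hcont : Continuous S)
    (hcompat : ∀ σ (c : algebraicClosure k Ω) (z : N), (z : Ω) = (c : Ω) →
      (S σ z : Ω) = (σ c : Ω)) :
    ∃ (t₁ : Ω) (W : ValuationSubring Ω), t₁ ^ ℓ = algebraMap F Ω (i g) ∧
      (∀ c : k, algebraMap k Ω c ∈ W) ∧ W ≠ ⊤ ∧
      (∀ u ∈ Subfield.closure ((algebraicClosure k Ω : Set Ω) ∪
        Set.range (fun e => algebraMap F Ω (i e))), u ≠ 0 → ¬ IsU W (t₁ / u)) ∧
      ∀ z : E, algebraMap F Ω (i z) ∈ W → ∃ c : algebraicClosure k Ω,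
        algebraMap F Ω (i z) - (c : Ω) ∈ W.nonunits ∧
        ∀ σ : algebraicClosure k Ω ≃ₐ[k] algebraicClosure k Ω, Dec V σ → σ c = c := by
  classical
  have hℓp : ℓ.Prime := Fact.out
  have hm : 0 < ℓ ^ j := pow_pos hℓp.pos j
  have hac : IsAlgClosure k (algebraicClosure k Ω) := inferInstance
  have hkb : IsAlgClosed (algebraicClosure k Ω) := hac.1
  have hch : CharZero (algebraicClosure k Ω) :=
    charZero_of_injective_algebraMap (algebraMap k (algebraicClosure k Ω)).injective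
  letI : Algebra A (algebraicClosure k Ω) :=
    ((algebraMap k (algebraicClosure k Ω)).comp (algebraMap A k)).toAlgebra
  haveI hst : IsScalarTower A k (algebraicClosure k Ω) :=
    IsScalarTower.of_algebraMap_eq (fun _ => rfl)
  have hVa : ∀ a : A, algebraMap A (algebraicClosure k Ω) a ∈ V := hVA
  have hVm' : ∀ a ∈ IsLocalRing.maximalIdeal A, algebraMap A (algebraicClosure k Ω) a ∈
    V.nonunits := hVm
  have hunit : ∀ b : A, IsUnit b → IsU V (algebraMap A (algebraicClosure k Ω) b) :=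
    fun b hb => isU_of_unit hVa hb
  have hAk : Function.Injective (algebraMap A k) := IsFractionRing.injective A k
  have hAinj : Function.Injective (algebraMap A (algebraicClosure k Ω)) := by
    rw [IsScalarTower.algebraMap_eq A k (algebraicClosure k Ω)]
    exact (algebraMap k (algebraicClosure k Ω)).injective.comp hAk
  -- the element `α`
  obtain ⟨α, hα⟩ : ∃ α : algebraicClosure k Ω, α ^ ℓ = algebraMap k (algebraicClosure k Ω) a :=
    IsAlgClosed.exists_pow_nat_eq _ hℓp.pos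
  have hBase : Base ℓ A k (algebraicClosure k Ω) V ϖ α n := by
    refine ⟨hℓ, hVa, hVm', hϖ, hn, ⟨_, hα⟩, ?_⟩
    have h2 : algebraMap A (algebraicClosure k Ω) ϖ ≠ 0 := by
      rw [Ne, map_eq_zero_iff _ hAinj]
      exact hϖ.ne_zero
    have h1 : α ^ ℓ / algebraMap A (algebraicClosure k Ω) ϖ ^ n =
        algebraMap A (algebraicClosure k Ω) t0 := by
      rw [hα, ha, map_mul, map_zpow₀, ← IsScalarTower.algebraMap_apply,
        ← IsScalarTower.algebraMap_apply, mul_div_cancel_right₀ _ (zpow_ne_zero _ h2)]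
    rw [h1]
    exact hunit t0 ht0
  have hα0 : α ≠ 0 := hBase.δ0
  -- the roots
  have hfe : ∀ {K : Type} [Field K] [Algebra A K] (z : K), aeval z (expand A (ℓ ^ j) f) =
      aeval (z ^ (ℓ ^ j)) f := fun z => expand_aeval _ f z
  have hlce : (expand A (ℓ ^ j) f).leadingCoeff = f.leadingCoeff := leadingCoeff_expand hm
  obtain ⟨f₁, hf₁⟩ : ∃ f₁ : A[X], f₁ = expand A (ℓ ^ j) f := ⟨_, rfl⟩
  have hlc₀ := hlc
  rw [← hf₁] at hs hdvd h3 hlce
  rw [← hlce] at hlc
  simp only [← hf₁] at hfe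
  obtain ⟨hnd, hdist⟩ := Pool.Agent.W623.SecC.roots_distinct V hVa hVm' f₁ hlc hs
  set P := f₁.map (algebraMap A (algebraicClosure k Ω)) with hP
  have hlc0 : algebraMap A (algebraicClosure k Ω) f₁.leadingCoeff ≠ 0 := (hunit _ hlc).1
  have hP0 : P ≠ 0 := by
    intro h
    apply hlc0
    rw [← leadingCoeff_map_of_leadingCoeff_ne_zero _ hlc0, ← hP, h, leadingCoeff_zero]
  have hPdeg : P.natDegree = f₁.natDegree := natDegree_map_of_leadingCoeff_ne_zero _ hlc0
  set B : Finset (algebraicClosure k Ω) := P.roots.toFinset with hBdef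
  have hmemB : ∀ θ, θ ∈ B ↔ aeval θ f₁ = 0 := by
    intro θ
    rw [hBdef, Multiset.mem_toFinset, mem_roots hP0, IsRoot.def, hP, eval_map]
    rfl
  have hcard : B.card = f₁.natDegree := by
    rw [hBdef, Multiset.toFinset_card_of_nodup hnd, ← hPdeg]
    exact (IsAlgClosed.splits P).natDegree_eq_card_roots.symm
  have hGood : Good V B := by
    constructor
    · intro e he
      exact Pool.Agent.W308.SecC.root_mem V hVa f₁ hlc _ ((hmemB _).1 he)
    · intro e he e' he' hne
      exact hdist e (Multiset.mem_toFinset.1 he) e' (Multiset.mem_toFinset.1 he') hne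
  -- the product formula
  have hPx : ∀ z : Ω, P.eval₂ (algebraMap (algebraicClosure k Ω) Ω) z =
      algebraMap (algebraicClosure k Ω) Ω (algebraMap A (algebraicClosure k Ω) f₁.leadingCoeff) *
        ∏ e ∈ B, (z - algebraMap (algebraicClosure k Ω) Ω e) := by
    intro z
    have h1 := (IsAlgClosed.splits P).eq_prod_roots
    have h5 : P.leadingCoeff = algebraMap A (algebraicClosure k Ω) f₁.leadingCoeff :=
      leadingCoeff_map_of_leadingCoeff_ne_zero _ hlc0
    rw [h5] at h1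
    have h6 : ∏ e ∈ B, (z - algebraMap (algebraicClosure k Ω) Ω e) =
        (P.roots.map fun e => z - algebraMap (algebraicClosure k Ω) Ω e).prod := by
      rw [hBdef, Finset.prod, Multiset.toFinset_val, Multiset.dedup_eq_self.2 hnd]
    rw [h6]
    conv_lhs => rw [h1]
    rw [eval₂_mul, eval₂_C, ← coe_eval₂RingHom, map_multiset_prod, Multiset.map_map]
    congr 2
    refine Multiset.map_congr rfl fun a _ => ?_
    simp
  have hBrot : ∀ ζ : algebraicClosure k Ω, ζ ^ (ℓ ^ j) = 1 → ∀ e ∈ B, ζ * e ∈ B := by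
    intro ζ hζ e he
    rw [hmemB, hfe] at he ⊢
    rw [mul_pow, hζ, one_mul, he]
  set x0 : Ω := algebraMap F Ω (i x) with hx0
  have hfx : aeval x0 (f.map (algebraMap A k)) =
      P.eval₂ (algebraMap (algebraicClosure k Ω) Ω) u := by
    have e1 : P.eval₂ (algebraMap (algebraicClosure k Ω) Ω) u =
        ((expand k (ℓ ^ j)) (f.map (algebraMap A k))).eval₂ (algebraMap k Ω) u := by
      rw [hP, eval₂_map, hf₁, ← map_expand, eval₂_map,
        IsScalarTower.algebraMap_eq A k (algebraicClosure k Ω), ← RingHom.comp_assoc,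
        ← IsScalarTower.algebraMap_eq k (algebraicClosure k Ω) Ω]
    rw [e1, ← aeval_def, expand_aeval, hu]
  -- normalisation of `y`
  obtain ⟨c0, hc0⟩ : ∃ c0 : algebraicClosure k Ω, c0 ^ ℓ =
      algebraMap A (algebraicClosure k Ω) f₁.leadingCoeff :=
    IsAlgClosed.exists_pow_nat_eq _ hℓp.pos
  have hc00 : c0 ≠ 0 := by
    rintro rfl
    rw [zero_pow hℓp.ne_zero] at hc0
    exact hlc0 hc0.symm
  set δ0 : algebraicClosure k Ω := c0⁻¹ with hδ0def
  have hδ00 : δ0 ≠ 0 := inv_ne_zero hc00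
  have hδ0ℓ : (δ0 : Ω) ^ ℓ * algebraMap (algebraicClosure k Ω) Ω
      (algebraMap A (algebraicClosure k Ω) f₁.leadingCoeff) = 1 := by
    rw [← hc0]
    have h1 : (c0⁻¹ : algebraicClosure k Ω) ^ ℓ * c0 ^ ℓ = 1 := by
      rw [← mul_pow, inv_mul_cancel₀ hc00, one_pow]
    have h2 := congrArg (algebraMap (algebraicClosure k Ω) Ω) h1
    rw [map_mul, map_pow, map_one] at h2
    exact h2
  set Y0 : Ω := (δ0 : Ω) * y with hY0
  have hY : Y0 ^ ℓ = ∏ e ∈ B, (u - algebraMap (algebraicClosure k Ω) Ω e) := by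
    rw [hY0, mul_pow, hy, hfx, hPx, ← mul_assoc, hδ0ℓ, one_mul]
  -- the covering field
  have hX0 : Transcendental k u := by
    have h1 : Transcendental k x0 :=
      (transcendental_algebraMap_iff (R := k) (algebraMap F Ω).injective (a := i x)).2 hx
    intro h
    apply h1
    rw [← hu]
    exact h.pow _
  have hrat := ratF_adj (trans_up hX0)
  let R := IntermediateField.adjoin (algebraicClosure k Ω) {u}
  have hclR : IsAlgClosure R Ω := by
    refine ⟨inferInstance, ?_⟩
    have hmem : ∀ r ∈ IntermediateField.adjoin k {i x}, algebraMap F Ω r ∈ R := by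
      intro r hr
      have h1 : ∀ w ∈ IntermediateField.adjoin k {i x},
          w ∈ R.toSubfield.comap (algebraMap F Ω) := by
        refine adjoin_le_sub ?_ ?_
        · intro c
          rw [Subfield.mem_comap, ← IsScalarTower.algebraMap_apply]
          exact IntermediateField.algebraMap_mem R (algebraMap k (algebraicClosure k Ω) c)
        · intro w hw
          rw [Subfield.mem_comap, Set.mem_singleton_iff.1 hw, ← hx0, ← hu]
          exact pow_mem (IntermediateField.mem_adjoin_simple_self _ _) _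
      exact h1 r hr
    let i1 : IntermediateField.adjoin k {i x} →+* R :=
      ((algebraMap F Ω).comp (algebraMap (IntermediateField.adjoin k {i x}) F)).codRestrict
        R.toSubfield (fun r => hmem r r.2)
    letI : Algebra (IntermediateField.adjoin k {i x}) R := i1.toAlgebra
    haveI : IsScalarTower (IntermediateField.adjoin k {i x}) R Ω :=
      IsScalarTower.of_algebraMap_eq fun r => rfl
    haveI : Algebra.IsAlgebraic (IntermediateField.adjoin k {i x}) Ω :=
      Algebra.IsAlgebraic.trans (IntermediateField.adjoin k {i x}) F Ω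
    exact Algebra.IsAlgebraic.tower_top (K := IntermediateField.adjoin k {i x}) R
  let x' : R := ⟨u, IntermediateField.mem_adjoin_simple_self _ _⟩
  obtain ⟨M, hM⟩ : ∃ M : IntermediateField R Ω,
      ∀ z, z ∈ M ↔ z ∈ maxPro ℓ (algebraicClosure k Ω) (IntermediateField.adjoin R {Y0}) Ω :=
    ⟨(maxPro ℓ (algebraicClosure k Ω) (IntermediateField.adjoin R {Y0}) Ω).restrictScalars R,
      fun z => Iff.rfl⟩
  have hYM : Y0 ∈ M := by
    rw [hM]
    exact (maxPro ℓ (algebraicClosure k Ω) (IntermediateField.adjoin R {Y0}) Ω).algebraMap_mem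
      ⟨Y0, IntermediateField.mem_adjoin_simple_self _ _⟩
  have hCov : Cov ℓ (algebraicClosure k Ω) R M x' B ⟨Y0, hYM⟩ :=
    a_cov ℓ (algebraicClosure k Ω) R Ω x' hrat B (by rw [hcard]; exact hdvd)
      (by rw [hcard]; exact h3) Y0 hY M hM ⟨Y0, hYM⟩ rfl
  have hMT : ∀ z, z ∈ M ↔ z ∈ maxPro ℓ k (curveF k u y) Ω := fun z =>
    (hM z).trans (maxPro_curveF ℓ u y δ0 hδ00 z)
  have hMN : ∀ z, z ∈ M → z ∈ N := fun z hz => hN z ((hMT z).1 hz)
  -- the section on `M`
  let jj : M →+* N := (algebraMap M Ω).codRestrict N.toSubfield (fun z => hMN z z.2)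
  have hjj : ∀ z : M, ((jj z : N) : Ω) = (z : Ω) := fun z => rfl
  have hclF : IsAlgClosure F Ω := ⟨inferInstance, inferInstance⟩
  have hNn : Normal F Ω := IsAlgClosure.normal F Ω
  have hst' : ∀ σ (z : M), ∃ w : M, jj w = S σ (jj z) := by
    intro σ z
    let τ : Ω ≃ₐ[F] Ω := (S σ).liftNormal Ω
    have hτ : ∀ w : N, τ (w : Ω) = (S σ w : Ω) := fun w => AlgEquiv.liftNormal_commutes (S σ) Ω w
    have hτx : (τ.restrictScalars k : Ω ≃ₐ[k] Ω) (u ^ (ℓ ^ j)) = u ^ (ℓ ^ j) := by
      rw [hu]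
      exact τ.commutes (i x)
    have hτy : (τ.restrictScalars k : Ω ≃ₐ[k] Ω) (y ^ ℓ) = y ^ ℓ := by
      rw [hy, hx0, aeval_algebraMap_apply]
      exact τ.commutes _
    have h1 : τ (z : Ω) ∈ maxPro ℓ k (curveF k u y) Ω :=
      tower_stable' hm hℓp.pos (τ.restrictScalars k : Ω ≃ₐ[k] Ω) hτx hτy ((hMT _).1 z.2)
    refine ⟨⟨τ (z : Ω), (hMT _).2 h1⟩, ?_⟩
    apply Subtype.ext
    exact hτ (jj z)
  obtain ⟨s, hs'⟩ := exists_restr jj S hst'
  have hsΩ : ∀ σ (z : M), ((s σ z : M) : Ω) = ((S σ (jj z) : N) : Ω) := by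
    intro σ z
    rw [← hs' σ z]
    rfl
  have hconst : ∀ σ c, s σ (algebraMap (algebraicClosure k Ω) M c) =
      algebraMap (algebraicClosure k Ω) M (σ c) := by
    intro σ c
    apply Subtype.ext
    rw [hsΩ]
    exact hcompat σ c _ rfl
  have hbase : ∀ σ (r : F) (w : M), (w : Ω) = algebraMap F Ω r → s σ w = w := by
    intro σ r w hw
    apply Subtype.ext
    rw [hsΩ]
    have h1 : jj w = algebraMap F N r := Subtype.ext hw
    rw [h1, (S σ).commutes, hw]
    rfl
  have hscont : ∀ z : M, ∃ L : IntermediateField k (algebraicClosure k Ω),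
      FiniteDimensional k L ∧ ∀ σ ∈ L.fixingSubgroup, s σ z = z := by
    intro z
    haveI : Algebra.IsAlgebraic F N := inferInstance
    obtain ⟨L, hL, hL'⟩ := cont_fix S hcont (jj z)
    refine ⟨L, hL, fun σ hσ => jj.injective ?_⟩
    rw [hs', hL' σ hσ]
  set Y : M := ⟨Y0, hYM⟩ with hYdef
  have hxm : ((algebraMap R M x' ^ (ℓ ^ j) : M) : Ω) = algebraMap F Ω (i x) := hu
  have hx'M : ∀ σ, s σ (algebraMap R M x' ^ (ℓ ^ j)) = algebraMap R M x' ^ (ℓ ^ j) :=
    fun σ => hbase σ (i x) _ hxm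
  have hX0M : algebraMap R M x' ≠ 0 := by
    intro h
    have h2 : Transcendental (algebraicClosure k Ω) (algebraMap R M x') :=
      (transcendental_algebraMap_iff (algebraMap R M).injective).2 hCov.rat.trans
    apply h2
    rw [h]
    exact isAlgebraic_zero
  have hY0' : Y ≠ 0 := by
    intro h
    have h1 : Y ^ ℓ = 0 := by rw [h, zero_pow hℓp.ne_zero]
    rw [hCov.eqn, Finset.prod_eq_zero_iff] at h1
    obtain ⟨e, -, he⟩ := h1
    have h2 : Transcendental (algebraicClosure k Ω) (algebraMap R M x') :=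
      (transcendental_algebraMap_iff (algebraMap R M).injective).2 hCov.rat.trans
    apply h2
    rw [sub_eq_zero.1 he]
    exact isAlgebraic_algebraMap _
  have hYfix : ∀ σ, s σ (Y ^ ℓ) = Y ^ ℓ := by
    intro σ
    refine hbase σ (algebraMap k F (algebraMap A k f₁.leadingCoeff)⁻¹ *
      aeval (i x) (f.map (algebraMap A k))) _ ?_
    have h1 : ((Y ^ ℓ : M) : Ω) = (δ0 : Ω) ^ ℓ * y ^ ℓ := by
      change Y0 ^ ℓ = _
      rw [hY0, mul_pow]
    have h2 : (δ0 : Ω) ^ ℓ = algebraMap F Ω (algebraMap k F (algebraMap A k f₁.leadingCoeff)⁻¹) := by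
      rw [← IsScalarTower.algebraMap_apply, map_inv₀]
      refine eq_inv_of_mul_eq_one_left ?_
      rw [← hδ0ℓ]
      rfl
    rw [h1, h2, hy, map_mul, hx0, aeval_algebraMap_apply]
  obtain ⟨δ, d, hd0, hd, hδ⟩ := exists_delta (k := k) hℓp.pos s hconst hscont Y hY0' hYfix
  obtain ⟨ρ, b, hb0, hb, hρ⟩ := exists_delta (k := k) hm s hconst hscont _ hX0M hx'M
  have hSec : Sec2 k (algebraicClosure k Ω) R M x' Y ρ δ s := ⟨hconst, hρ, hδ, hscont⟩
  -- the field `E`
  let i' : E →+* M := ((algebraMap F Ω).comp i).codRestrict M.toSubfield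
    (fun e => (hMT _).2 (hET e))
  have hi' : ∀ e, ((i' e : M) : Ω) = algebraMap F Ω (i e) := fun e => rfl
  have hi'k : ∀ b : K₀, i' (algebraMap K₀ E b) = algebraMap (algebraicClosure k Ω) M
      (algebraMap k (algebraicClosure k Ω) (algebraMap K₀ k b)) := by
    intro b
    apply Subtype.ext
    rw [hi', hi, ← IsScalarTower.algebraMap_apply]
    rfl
  have hi'x : i' x = algebraMap R M x' ^ (ℓ ^ j) := Subtype.ext hxm.symm
  have hgoodM := fun (O : ValuationSubring M) (hO : Gauss V (algebraMap R M x') O) =>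
    hgood M i' O hi'k (by rw [hi'x]; exact Gauss_pow hO hm)
  -- the element `t₁`
  have hα0Ω : (α : Ω) ≠ 0 := fun h => hα0 (Subtype.ext h)
  set t₁ : Ω := algebraMap F Ω t / (α : Ω) with ht₁
  have hαΩ : (α : Ω) ^ ℓ = algebraMap F Ω (algebraMap k F a) := by
    have h7 := congrArg (algebraMap (algebraicClosure k Ω) Ω) hα
    rw [map_pow, ← IsScalarTower.algebraMap_apply] at h7
    rw [← IsScalarTower.algebraMap_apply]
    exact h7
  have ht₁g : t₁ ^ ℓ = algebraMap F Ω (i g) := by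
    rw [ht₁, div_pow, ← map_pow, ht, hαΩ, map_mul, mul_div_cancel_left₀]
    rw [← hαΩ]
    exact pow_ne_zero _ hα0Ω
  let tM : M := ⟨t₁, (hMT _).2 (htT t₁ ht₁g)⟩
  have htMg : tM ^ ℓ = i' g := Subtype.ext ht₁g
  have htM : ∀ σ, s σ tM = algebraMap (algebraicClosure k Ω) M (α / σ α) * tM := by
    intro σ
    have h1 : algebraMap (algebraicClosure k Ω) M α * tM =
        algebraMap (algebraicClosure k Ω) M α * tM := rfl
    have h2 : s σ (algebraMap (algebraicClosure k Ω) M α * tM) =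
        algebraMap (algebraicClosure k Ω) M α * tM := by
      refine hbase σ t _ ?_
      change (α : Ω) * t₁ = _
      rw [ht₁, mul_div_cancel₀ _ hα0Ω]
    rw [map_mul, hconst] at h2
    have h3 : algebraMap (algebraicClosure k Ω) M (σ α) ≠ 0 :=
      (_root_.map_ne_zero _).2 ((_root_.map_ne_zero σ).2 hα0)
    rw [map_div₀, div_mul_eq_mul_div, eq_div_iff h3, mul_comm, h2]
  obtain ⟨F0, iF0, r, hr, ⟨D⟩⟩ := a_ndisc A k (algebraicClosure k Ω) V hVa hVm' ℓ hℓ
  obtain ⟨W, γ, hW, hγE, hγt, hWs⟩ :=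
    loc_twG hBase hCov hGood hBrot hr D hb0 hd0 hb hd
      hSec i' (fun σ e => hbase σ (i e) _ (hi' e))
      (fun O hO γ hγX hγ e => (hgoodM O hO).2 (γ : M ≃+* M) (fun c => γ.commutes c) (by
        obtain ⟨ζ, hζ, hζX⟩ := hγX
        rw [hi'x]
        change γ (algebraMap R M x' ^ (ℓ ^ j)) = _
        rw [map_pow, hζX, mul_pow, ← map_pow, hζ, map_one, one_mul]) hγ e)
      g tM htMg (fun O hO => (hgoodM O hO).1) htM
  obtain ⟨W', hW'⟩ := a_extv M Ω W.O
  have hmem : ∀ z : M, (z : Ω) ∈ W' ↔ z ∈ W.O := by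
    intro z
    rw [← hW', ValuationSubring.mem_comap]
    rfl
  have hnon : ∀ z : M, (z : Ω) ∈ W'.nonunits ↔ z ∈ W.O.nonunits := by
    intro z
    rw [nonunits_iff, nonunits_iff, hmem, ← hmem z⁻¹]
    have h1 : ((z⁻¹ : M) : Ω) = (z : Ω)⁻¹ := rfl
    rw [h1]
    have h2 : (z : Ω) = 0 ↔ z = 0 := by
      rw [← ZeroMemClass.coe_zero M, Subtype.coe_inj]
    rw [h2]
  have hγc : ∀ c : algebraicClosure k Ω, γ (algebraMap (algebraicClosure k Ω) M c) =
      algebraMap (algebraicClosure k Ω) M c := fun c => γ.commutes c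
  refine ⟨t₁, W', ht₁g, ?_, ?_, ?_, ?_⟩
  · intro c
    have h1 := (hmem (algebraMap (algebraicClosure k Ω) M (algebraMap k _ c))).2
      (W.reg_const _)
    exact h1
  · intro h
    apply Place.O_ne_top W
    rw [eq_top_iff]
    intro z _
    rw [← hmem, h]
    trivial
  · intro u hu hu0
    -- the elements of `κ E` are in `M` and fixed by `γ`
    have hT : ∀ w ∈ Subfield.closure ((algebraicClosure k Ω : Set Ω) ∪
        Set.range (fun e => algebraMap F Ω (i e))), ∃ v : M, (v : Ω) = w ∧ γ v = v := by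
      intro w hw
      let T : Subfield Ω := (RingHom.eqLocusField ((γ : M ≃+* M) : M →+* M)
        (RingHom.id M)).map (algebraMap M Ω)
      have h1 : Subfield.closure ((algebraicClosure k Ω : Set Ω) ∪
          Set.range (fun e => algebraMap F Ω (i e))) ≤ T := by
        rw [Subfield.closure_le]
        rintro w (hw | ⟨e, rfl⟩)
        · exact ⟨algebraMap (algebraicClosure k Ω) M ⟨w, hw⟩, hγc _, rfl⟩
        · exact ⟨i' e, hγE e, rfl⟩
      obtain ⟨v, hv, hv'⟩ := h1 hw
      exact ⟨v, hv', hv⟩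
    obtain ⟨v, hv, hγv⟩ := hT u hu
    have hv0 : v ≠ 0 := by
      rintro rfl
      exact hu0 hv.symm
    have h1 := ram_of_fixes (algebraMap R M x') hCov.alg W (γ : M ≃+* M) hγc hW hℓp.pos (t := tM)
      (by
        change γ (tM ^ ℓ) = tM ^ ℓ
        rw [htMg, hγE]) hγt (u := v) hγv hv0
    intro hU
    apply h1
    have h2 : ((tM / v : M) : Ω) = t₁ / u := by rw [← hv]; rfl
    refine ⟨div_ne_zero ?_ hv0, ?_, ?_⟩
    · intro h3
      apply hγt
      rw [h3, map_zero]
    · rw [← hmem, h2]; exact hU.2.1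
    · rw [← hmem]
      have h3 : (((tM / v)⁻¹ : M) : Ω) = (t₁ / u)⁻¹ := by rw [← h2]; rfl
      rw [h3]; exact hU.2.2
  · intro z hz
    have h1 : i' z ∈ W.O := (hmem (i' z)).1 hz
    obtain ⟨c, hc⟩ := exists_res (algebraMap R M x') hCov.alg W h1
    refine ⟨c, ?_, fun σ hσ => ?_⟩
    · have h2 := (hnon _).2 hc
      exact h2
    · have h2 := non_of_fixes W (s σ) (hWs σ hσ) hc
      rw [map_sub, hconst, hbase σ (i z) _ (hi' z)] at h2
      have h3 := non_sub hc h2
      have h4 : i' z - algebraMap (algebraicClosure k Ω) M c -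
          (i' z - algebraMap (algebraicClosure k Ω) M (σ c)) =
          algebraMap (algebraicClosure k Ω) M (σ c - c) := by
        rw [map_sub]; ring
      rw [h4] at h3
      exact sub_eq_zero.1 (const_zero W h3)

end main

end Pool.Agent.Helper45.EP
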