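import Pool.Agent.Helper45.EP.LocG

/-! Residues and ramification at places of `M`; stability of the tower. -/

set_option autoImplicit false
set_option linter.all false

open Polynomial FF

namespace Pool.Agent.Helper45.EP

open Pool.Agent.Y157.PS Pool.Agent.R925.L Pool.Agent.Y529.PS.IN

/-- `O`-units are not nonunits; zero or positive order -/
theorem non_of_res {κ M : Type} [Field κ] [Field M] [Algebra κ M] (W : Place κ M) {z : M}
    (h : z = 0 ∨ 0 < W.ord z) : z ∈ W.O.nonunits := by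
  rcases h with h | h
  · rw [h]; exact nonunits_iff.2 ⟨zero_mem _, Or.inl rfl⟩
  · have h0 : z ≠ 0 := by
      rintro rfl
      rw [W.ord_zero] at h
      exact lt_irrefl _ h
    exact (O_non_iff W h0).2 h

/-- the residue of an element at a place of `M` -/
theorem exists_res {κ M : Type} [Field κ] [IsAlgClosed κ] [Field M] [Algebra κ M] (x : M)
    (hx : Algebra.IsAlgebraic (IntermediateField.adjoin κ {x}) M) (W : Place κ M) {z : M}
    (hz : z ∈ W.O) : ∃ c : κ, z - algebraMap κ M c ∈ W.O.nonunits := by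
  by_cases hz0 : z = 0
  · refine ⟨0, ?_⟩
    rw [hz0, map_zero, sub_zero]
    exact nonunits_iff.2 ⟨zero_mem _, Or.inl rfl⟩
  rw [O_iff W hz0] at hz
  obtain ⟨c, hc⟩ := Pool.Agent.Y536.PS.res_const κ M x hx W _ hz
  exact ⟨c, non_of_res W (hc.imp (fun h => sub_eq_zero.2 h) id)⟩

theorem const_zero {κ M : Type} [Field κ] [Field M] [Algebra κ M] (W : Place κ M) {c : κ}
    (hc : algebraMap κ M c ∈ W.O.nonunits) : c = 0 := by
  by_contra h
  have h1 : algebraMap κ M c ≠ 0 := (_root_.map_ne_zero _).2 h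
  rw [O_non_iff W h1, W.ord_const h] at hc
  exact lt_irrefl _ hc

/-- automorphisms which fix a place preserve its maximal ideal -/
theorem non_of_fixes {κ M : Type} [Field κ] [Field M] [Algebra κ M] (W : Place κ M)
    (τ : M ≃+* M) (h : Fixes W τ) {z : M} (hz : z ∈ W.O.nonunits) : τ z ∈ W.O.nonunits :=
  (stable_non (τ := τ) (O_of_fixes W τ h) z).2 hz

/-- an element `t` which is moved by an automorphism `γ` fixing the place `W` is ramified over the
fixed elements -/
theorem ram_of_fixes {κ M : Type} [Field κ] [IsAlgClosed κ] [Field M] [Algebra κ M] (x : M)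
    (hx : Algebra.IsAlgebraic (IntermediateField.adjoin κ {x}) M) (W : Place κ M) (γ : M ≃+* M)
    (hγc : ∀ c : κ, γ (algebraMap κ M c) = algebraMap κ M c) (hW : Fixes W γ) {ℓ : ℕ} (hℓ : 0 < ℓ)
    {t : M} (ht : γ (t ^ ℓ) = t ^ ℓ) (hne : γ t ≠ t) {u : M} (hu : γ u = u) (hu0 : u ≠ 0) :
    ¬ IsU W.O (t / u) := by
  intro hU
  have ht0 : t ≠ 0 := by
    rintro rfl
    exact hne (map_zero γ)
  obtain ⟨ζ, hζ, hζ1⟩ := const_of_pow (κ := κ) (z := γ t / t) (a := 1) hℓ (by
    rw [div_pow, ← map_pow, ht, div_self (pow_ne_zero _ ht0), map_one])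
  have hγt : γ t = algebraMap κ M ζ * t := by rw [hζ, div_mul_cancel₀ _ ht0]
  obtain ⟨c, hc⟩ := exists_res x hx W hU.2.1
  have h1 := non_of_fixes W γ hW hc
  rw [map_sub, hγc, map_div₀, hu, hγt] at h1
  have h2 := non_sub h1 hc
  have h3 : algebraMap κ M ζ * t / u - algebraMap κ M c - (t / u - algebraMap κ M c) =
      (t / u) * algebraMap κ M (ζ - 1) := by
    rw [map_sub, map_one]; ring
  rw [h3] at h2
  have h4 := const_zero W (non_of_isU_mul hU h2)
  apply hne
  rw [hγt, sub_eq_zero.1 h4, map_one, one_mul]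


/-- the Gauss valuation ring for `x` is one for `x ^ m` -/
theorem Gauss_pow {κ M : Type} [Field κ] [Field M] [Algebra κ M] {V : ValuationSubring κ} {x : M}
    {O : ValuationSubring M} (h : Gauss V x O) {m : ℕ} (hm : 0 < m) : Gauss V (x ^ m) O := by
  refine ⟨h.1, fun p hp hn => ?_⟩
  have h1 : aeval (x ^ m) p = aeval x (expand κ m p) := (expand_aeval m p x).symm
  rw [h1]
  refine h.2 _ (fun n => ?_) ?_
  · rw [coeff_expand hm]
    split_ifs
    · exact hp _
    · exact zero_mem _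
  · obtain ⟨n, hn⟩ := hn
    refine ⟨n * m, ?_⟩
    rw [coeff_expand_mul hm]
    exact hn

section tower

variable {k : Type} {Ω : Type} [Field k] [Field Ω] [Algebra k Ω]

theorem curveF_stable' {m ℓ : ℕ} (hm : 0 < m) (hℓ : 0 < ℓ) (σ : Ω ≃ₐ[k] Ω) {x y : Ω}
    (hx : σ (x ^ m) = x ^ m)
    (hy : σ (y ^ ℓ) = y ^ ℓ) {z : Ω} (hz : z ∈ curveF k x y) : σ z ∈ curveF k x y := by
  have key : ∀ (n : ℕ) (c : Ω), 0 < n → σ (c ^ n) = c ^ n → c ∈ curveF k x y →
      σ c ∈ curveF k x y := by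
    intro n c hn h hc
    by_cases hy0 : c = 0
    · rw [hy0, map_zero]; exact zero_mem _
    have h2 : (σ c / c) ^ n = 1 := by
      rw [div_pow, ← map_pow, h, div_self (pow_ne_zero _ hy0)]
    have h3 : σ c / c ∈ algebraicClosure k Ω := by
      rw [mem_algebraicClosure_iff']
      refine ⟨X ^ n - 1, monic_X_pow_sub_C 1 hn.ne', ?_⟩
      rw [eval₂_sub, eval₂_pow, eval₂_X, eval₂_one, h2, sub_self]
    have h4 : σ c = σ c / c * c := by rw [div_mul_cancel₀ _ hy0]
    rw [h4]
    exact mul_mem (const_curveF h3) hc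
  have h1 : curveF k x y ≤ (curveF k x y).comap (σ : Ω →ₐ[k] Ω) := by
    conv_lhs => unfold curveF
    rw [IntermediateField.adjoin_le_iff]
    intro c hc
    change σ c ∈ curveF k x y
    rcases hc with hc | hc
    · exact const_curveF ((map_mem_algebraicClosure_iff (σ : Ω →ₐ[k] Ω)).2 hc)
    · rw [Set.mem_insert_iff, Set.mem_singleton_iff] at hc
      rcases hc with rfl | rfl
      · exact key m c hm hx x_curveF
      · exact key ℓ c hℓ hy y_curveF
  exact h1 hz

theorem tower_stable' {m ℓ : ℕ} (hm : 0 < m) (hℓ : 0 < ℓ) (σ : Ω ≃ₐ[k] Ω) {x y : Ω}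
    (hx : σ (x ^ m) = x ^ m)
    (hy : σ (y ^ ℓ) = y ^ ℓ) {z : Ω} (hz : z ∈ maxPro ℓ k (curveF k x y) Ω) :
    σ z ∈ maxPro ℓ k (curveF k x y) Ω := by
  refine maxPro_stable ℓ _ σ (fun z hz => curveF_stable' hm hℓ σ hx hy hz)
    (fun z hz => curveF_stable' hm hℓ σ.symm ?_ ?_ hz) hz
  · rw [AlgEquiv.symm_apply_eq, hx]
  · rw [AlgEquiv.symm_apply_eq, hy]

end tower

end Pool.Agent.Helper45.EP
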