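import Pool.Graph.R_seed8.Y157.PS.All
import Pool.Graph.R_seed8.R925.L.Ram

/-! The local theorem with the element of order `ℓ` given by inertia. -/

set_option autoImplicit false
set_option linter.all false

open Polynomial FF

namespace Pool.Agent.Helper45.EP

open Pool.Agent.Y157.PS Pool.Agent.R925.L

/-- the local theorem: the inertia group acts on the reduction through an element `γ` of order `ℓ`
of `Gal(M/R)`, and the section fixes the place which is fixed by `γ` -/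
theorem loc_gam (ℓ : ℕ) [Fact ℓ.Prime] (A k κ R M : Type) [CommRing A] [IsDomain A]
    [IsDiscreteValuationRing A] [Field k] [Field κ] [Algebra A k] [Algebra k κ] [Algebra A κ]
    [IsScalarTower A k κ] [IsFractionRing A k] [CharZero k] [IsAlgClosure k κ]
    [Finite (IsLocalRing.ResidueField A)] [Field R] [Field M] [Algebra κ R] [Algebra R M]
    [Algebra κ M] [IsScalarTower κ R M] (V : ValuationSubring κ) (ϖ : A) (δ : κ) (m : ℤ)
    (hB : Base ℓ A k κ V ϖ δ m) (x : R) (B : Finset κ) (Y : M) (hC : Cov ℓ κ R M x B Y)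
    (hGood : Good V B) (F : Type) [Field F] (r : V →+* F) (hr : Res V r) (D : Disc ℓ V r)
    (s : (κ ≃ₐ[k] κ) →* RingAut M) (hs : Sec k κ R M x Y δ s) :
    ∃ (O : ValuationSubring M) (τ : κ ≃ₐ[k] κ) (γ : M ≃ₐ[R] M) (W : Place κ M),
      Gauss V (algebraMap R M x) O ∧ Ine V τ ∧ τ δ ≠ δ ∧
      (∀ z ∈ O, γ z - s τ z ∈ O.nonunits) ∧ γ ≠ 1 ∧ Fixes W γ ∧
      (∃ e ∈ B, 0 < W.ord (algebraMap R M x - algebraMap κ M e)) ∧
      ∀ σ : κ ≃ₐ[k] κ, Dec V σ → Fixes W (s σ) := by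
  have hac : IsAlgClosed κ := IsAlgClosure.isAlgClosed k
  have hcz : CharZero κ := charZero_of_injective_algebraMap (algebraMap k κ).injective
  have hp := (Fact.out : ℓ.Prime).pos
  have hℓ : IsU V (ℓ : κ) := hB.isU
  have hδ0 := hB.δ0
  obtain ⟨e0, he0⟩ : B.Nonempty := by
    rw [← Finset.card_pos]
    have := hC.three
    omega
  have hRot := a_gex ℓ κ R M x B Y hC F V r hr hGood D
  obtain ⟨O, -, -, hO, -⟩ := hRot e0 he0
  have hun : ∀ O' : ValuationSubring M, Gauss V (algebraMap R M x) O' → O' = O :=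
    fun O' h => a_gun ℓ κ R M x B Y hC V hRot O' O h hO
  have hYU : IsU O Y := hC.Y_isU hGood hO
  have hY0 : Y ≠ 0 := hYU.1
  have hconst : ∀ (γ : M ≃ₐ[R] M) (c : κ), γ (algebraMap κ M c) = algebraMap κ M c := by
    intro γ c
    rw [IsScalarTower.algebraMap_apply κ R M, γ.commutes]
  have st : ∀ σ : κ ≃ₐ[k] κ, Dec V σ → ∀ z, s σ z ∈ O ↔ z ∈ O := fun σ hσ =>
    hO.stable hun (s σ) (σ : κ ≃+* κ) (hs.const σ) (hs.fixx σ) hσ
  have stn : ∀ σ : κ ≃ₐ[k] κ, Dec V σ → ∀ z, s σ z ∈ O.nonunits ↔ z ∈ O.nonunits := fun σ hσ =>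
    stable_non (st σ hσ)
  have gt : ∀ (γ : M ≃ₐ[R] M) z, γ z ∈ O ↔ z ∈ O := fun γ => hO.stable' hun γ
  have gtn : ∀ (γ : M ≃ₐ[R] M) z, γ z ∈ O.nonunits ↔ z ∈ O.nonunits := fun γ =>
    stable_non (τ := (γ : M ≃+* M)) (gt γ)
  have wgt : ∀ σ : κ ≃ₐ[k] κ, Ine V σ → σ δ = δ → ∀ z ∈ O, s σ z - z ∈ O.nonunits :=
    a_wgt ℓ A k κ R M V ϖ δ m hB x B Y hC hGood F r hr D s hs O hO hun
  have UL : ∀ γ γ' : M ≃ₐ[R] M, (∀ z ∈ O, γ z - γ' z ∈ O.nonunits) → γ = γ' :=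
    unique_lift a_g2 hC hℓ hO hun
  have smul : ∀ (σ σ' : κ ≃ₐ[k] κ) z, s (σ * σ') z = s σ (s σ' z) := by
    intro σ σ' z
    rw [map_mul]; rfl
  have sinv : ∀ (σ : κ ≃ₐ[k] κ) z, s σ⁻¹ (s σ z) = z := by
    intro σ z
    rw [← smul, inv_mul_cancel, map_one]; rfl
  have sinv' : ∀ (σ : κ ≃ₐ[k] κ) z, s σ (s σ⁻¹ z) = z := by
    intro σ z
    rw [← smul, mul_inv_cancel, map_one]; rfl
  have ssymm : ∀ (σ : κ ≃ₐ[k] κ) z, (s σ).symm z = s σ⁻¹ z := by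
    intro σ z
    rw [RingEquiv.symm_apply_eq, sinv']
  obtain ⟨-, τ, hτ, hτδ, hτℓ, hτa⟩ := a_tau ℓ A k κ V ϖ δ m hB
  -- the lift of `s τ`
  obtain ⟨γ, hγ⟩ := exists_lift a_g3 hC hO hun (s τ) (st τ hτ.1) (fun c hc => by
    rw [hs.const, ← map_sub, hO.nonunit]; exact hτ.2 c hc) (hs.fixx τ)
  have hpow : ∀ (n : ℕ), ∀ z ∈ O, (γ ^ n) z - s (τ ^ n) z ∈ O.nonunits := by
    intro n
    induction n with
    | zero =>
      intro z hz
      rw [pow_zero, pow_zero, map_one]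
      change z - z ∈ _
      rw [sub_self]; exact nonunits_iff.2 ⟨zero_mem _, Or.inl rfl⟩
    | succ n ih =>
      intro z hz
      rw [pow_succ, pow_succ, smul]
      change (γ ^ n) (γ z) - _ ∈ _
      have h1 : (γ ^ n) (γ z) - s (τ ^ n) (s τ z) =
          ((γ ^ n) (γ z) - s (τ ^ n) (γ z)) + s (τ ^ n) (γ z - s τ z) := by
        rw [map_sub]; ring
      rw [h1]
      exact non_add (ih _ ((gt γ z).2 hz)) ((stn _ (hτ.pow n).1 _).2 (hγ z hz))
  have hγℓ : γ ^ ℓ = 1 := by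
    apply UL
    intro z hz
    change _ - z ∈ _
    have h1 : (γ ^ ℓ) z - z = ((γ ^ ℓ) z - s (τ ^ ℓ) z) + (s (τ ^ ℓ) z - z) := by ring
    rw [h1]
    exact non_add (hpow ℓ z hz) (wgt _ (hτ.pow ℓ) hτℓ z hz)
  have hζℓ : (τ δ / δ) ^ ℓ = 1 := hB.ratio τ
  have hζ1 : τ δ / δ ≠ 1 := by
    intro h
    rw [div_eq_one_iff_eq hδ0] at h
    exact hτδ h
  have hγY : γ Y = algebraMap κ M (τ δ / δ) * Y := by
    obtain ⟨ζ, hζ, h1⟩ := hC.actY hY0 γ
    have h2 := hγ Y hYU.2.1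
    rw [h1, hs.fixy, ← sub_mul, mul_comm, ← map_sub] at h2
    have h3 := (hO.nonunit).1 (non_of_isU_mul hYU h2)
    rw [h1, root_eq hℓ hp hζ hζℓ h3]
  have hγ1 : γ ≠ 1 := by
    intro h
    rw [h] at hγY
    change Y = _ at hγY
    have h1 : algebraMap κ M (τ δ / δ) = 1 := by
      have h2 : algebraMap κ M (τ δ / δ) * Y = 1 * Y := by rw [← hγY, one_mul]
      exact mul_right_cancel₀ hY0 h2
    apply hζ1
    rw [← map_one (algebraMap κ M)] at h1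
    exact (algebraMap κ M).injective h1
  obtain ⟨W, hW⟩ := a_exf ℓ κ R M x B Y hC γ hγℓ hγ1
  obtain ⟨-, e, he, hWe, hWY⟩ := hC.fixed a_stab W γ hW hγ1
  -- the image of the section fixes `W`
  have hfix : ∀ σ : κ ≃ₐ[k] κ, Dec V σ → Fixes W (s σ) := by
    intro σ hσ
    obtain ⟨η, hη⟩ := conjR hC.rat (s σ) (σ : κ ≃+* κ) (hs.const σ) (hs.fixx σ) γ
    have hη' : ∀ z, s σ (η z) = γ (s σ z) := by
      intro z
      rw [hη, RingEquiv.apply_symm_apply]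
    obtain ⟨a, ha⟩ := hτa (σ⁻¹ * τ * σ) (Ine.conj hσ hτ)
    have hρI : Ine V (τ⁻¹ ^ a * (σ⁻¹ * τ * σ)) := (hτ.inv.pow a).mul (Ine.conj hσ hτ)
    have hηγ : η = γ ^ a := by
      apply UL
      intro z hz
      have h1 : s (σ⁻¹ * τ * σ) z = s σ⁻¹ (s τ (s σ z)) := by rw [smul, smul]
      have h2 : σ⁻¹ * τ * σ = τ ^ a * (τ⁻¹ ^ a * (σ⁻¹ * τ * σ)) := by
        rw [inv_pow, mul_inv_cancel_left]
      have h3 : η z - s (σ⁻¹ * τ * σ) z ∈ O.nonunits := by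
        rw [h1, hη, ssymm, ← map_sub]
        exact (stn _ hσ.inv _).2 (hγ _ ((st σ hσ z).2 hz))
      have h4 : s (σ⁻¹ * τ * σ) z - s (τ ^ a) z ∈ O.nonunits := by
        rw [h2, smul, ← map_sub]
        exact (stn _ (hτ.pow a).1 _).2 (wgt _ hρI ha z hz)
      have h5 := hpow a z hz
      have h6 : η z - (γ ^ a) z = (η z - s (σ⁻¹ * τ * σ) z) +
          ((s (σ⁻¹ * τ * σ) z - s (τ ^ a) z) - ((γ ^ a) z - s (τ ^ a) z)) := by ring
      rw [h6]
      exact non_add h3 (non_sub h4 h5)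
    have hηℓ : η ^ ℓ = 1 := by rw [hηγ, ← pow_mul, mul_comm, pow_mul, hγℓ, one_pow]
    have hη1 : η ≠ 1 := by
      intro h
      apply hγ1
      ext z
      have h1 := hη' (s σ⁻¹ z)
      rw [h, sinv'] at h1
      change s σ (s σ⁻¹ z) = _ at h1
      rw [sinv'] at h1
      exact h1.symm
    let Wσ := Place.comapEquiv W (s σ) (σ : κ ≃+* κ) (hs.const σ)
    have h1 : Wσ = W := by
      refine a_unq ℓ κ R M x B Y hC η hηℓ hη1 Wσ W ?_ ?_
      · intro z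
        change W.ord (s σ (η z)) = W.ord (s σ z)
        rw [hη', hW]
      · rw [hηγ]; exact hW.pow a
    intro z
    change Wσ.ord z = W.ord z
    rw [h1]
  exact ⟨O, τ, γ, W, hO, hτ, hτδ, hγ, hγ1, hW, ⟨e, he, hWe⟩, hfix⟩

end Pool.Agent.Helper45.EP
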