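import Pool.Agent.Helper45.EP.Pre

/-! The local theorem for twists, with rotations. -/

set_option autoImplicit false
set_option linter.all false

open Polynomial FF

namespace Pool.Agent.Helper45.EP

open Pool.Agent.Y157.PS Pool.Agent.Y157.GT Pool.Agent.Y31.PS Pool.Agent.R925.Q Pool.Agent.R925.X
  Pool.Agent.R925.L

section

variable {A k κ : Type} [CommRing A] [IsDomain A]
    [IsDiscreteValuationRing A] [Field k] [Field κ] [Algebra A k] [Algebra k κ] [Algebra A κ]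
    [IsScalarTower A k κ] [IsFractionRing A k] [CharZero k] [IsAlgClosure k κ]
    [Finite (IsLocalRing.ResidueField A)]

/-- the action of inertia on a radical in terms of the action on a root of the uniformiser -/
theorem act_rad {ℓ : ℕ} [Fact ℓ.Prime] {V : ValuationSubring κ} (hl : IsUnit (ℓ : A))
    (hVA : ∀ a : A, algebraMap A κ a ∈ V)
    {ϖ : A} (hϖ : Irreducible ϖ) {j i : ℕ} (hij : i ≤ j) {Θ : κ}
    (hΘ : Θ ^ (ℓ ^ j) = algebraMap A κ ϖ) {ρ : κ} {t : A} (ht : IsUnit t) {β : ℤ}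
    (hρ : ρ ^ (ℓ ^ i) = algebraMap A κ t * algebraMap A κ ϖ ^ β)
    {σ : κ ≃ₐ[k] κ} (hσ : Ine V σ) : σ ρ / ρ = ((σ Θ / Θ) ^ (ℓ ^ (j - i))) ^ β := by
  have hp := (Fact.out : ℓ.Prime).pos
  have hℓU : IsU V (ℓ : κ) := by
    have h1 := isU_of_unit (V := V) hVA hl
    rwa [map_natCast] at h1
  have hinj : Function.Injective (algebraMap A κ) := by
    rw [IsScalarTower.algebraMap_eq A k κ]
    exact (algebraMap k κ).injective.comp (IsFractionRing.injective A k)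
  have hϖ0 : algebraMap A κ ϖ ≠ 0 := by
    intro h
    exact hϖ.ne_zero (hinj (by rw [h, map_zero]))
  have hΘ0 : Θ ≠ 0 := by
    rintro rfl
    rw [zero_pow (pow_pos hp j).ne'] at hΘ
    exact hϖ0 hΘ.symm
  set θ : κ := Θ ^ (ℓ ^ (j - i)) with hθ
  have hθ0 : θ ≠ 0 := pow_ne_zero _ hΘ0
  have hθi : θ ^ (ℓ ^ i) = algebraMap A κ ϖ := by
    rw [hθ, ← pow_mul, ← pow_add, Nat.sub_add_cancel hij, hΘ]
  have hmi : 0 < ℓ ^ i := pow_pos hp i
  have hpow : (ρ / θ ^ β) ^ (ℓ ^ i) = algebraMap A κ t := by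
    rw [div_pow, ← zpow_natCast (θ ^ β), ← zpow_mul, mul_comm β, zpow_mul, zpow_natCast, hθi, hρ,
      mul_div_cancel_right₀ _ (zpow_ne_zero _ hϖ0)]
  have h1 := ine_rad hmi (isU_natpow hℓU i) hσ hθ0
    (isU_of_pow hmi (by rw [hpow]; exact isU_of_unit hVA ht))
    ⟨algebraMap A k t, by rw [hpow, IsScalarTower.algebraMap_apply A k κ]⟩
  rw [h1, hθ, map_pow, div_pow]

variable {R M : Type} [Field R] [Field M] [Algebra κ R]
    [Algebra R M] [Algebra κ M] [IsScalarTower κ R M]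

/-- **the local theorem for twists**: `E ⊆ M` is fixed by the section, `t ^ ℓ = g ∈ E`, and the section
acts on `t` through the radical `α` of valuation prime to `ℓ`; then the section fixes a place at
which `t` is ramified over `κ E` -/
theorem loc_twG {ℓ j : ℕ} [Fact ℓ.Prime] {V : ValuationSubring κ} {ϖ : A} {α ρ δ : κ} {n : ℤ}
    (hα : Base ℓ A k κ V ϖ α n) {x : R} {B : Finset κ} {Y : M} (hC : Cov ℓ κ R M x B Y)
    (hG : Good V B) (hB : ∀ ζ : κ, ζ ^ (ℓ ^ j) = 1 → ∀ e ∈ B, ζ * e ∈ B)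
    {F : Type} [Field F] {r : V →+* F} (hr : Res V r) (D : Disc ℓ V r)
    {b d : k} (hb0 : b ≠ 0) (hd0 : d ≠ 0) (hρ : ρ ^ (ℓ ^ j) = algebraMap k κ b)
    (hδ : δ ^ ℓ = algebraMap k κ d)
    {s : (κ ≃ₐ[k] κ) →* RingAut M} (hs : Sec2 k κ R M x Y ρ δ s)
    {E : Type} [Field E] (i : E →+* M) (hsE : ∀ σ e, s σ (i e) = i e)
    (hE : ∀ O : ValuationSubring M, Gauss V (algebraMap R M x) O → ∀ γ : M ≃ₐ[κ] M,
      (∃ ζ : κ, ζ ^ (ℓ ^ j) = 1 ∧ γ (algebraMap R M x) = algebraMap κ M ζ * algebraMap R M x) →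
      (∀ e, i e ∈ O → γ (i e) - i e ∈ O.nonunits) → ∀ e, γ (i e) = i e)
    (g : E) (t : M) (htg : t ^ ℓ = i g)
    (hg : ∀ O : ValuationSubring M, Gauss V (algebraMap R M x) O → IsU O (i g))
    (ht : ∀ σ, s σ t = algebraMap κ M (α / σ α) * t) :
    ∃ (W : Place κ M) (γ : M ≃ₐ[κ] M), Fixes W γ ∧ (∀ e, γ (i e) = i e) ∧ γ t ≠ t ∧
      ∀ σ : κ ≃ₐ[k] κ, Dec V σ → Fixes W (s σ) := by
  have hac : IsAlgClosed κ := IsAlgClosure.isAlgClosed k
  have hcz : CharZero κ := charZero_of_injective_algebraMap (algebraMap k κ).injective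
  have hp := (Fact.out : ℓ.Prime).pos
  have hm : 0 < ℓ ^ j := pow_pos hp j
  have hℓU : IsU V (ℓ : κ) := hα.isU
  have hmU : IsU V ((ℓ ^ j : ℕ) : κ) := isU_natpow hℓU j
  have hα0 := hα.δ0
  have hinj : Function.Injective (algebraMap A κ) := by
    rw [IsScalarTower.algebraMap_eq A k κ]
    exact (algebraMap k κ).injective.comp (IsFractionRing.injective A k)
  have hϖ0 : algebraMap A κ ϖ ≠ 0 := by
    intro h
    exact hα.irr.ne_zero (hinj (by rw [h, map_zero]))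
  have hρ0 : ρ ≠ 0 := by
    rintro rfl
    rw [zero_pow hm.ne'] at hρ
    exact (_root_.map_ne_zero (algebraMap k κ)).2 hb0 hρ.symm
  have hδ0 : δ ≠ 0 := by
    rintro rfl
    rw [zero_pow hp.ne'] at hδ
    exact (_root_.map_ne_zero (algebraMap k κ)).2 hd0 hδ.symm
  have hrt : ∀ σ : κ ≃ₐ[k] κ, (σ ρ / ρ) ^ (ℓ ^ j) = 1 := by
    intro σ
    rw [div_pow, ← map_pow, hρ, σ.commutes, div_self]
    exact (_root_.map_ne_zero (algebraMap k κ)).2 hb0
  have hroot : ∀ σ : κ ≃ₐ[k] κ, (α / σ α) ^ ℓ = 1 := by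
    intro σ
    rw [← inv_div, inv_pow, hα.ratio σ, inv_one]
  -- the root of the uniformiser
  obtain ⟨Θ, hΘ⟩ := IsAlgClosed.exists_pow_nat_eq (algebraMap A κ ϖ) (pow_pos hp (j + 1))
  have hΘ0 : Θ ≠ 0 := by
    rintro rfl
    rw [zero_pow (pow_pos hp (j + 1)).ne'] at hΘ
    exact hϖ0 hΘ.symm
  obtain ⟨τ, hτ, hprim, hall⟩ :=
    exists_tame (k := k) hα.lunit hα.mem hα.non hα.irr (by omega) hΘ
  have hmU' : IsU V ((ℓ ^ (j + 1) : ℕ) : κ) := isU_natpow hℓU (j + 1)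
  have hτfix : τ (τ Θ / Θ) = τ Θ / Θ := ine_root (pow_pos hp (j + 1)) hmU' hτ hprim.pow_eq_one
  have hτi : ∀ n : ℕ, (τ ^ n) Θ = (τ Θ / Θ) ^ n * Θ := by
    intro n
    induction n with
    | zero => rw [pow_zero, pow_zero, one_mul]; rfl
    | succ n ih =>
      rw [pow_succ', AlgEquiv.mul_apply, ih, map_mul, map_pow, hτfix, pow_succ, mul_assoc,
        div_mul_cancel₀ _ hΘ0]
  obtain ⟨tb, βb, htb, hbt⟩ := exists_unit_zpow (A := A) (k := k) hα.irr hb0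
  obtain ⟨td, βd, htd, hdt⟩ := exists_unit_zpow (A := A) (k := k) hα.irr hd0
  have hAk : ∀ (t : A) (n : ℤ), algebraMap k κ (algebraMap A k t * algebraMap A k ϖ ^ n) =
      algebraMap A κ t * algebraMap A κ ϖ ^ n := by
    intro t n
    rw [map_mul, map_zpow₀, ← IsScalarTower.algebraMap_apply, ← IsScalarTower.algebraMap_apply]
  have hρ' : ρ ^ (ℓ ^ j) = algebraMap A κ tb * algebraMap A κ ϖ ^ βb := by rw [hρ, hbt, hAk]
  have hδ' : δ ^ (ℓ ^ 1) = algebraMap A κ td * algebraMap A κ ϖ ^ βd := by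
    rw [pow_one, hδ, hdt, hAk]
  have hfixρ : ∀ σ : κ ≃ₐ[k] κ, Ine V σ → σ Θ = Θ → σ ρ = ρ := by
    intro σ hσ h
    have h1 := act_rad hα.lunit hα.mem hα.irr (Nat.le_succ j) hΘ htb hρ' hσ
    rw [h, div_self hΘ0, one_pow, one_zpow, div_eq_one_iff_eq hρ0] at h1
    exact h1
  have hfixδ : ∀ σ : κ ≃ₐ[k] κ, Ine V σ → σ Θ = Θ → σ δ = δ := by
    intro σ hσ h
    have h1 := act_rad hα.lunit hα.mem hα.irr (by omega : 1 ≤ j + 1) hΘ htd hδ' hσ
    rw [h, div_self hΘ0, one_pow, one_zpow, div_eq_one_iff_eq hδ0] at h1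
    exact h1
  -- `τ` moves `α`
  have hτα : τ α ≠ α := by
    intro h
    obtain ⟨a', ha'⟩ := hα.δk
    have ha0 : a' ≠ 0 := by
      rintro rfl
      rw [map_zero] at ha'
      exact pow_ne_zero ℓ hα0 ha'
    obtain ⟨ta, βa, hta, hat⟩ := exists_unit_zpow (A := A) (k := k) hα.irr ha0
    have hα' : α ^ (ℓ ^ 1) = algebraMap A κ ta * algebraMap A κ ϖ ^ βa := by
      rw [pow_one, ha', hat, hAk]
    have hβn : βa = n := by
      have h1 := hα.δv
      rw [pow_one] at hα'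
      rw [hα', mul_div_assoc, ← zpow_sub₀ hϖ0] at h1
      have hU := isU_of_unit hα.mem hta
      have h2 : IsU V (algebraMap A κ ϖ ^ (βa - n)) := by
        have h3 := hU.inv.mul h1
        rwa [inv_mul_cancel_left₀ hU.1] at h3
      have hϖn : algebraMap A κ ϖ ∈ V.nonunits :=
        hα.non _ ((IsLocalRing.mem_maximalIdeal _).2 hα.irr.not_isUnit)
      have hpos : ∀ N : ℕ, 0 < N → ¬ IsU V (algebraMap A κ ϖ ^ N) := by
        intro N hN h3
        exact (isU_of_pow hN h3).not_nonunit hϖn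
      rcases lt_trichotomy βa n with h4 | h4 | h4
      · exfalso
        obtain ⟨N, hN⟩ : ∃ N : ℕ, n - βa = N := ⟨(n - βa).toNat, by omega⟩
        apply hpos N (by omega)
        have h5 := h2.inv
        rw [← zpow_neg, neg_sub, hN, zpow_natCast] at h5
        exact h5
      · exact h4
      · exfalso
        obtain ⟨N, hN⟩ : ∃ N : ℕ, βa - n = N := ⟨(βa - n).toNat, by omega⟩
        apply hpos N (by omega)
        rw [hN, zpow_natCast] at h2
        exact h2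
    have h1 := act_rad hα.lunit hα.mem hα.irr (by omega : 1 ≤ j + 1) hΘ hta hα' hτ
    rw [h, div_self hα0, Nat.add_sub_cancel, hβn] at h1
    have h2 : IsPrimitiveRoot ((τ Θ / Θ) ^ (ℓ ^ j)) ℓ := by
      refine hprim.pow (pow_pos hp (j + 1)) ?_
      rw [pow_succ]
    exact hα.cop ((h2.zpow_eq_one_iff_dvd n).1 h1.symm)
  -- the Gauss valuation
  have hRot := a_gex ℓ κ R M x B Y hC F V r hr hG D
  obtain ⟨e0, he0⟩ : B.Nonempty := by
    rw [← Finset.card_pos]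
    have := hC.three
    omega
  obtain ⟨O, -, -, hO, -⟩ := hRot e0 he0
  have hun : ∀ O' : ValuationSubring M, Gauss V (algebraMap R M x) O' → O' = O :=
    fun O' h => a_gun ℓ κ R M x B Y hC V hRot O' O h hO
  have hinf : ¬ FiniteDimensional R M := inf_of_rot hC fun e he => by
    obtain ⟨-, c, W, -, -, h3, h4, h5⟩ := hRot e he
    exact ⟨c, W, h3, h4, h5⟩
  set X := algebraMap R M x with hX
  have htr : Transcendental κ X := trX hC
  have hX0 : X ≠ 0 := by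
    intro h
    exact htr (h ▸ isAlgebraic_zero)
  have st : ∀ σ : κ ≃ₐ[k] κ, Dec V σ → ∀ z, s σ z ∈ O ↔ z ∈ O := fun σ hσ =>
    stable2 hO hun (s σ) (σ : κ ≃+* κ) (hs.const σ) (isU_root hm (hrt σ)) (hs.fixx σ) hσ
  have stn : ∀ σ : κ ≃ₐ[k] κ, Dec V σ → ∀ z, s σ z ∈ O.nonunits ↔ z ∈ O.nonunits := fun σ hσ =>
    stable_non (st σ hσ)
  have wgt : ∀ σ : κ ≃ₐ[k] κ, Ine V σ → σ Θ = Θ → ∀ z ∈ O, s σ z - z ∈ O.nonunits :=
    fun σ hσ h1 z hz =>
      wgt2 hα.lunit hα.mem hα.non hC hG hr D hρ0 hδ0 hs hO hun hσ (hfixρ σ hσ h1) (hfixδ σ hσ h1) hz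
  have smul : ∀ (σ σ' : κ ≃ₐ[k] κ) z, s (σ * σ') z = s σ (s σ' z) := by
    intro σ σ' z
    rw [map_mul]; rfl
  have sinv : ∀ (σ : κ ≃ₐ[k] κ) z, s σ⁻¹ (s σ z) = z := by
    intro σ z
    rw [← smul, inv_mul_cancel, map_one]; rfl
  have sinv' : ∀ (σ : κ ≃ₐ[k] κ) z, s σ (s σ⁻¹ z) = z := by
    intro σ z
    rw [← smul, mul_inv_cancel, map_one]; rfl
  have htU : IsU O t := by
    refine isU_of_pow hp ?_
    rw [htg]
    exact hg O hO
  set ζ := τ ρ / ρ with hζ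
  have hζm : ζ ^ (ℓ ^ j) = 1 := hrt τ
  have UL : ∀ (γ γ' : M ≃ₐ[κ] M) (a a' : κ), a ^ (ℓ ^ j) = 1 → a' ^ (ℓ ^ j) = 1 →
      γ X = algebraMap κ M a * X → γ' X = algebraMap κ M a' * X →
      (∀ z ∈ O, γ z - γ' z ∈ O.nonunits) → γ = γ' := fun γ γ' a a' h1 h2 h3 h4 h5 =>
    unique_lift2 hC hm hmU hℓU hO hun h1 h2 h3 h4 h5
  -- the lift of `s τ`
  obtain ⟨γ, hγX, hγ⟩ := exists_lift2 hC hm hB hO hun (s τ) (st τ hτ.1) (fun c hc => by
    rw [hs.const, ← map_sub, hO.nonunit]; exact hτ.2 c hc) hζm (hs.fixx τ)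
  have hγn : ∀ n : ℕ, (γ ^ n) X = algebraMap κ M (ζ ^ n) * X := by
    intro n
    induction n with
    | zero => rw [pow_zero, pow_zero, map_one, one_mul]; rfl
    | succ n ih =>
      rw [pow_succ, AlgEquiv.mul_apply, hγX, map_mul, (γ ^ n).commutes, ih, pow_succ, map_mul]
      ring
  have hζn : ∀ n : ℕ, (ζ ^ n) ^ (ℓ ^ j) = 1 := by
    intro n
    rw [← pow_mul, mul_comm, pow_mul, hζm, one_pow]
  have gt : ∀ z, γ z ∈ O ↔ z ∈ O := stable3 hO hun γ hm hζm hγX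
  have hpow : ∀ (n : ℕ), ∀ z ∈ O, (γ ^ n) z - s (τ ^ n) z ∈ O.nonunits := by
    intro n
    induction n with
    | zero =>
      intro z hz
      rw [pow_zero, pow_zero, map_one]
      change z - z ∈ _
      rw [sub_self]; exact nonunits_iff.2 ⟨zero_mem _, Or.inl rfl⟩
    | succ n ih =>
      intro z hz
      rw [pow_succ, pow_succ, smul]
      change (γ ^ n) (γ z) - _ ∈ _
      have h1 : (γ ^ n) (γ z) - s (τ ^ n) (s τ z) =
          ((γ ^ n) (γ z) - s (τ ^ n) (γ z)) + s (τ ^ n) (γ z - s τ z) := by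
        rw [map_sub]; ring
      rw [h1]
      exact non_add (ih _ ((gt z).2 hz)) ((stn _ (hτ.pow n).1 _).2 (hγ z hz))
  have hτN : (τ ^ (ℓ ^ (j + 1))) Θ = Θ := by rw [hτi, hprim.pow_eq_one, one_mul]
  have hζN : ζ ^ (ℓ ^ (j + 1)) = 1 := by rw [pow_succ, pow_mul, hζm, one_pow]
  have hγm : γ ^ (ℓ ^ (j + 1)) = 1 := by
    refine UL _ _ (ζ ^ (ℓ ^ (j + 1))) 1 (hζn _) (one_pow _) (hγn _)
      (by rw [map_one, one_mul]; rfl) ?_
    intro z hz
    change (γ ^ (ℓ ^ (j + 1))) z - z ∈ _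
    have h1 : (γ ^ (ℓ ^ (j + 1))) z - z = ((γ ^ (ℓ ^ (j + 1))) z - s (τ ^ (ℓ ^ (j + 1))) z) +
      (s (τ ^ (ℓ ^ (j + 1))) z - z) := by ring
    rw [h1]
    exact non_add (hpow _ z hz) (wgt _ (hτ.pow _) hτN z hz)
  have hγE : ∀ e, γ (i e) = i e := by
    refine hE O hO γ ⟨ζ, hζm, hγX⟩ fun e he => ?_
    have h1 := hγ (i e) he
    rwa [hsE] at h1
  have hγt : γ t ≠ t := by
    intro hγt
    have h1 := hγ t htU.2.1
    rw [hγt, ht] at h1
    have h2 : t - algebraMap κ M (α / τ α) * t = t * algebraMap κ M (1 - α / τ α) := by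
      rw [map_sub, map_one]; ring
    rw [h2] at h1
    have h3 := hO.nonunit.1 (non_of_isU_mul htU h1)
    have h4 := root_eq hℓU hp (one_pow _) (hroot τ) h3
    rw [eq_comm, div_eq_one_iff_eq ((_root_.map_ne_zero τ).2 hα0)] at h4
    exact hτα h4.symm
  have hγ1 : γ ≠ 1 := by
    intro h
    apply hγt
    rw [h]; rfl
  -- the power of order `ℓ`
  obtain ⟨n', hηne, hηℓ⟩ := exists_ord hγm hγ1
  set η := γ ^ (ℓ ^ n') with hη
  have hηX : η X = algebraMap κ M (ζ ^ (ℓ ^ n')) * X := hγn _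
  have hηs : StR R η := stR_of_rot hC.rat hηX
  obtain ⟨W, hW⟩ := exf3 hC η hηℓ hηne hηs
  -- the image of the section fixes `W`
  have hfix : ∀ σ : κ ≃ₐ[k] κ, Dec V σ → Fixes W (s σ) := by
    intro σ hσ
    obtain ⟨η', hη'⟩ := conjS (s := s) hs.const γ σ
    obtain ⟨a, ha⟩ := hall (σ⁻¹ * τ * σ) (Ine.conj hσ hτ)
    have hρI : Ine V (τ⁻¹ ^ a * (σ⁻¹ * τ * σ)) := (hτ.inv.pow a).mul (Ine.conj hσ hτ)
    have hη'X : η' X = algebraMap κ M (σ⁻¹ ζ) * X := by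
      apply (s σ).injective
      rw [hη', hs.fixx, map_mul, γ.commutes, hγX, map_mul, hs.const, hs.fixx]
      have h1 : σ (σ⁻¹ ζ) = ζ := σ.apply_symm_apply ζ
      rw [h1]
      ring
    have hηγ : η' = γ ^ a := by
      refine UL _ _ (σ⁻¹ ζ) (ζ ^ a) (by rw [← map_pow, hζm, map_one]) (hζn a) hη'X (hγn a) ?_
      intro z hz
      have h1 : s (σ⁻¹ * τ * σ) z = s σ⁻¹ (s τ (s σ z)) := by rw [smul, smul]
      have h2 : σ⁻¹ * τ * σ = τ ^ a * (τ⁻¹ ^ a * (σ⁻¹ * τ * σ)) := by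
        rw [inv_pow, mul_inv_cancel_left]
      have h0' : η' z = s σ⁻¹ (γ (s σ z)) := by
        rw [← hη', sinv]
      have h3 : η' z - s (σ⁻¹ * τ * σ) z ∈ O.nonunits := by
        rw [h1, h0', ← map_sub]
        exact (stn _ hσ.inv _).2 (hγ _ ((st σ hσ z).2 hz))
      have h4 : s (σ⁻¹ * τ * σ) z - s (τ ^ a) z ∈ O.nonunits := by
        rw [h2, smul, ← map_sub]
        exact (stn _ (hτ.pow a).1 _).2 (wgt _ hρI ha z hz)
      have h5 := hpow a z hz
      have h6 : η' z - (γ ^ a) z = (η' z - s (σ⁻¹ * τ * σ) z) +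
          ((s (σ⁻¹ * τ * σ) z - s (τ ^ a) z) - ((γ ^ a) z - s (τ ^ a) z)) := by ring
      rw [h6]
      exact non_add h3 (non_sub h4 h5)
    have hconj : ∀ (i : ℕ) z, s σ ((η' ^ i) z) = (γ ^ i) (s σ z) := by
      intro i
      induction i with
      | zero => intro z; rfl
      | succ i ih =>
        intro z
        rw [pow_succ, AlgEquiv.mul_apply, ih, hη', pow_succ, AlgEquiv.mul_apply]
    have hηa : η' ^ (ℓ ^ n') = η ^ a := by rw [hηγ, hη, ← pow_mul, ← pow_mul, mul_comm]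
    have h1 : (η ^ a) ^ ℓ = 1 := by rw [← pow_mul, mul_comm, pow_mul, hηℓ, one_pow]
    have h2 : η ^ a ≠ 1 := by
      intro h
      apply hηne
      ext z
      have h3 := hconj (ℓ ^ n') (s σ⁻¹ z)
      rw [hηa, h, sinv'] at h3
      rw [← hη] at h3
      rw [← h3]
      change s σ (s σ⁻¹ z) = _
      rw [sinv']; rfl
    have h4 : StR R (η ^ a) := hηs.pow a
    let Wσ := Place.comapEquiv W (s σ) (σ : κ ≃+* κ) (hs.const σ)
    have h5 : Wσ = W := by
      refine unq3 hC hinf h1 h2 h4 (W := Wσ) (W' := W) ?_ (Fixes_pow' hW a)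
      intro z
      change W.ord (s σ ((η ^ a) z)) = W.ord (s σ z)
      rw [← hηa, hconj, ← hη, hW]
    intro z
    change Wσ.ord z = W.ord z
    rw [h5]
  -- `γ` fixes `W`
  have hWγ : Fixes W γ := by
    let Wγ := Place.comapEquiv W (γ : M ≃+* M) (RingEquiv.refl κ) (fun c => γ.commutes c)
    have h5 : Wγ = W := by
      refine unq3 hC hinf hηℓ hηne hηs (W := Wγ) (W' := W) ?_ hW
      intro z
      change W.ord (γ (η z)) = W.ord (γ z)
      have h6 : γ (η z) = η (γ z) := by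
        have h7 : Commute γ η := (Commute.refl γ).pow_right _
        exact DFunLike.congr_fun h7.eq z
      rw [h6, hW]
    intro z
    change Wγ.ord z = W.ord z
    rw [h5]
  exact ⟨W, γ, hWγ, hγE, hγt, hfix⟩

end

end Pool.Agent.Helper45.EP
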