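import Pool.Agent.Helper45.EP.Prep
import Pool.Graph.R_seed8.W417.SecC.D2

/-! Twists in the tower: density. -/

set_option autoImplicit false
set_option linter.all false

open Polynomial FF NumberField IsDedekindDomain

namespace Pool.Agent.Helper45.EP

open Pool.Agent.Y157.PS Pool.Agent.R925.L Pool.Agent.Y529.PS.IN

/-- the lengths of the cycles of `σ` on the roots of `h` -/
def Periods {K : Type} [Field K] (σ : AlgebraicClosure K ≃ₐ[K] AlgebraicClosure K) (h : K[X]) :
    Set ℕ :=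
  {n | ∃ θ : AlgebraicClosure K, aeval θ h = 0 ∧ Function.minimalPeriod σ θ = n}

/-- the cover `t ^ ℓ = g` is in the tower and its branch points are zeros of `h(z)` -/
def InT {K : Type} [Field K] (ℓ j : ℕ) (f : K[X]) {E : Type} [Field E] [Algebra K E] (x g z : E)
    (h : K[X]) : Prop :=
  ∀ (Ω : Type) [Field Ω] [Algebra K Ω] [Algebra E Ω] [IsScalarTower K E Ω] [IsAlgClosure E Ω]
    (u y t : Ω), u ^ (ℓ ^ j) = algebraMap E Ω x → y ^ ℓ = algebraMap E Ω (aeval x f) →
    t ^ ℓ = algebraMap E Ω g →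
    (∀ e : E, algebraMap E Ω e ∈ maxPro ℓ K (curveF K u y) Ω) ∧
    t ∈ maxPro ℓ K (curveF K u y) Ω ∧
    ∀ W : ValuationSubring Ω, (∀ c : K, algebraMap K Ω c ∈ W) → W ≠ ⊤ →
      (∀ w ∈ geomF K E Ω, w ≠ 0 → ¬ IsU W (t / w)) →
      algebraMap E Ω z ∈ W ∧ aeval (algebraMap E Ω z) h ∈ W.nonunits

/-- no sections for the twist over `L` -/
def NoS {K : Type} [Field K] (ℓ j : ℕ) (f : K[X]) {E : Type} [Field E] [Algebra K E] (x g : E)
    (a : K) (L : Type) [Field L] [Algebra K L] : Prop :=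
  ∀ (F Ω : Type) [Field F] [Field Ω] [Algebra L F] [Algebra E F] [Algebra F Ω] [Algebra L Ω]
    [IsScalarTower L F Ω] [IsAlgClosed Ω] [Algebra.IsAlgebraic F Ω] [Algebra.IsAlgebraic E F]
    (t : F) (u y : Ω) (N : IntermediateField F Ω)
    (S : (algebraicClosure L Ω ≃ₐ[L] algebraicClosure L Ω) →* (N ≃ₐ[F] N)),
    (∀ c : K, algebraMap E F (algebraMap K E c) = algebraMap L F (algebraMap K L c)) →
    t ^ ℓ = algebraMap L F (algebraMap K L a) * algebraMap E F g →
    u ^ (ℓ ^ j) = algebraMap F Ω (algebraMap E F x) →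
    y ^ ℓ = algebraMap F Ω (algebraMap E F (aeval x f)) →
    (∀ z ∈ maxPro ℓ L (curveF L u y) Ω, z ∈ N) → Continuous S →
    (∀ σ (c : algebraicClosure L Ω) (z : N), (z : Ω) = (c : Ω) →
      (S σ z : Ω) = (σ c : Ω)) → False

theorem iter_smul {K : Type} [Field K] (σ : AlgebraicClosure K ≃ₐ[K] AlgebraicClosure K) (c : K)
    (θ : AlgebraicClosure K) (n : ℕ) :
    (σ^[n]) (algebraMap K (AlgebraicClosure K) c * θ) =
      algebraMap K (AlgebraicClosure K) c * (σ^[n]) θ := by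
  induction n with
  | zero => rfl
  | succ n ih =>
    rw [Function.iterate_succ_apply', Function.iterate_succ_apply', ih, map_mul, σ.commutes]

theorem main_primes {K : Type} [Field K] [NumberField K] {ℓ j : ℕ} [Fact ℓ.Prime] (f : K[X])
    (hf : (expand K (ℓ ^ j) f).Separable) (hdvd : ℓ ∣ (expand K (ℓ ^ j) f).natDegree)
    (h3 : 3 ≤ (expand K (ℓ ^ j) f).natDegree) {E : Type} [Field E] [Algebra K E] (x g z : E)
    (hx : Transcendental K x) [FiniteDimensional (IntermediateField.adjoin K {x}) E] (hg : g ≠ 0)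
    (h : K[X]) (hh : h ≠ 0) (hT : InT ℓ j f x g z h)
    (σ : AlgebraicClosure K ≃ₐ[K] AlgebraicClosure K) (ε : ℝ) (hε : 0 < ε) :
    ∃ T : Finset (HeightOneSpectrum (𝓞 K)),
      (∀ v ∈ T, ∀ a : 𝓞 K, a ∈ v.asIdeal → a ∉ v.asIdeal ^ 2 →
        ∀ (L : Type) [Field L] [Algebra K L] [FiniteDimensional K L],
          Module.finrank K L ∉ AddSubmonoid.closure (insert ℓ (Periods σ h)) →
          NoS ℓ j f x g (algebraMap (𝓞 K) K a) L) ∧
      ∏ v ∈ T, (1 - (1 / (Ideal.absNorm v.asIdeal : ℝ) -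
        1 / (Ideal.absNorm v.asIdeal : ℝ) ^ 2)) < ε := by
  classical
  have hℓp : ℓ.Prime := Fact.out
  have hm0 : 0 < ℓ ^ j := pow_pos hℓp.pos j
  have hinj : Function.Injective (algebraMap (𝓞 K) K) := IsFractionRing.injective (𝓞 K) K
  have hf0 : f ≠ 0 := by
    rintro rfl
    rw [map_zero] at hf
    exact hf.ne_zero rfl
  -- the polynomial `f`
  obtain ⟨f₀, c₁, hc₁, hf₀, hf₀K, -⟩ := exists_int f hf0
  have hc₁K : algebraMap (𝓞 K) K c₁ ≠ 0 := by
    rw [Ne, map_eq_zero_iff _ hinj]; exact hc₁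
  have hexp : (expand (𝓞 K) (ℓ ^ j) f₀).map (algebraMap (𝓞 K) K) =
      C (algebraMap (𝓞 K) K c₁) * expand K (ℓ ^ j) f := by
    rw [map_expand, hf₀K, map_mul, expand_C]
  have hdegE : (expand (𝓞 K) (ℓ ^ j) f₀).natDegree = (expand K (ℓ ^ j) f).natDegree := by
    rw [← natDegree_map_eq_of_injective hinj, hexp, natDegree_C_mul hc₁K]
  obtain ⟨A1, B1, D, hD, hAB⟩ := Pool.Agent.W723.SecC.sep_int K (expand (𝓞 K) (ℓ ^ j) f₀) (by
    rw [hexp]
    exact Separable.unit_mul (isUnit_C.2 hc₁K.isUnit) hf)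
  -- the polynomial `h`
  obtain ⟨h₀, d, e, hd, he, hh₀, hheq⟩ := exists_monic h hh
  have hdK : algebraMap (𝓞 K) K d ≠ 0 := by
    rw [Ne, map_eq_zero_iff _ hinj]; exact hd
  -- good reduction
  obtain ⟨c₂, hc₂, hgood⟩ := exists_good (K := K) x
  obtain ⟨c₃, hc₃, hgood'⟩ := AlmU.all (K := K) (x := x) (z := g)
    (Algebra.IsAlgebraic.isAlgebraic g) hg
  have hlc0 : f₀.leadingCoeff ≠ 0 := leadingCoeff_ne_zero.2 hf₀
  have hℓ0 : (ℓ : 𝓞 K) ≠ 0 := Nat.cast_ne_zero.2 hℓp.ne_zero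
  obtain ⟨T, hTv, hTε⟩ := primes_supply h₀ hh₀ σ (fun n => ∀ r ∈ Periods σ h, ¬ r ∣ n) (by
    intro n hn θ hθ hfix
    have h1 := hheq (AlgebraicClosure K) (algebraMap K (AlgebraicClosure K)
      (algebraMap (𝓞 K) K d)⁻¹ * θ)
    rw [← mul_assoc, ← map_mul, mul_inv_cancel₀ hdK, map_one, one_mul] at h1
    rw [aeval_def, eval₂_map] at hθ
    rw [hθ] at h1
    have h2 : aeval (algebraMap K (AlgebraicClosure K) (algebraMap (𝓞 K) K d)⁻¹ * θ) h = 0 :=
      (mul_eq_zero.1 h1.symm).resolve_left ((_root_.map_ne_zero _).2 he)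
    refine hn _ ⟨_, h2, rfl⟩ (Function.IsPeriodicPt.minimalPeriod_dvd ?_)
    rw [Function.IsPeriodicPt, Function.IsFixedPt, iter_smul, hfix])
    ((ℓ : 𝓞 K) * f₀.leadingCoeff * D * (c₂ * c₃))
    (mul_ne_zero (mul_ne_zero (mul_ne_zero hℓ0 hlc0) hD) (mul_ne_zero hc₂ hc₃)) ε hε
  refine ⟨T, ?_, hTε⟩
  intro v hv a ha ha' L _ _ _ hdegL F Ω _ _ _ _ _ _ _ _ _ _ t u y N S hi ht hu hy hN hcont hcompat
  obtain ⟨hcv, hQ⟩ := hTv v hv
  have hcv1 : (ℓ : 𝓞 K) ∉ v.asIdeal := fun h => hcv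
    (Ideal.mul_mem_right _ _ (Ideal.mul_mem_right _ _ (Ideal.mul_mem_right _ _ h)))
  have hcv2 : f₀.leadingCoeff ∉ v.asIdeal := fun h => hcv
    (Ideal.mul_mem_right _ _ (Ideal.mul_mem_right _ _ (Ideal.mul_mem_left _ _ h)))
  have hcv3 : D ∉ v.asIdeal := fun h => hcv
    (Ideal.mul_mem_right _ _ (Ideal.mul_mem_left _ _ h))
  have hcv4 : c₂ * c₃ ∉ v.asIdeal := fun h => hcv (Ideal.mul_mem_left _ _ h)
  -- the algebra structures
  letI : Algebra K Ω := ((algebraMap L Ω).comp (algebraMap K L)).toAlgebra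
  haveI : IsScalarTower K L Ω := IsScalarTower.of_algebraMap_eq fun _ => rfl
  letI : Algebra E Ω := ((algebraMap F Ω).comp (algebraMap E F)).toAlgebra
  haveI : IsScalarTower E F Ω := IsScalarTower.of_algebraMap_eq fun _ => rfl
  haveI : IsScalarTower K E Ω := IsScalarTower.of_algebraMap_eq fun c => by
    change algebraMap L Ω (algebraMap K L c) = algebraMap F Ω (algebraMap E F (algebraMap K E c))
    rw [hi, ← IsScalarTower.algebraMap_apply L F Ω]
  haveI hEΩ : Algebra.IsAlgebraic E Ω := Algebra.IsAlgebraic.trans E F Ω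
  haveI hcl : IsAlgClosure E Ω := ⟨inferInstance, inferInstance⟩
  have hKLalg : Algebra.IsAlgebraic K L := inferInstance
  -- scaling `y`
  obtain ⟨c₀, hc₀⟩ : ∃ c₀ : Ω, c₀ ^ ℓ = algebraMap K Ω (algebraMap (𝓞 K) K c₁) :=
    IsAlgClosed.exists_pow_nat_eq _ hℓp.pos
  have hc₀0 : c₀ ≠ 0 := by
    rintro rfl
    rw [zero_pow hℓp.ne_zero] at hc₀
    exact (_root_.map_ne_zero (algebraMap K Ω)).2 hc₁K hc₀.symm
  have hc₀k : c₀ ∈ algebraicClosure L Ω := by
    rw [mem_algebraicClosure_iff']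
    refine ⟨X ^ ℓ - C (algebraMap K L (algebraMap (𝓞 K) K c₁)),
      monic_X_pow_sub_C _ hℓp.ne_zero, ?_⟩
    rw [eval₂_sub, eval₂_pow, eval₂_X, eval₂_C, hc₀, sub_eq_zero]
    rfl
  have hcF : curveF L u (c₀ * y) = curveF L u y := curveF_scale u y c₀ hc₀k hc₀0
  have hTow : ∀ z : Ω, z ∈ maxPro ℓ L (curveF L u (c₀ * y)) Ω ↔
      z ∈ maxPro ℓ K (curveF K u y) Ω := by
    intro z
    rw [hcF]
    exact (tower_base (K := K) (L := L) ℓ u y z).symm
  -- transcendence
  have hxΩ : algebraMap F Ω (algebraMap E F x) = algebraMap E Ω x := rfl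
  have hxL : Transcendental L (algebraMap E F x) := by
    intro hal
    apply hx
    letI : Algebra K F := ((algebraMap L F).comp (algebraMap K L)).toAlgebra
    haveI : IsScalarTower K L F := IsScalarTower.of_algebraMap_eq fun _ => rfl
    haveI : IsScalarTower K E F := IsScalarTower.of_algebraMap_eq fun c => (hi c).symm
    have h1 : IsAlgebraic K (algebraMap E F x) := by
      have h2 : IsIntegral L (algebraMap E F x) := hal.isIntegral
      have hKL : Algebra.IsIntegral K L := Algebra.IsAlgebraic.isIntegral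
      exact (isIntegral_trans (R := K) (A := L) _ h2).isAlgebraic
    exact (isAlgebraic_algebraMap_iff (algebraMap E F).injective).1 h1
  have hFx : Algebra.IsAlgebraic (IntermediateField.adjoin L {algebraMap E F x}) F := by
    have hmem : ∀ r ∈ IntermediateField.adjoin K {x}, algebraMap E F r ∈
        IntermediateField.adjoin L {algebraMap E F x} := by
      intro r hr
      have h1 : ∀ w ∈ IntermediateField.adjoin K {x},
          w ∈ (IntermediateField.adjoin L {algebraMap E F x}).toSubfield.comap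
            (algebraMap E F) := by
        refine adjoin_le_sub ?_ ?_
        · intro c
          rw [Subfield.mem_comap, hi]
          exact IntermediateField.algebraMap_mem _ _
        · intro w hw
          rw [Subfield.mem_comap, Set.mem_singleton_iff.1 hw]
          exact IntermediateField.mem_adjoin_simple_self _ _
      exact h1 r hr
    let i1 : IntermediateField.adjoin K {x} →+* IntermediateField.adjoin L {algebraMap E F x} :=
      ((algebraMap E F).comp (algebraMap (IntermediateField.adjoin K {x}) E)).codRestrict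
        (IntermediateField.adjoin L {algebraMap E F x}).toSubfield (fun r => hmem r r.2)
    letI : Algebra (IntermediateField.adjoin K {x})
      (IntermediateField.adjoin L {algebraMap E F x}) := i1.toAlgebra
    haveI : IsScalarTower (IntermediateField.adjoin K {x}) E F := inferInstance
    haveI : IsScalarTower (IntermediateField.adjoin K {x})
      (IntermediateField.adjoin L {algebraMap E F x}) F :=
      IsScalarTower.of_algebraMap_eq fun r => rfl
    haveI : Algebra.IsAlgebraic (IntermediateField.adjoin K {x}) F :=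
      Algebra.IsAlgebraic.trans (IntermediateField.adjoin K {x}) E F
    exact Algebra.IsAlgebraic.tower_top (K := IntermediateField.adjoin K {x}) _
  have hgeo : ∀ w ∈ geomF K E Ω, w ∈ Subfield.closure ((algebraicClosure L Ω : Set Ω) ∪
      Set.range (fun e => algebraMap F Ω (algebraMap E F e))) := by
    intro w hw
    refine adjoin_le_sub ?_ ?_ w hw
    · intro e
      exact Subfield.subset_closure (Or.inr ⟨e, rfl⟩)
    · intro c hc
      exact Subfield.subset_closure (Or.inl ((algCl_iff (K := K) (L := L) c).1 hc))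
  have hφ : ∀ (r : 𝓞 K), ((algebraMap L Ω).comp ((algebraMap K L).comp (algebraMap (𝓞 K) K))) r =
      ((algebraMap K Ω).comp (algebraMap (𝓞 K) K)) r := fun r => rfl
  have hφ' : ((algebraMap L Ω).comp ((algebraMap K L).comp (algebraMap (𝓞 K) K))) =
      ((algebraMap K Ω).comp (algebraMap (𝓞 K) K)) := RingHom.ext hφ
  obtain ⟨t0, ht0⟩ : ∃ t0 : Ω, t0 ^ ℓ = algebraMap E Ω g := IsAlgClosed.exists_pow_nat_eq _ hℓp.pos
  obtain ⟨hT1, -, -⟩ := hT Ω u y t0 hu hy ht0
  refine loc_core v hcv1 f₀ hcv2 (sep_mod _ v.isMaximal _ _ _ D hcv3 hAB)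
    (by rw [hdegE]; exact hdvd) (by rw [hdegE]; exact h3) h₀ hh₀ (Periods σ h) hQ a ha ha'
    x g (algebraMap K E (algebraMap (𝓞 K) K d) * z) (c₂ * c₃) hcv4 ?_ hdegL (algebraMap E F) hi
    hxL hFx u (c₀ * y) t hu ?_ ht ?_ ?_ N ?_ S hcont hcompat ?_
  · intro κ M _ _ _ _ i V O hO
    exact ⟨hgood' κ M i V O hO.right, hgood κ M i V O hO.left⟩
  · rw [mul_pow, hc₀, hy]
    have h1 : f₀.eval₂ ((algebraMap K Ω).comp (algebraMap (𝓞 K) K)) (algebraMap E Ω x) =
        algebraMap K Ω (algebraMap (𝓞 K) K c₁) * aeval (algebraMap E Ω x) f := by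
      rw [← eval₂_map, hf₀K, eval₂_mul, eval₂_C]
      rfl
    rw [hφ', hxΩ, h1, aeval_algebraMap_apply]
    rfl
  · intro e
    rw [hTow]
    exact hT1 e
  · intro t₁ ht₁
    rw [hTow]
    exact (hT Ω u y t₁ hu hy ht₁).2.1
  · intro z hz
    apply hN
    rw [← hcF]
    exact hz
  · intro t₁ W ht₁ hWL hWtop hram
    have hWK : ∀ c : K, algebraMap K Ω c ∈ W := fun c => hWL _
    obtain ⟨h1, h2⟩ := (hT Ω u y t₁ hu hy ht₁).2.2 W hWK hWtop
      (fun w hw hw0 => hram w (hgeo w hw) hw0)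
    have hz : algebraMap F Ω (algebraMap E F (algebraMap K E (algebraMap (𝓞 K) K d) * z)) =
        algebraMap K Ω (algebraMap (𝓞 K) K d) * algebraMap E Ω z := by
      rw [map_mul, map_mul]
      congr 1
      exact (IsScalarTower.algebraMap_apply K E Ω _).symm
    rw [hz]
    refine ⟨mul_mem (hWK _) h1, ?_⟩
    rw [hφ', hheq Ω (algebraMap E Ω z)]
    exact non_mul (hWK _) h2

theorem main_density {K : Type} [Field K] [NumberField K] {ℓ j : ℕ} [Fact ℓ.Prime] (f : K[X])
    (hf : (expand K (ℓ ^ j) f).Separable) (hdvd : ℓ ∣ (expand K (ℓ ^ j) f).natDegree)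
    (h3 : 3 ≤ (expand K (ℓ ^ j) f).natDegree) {E : Type} [Field E] [Algebra K E] (x g z : E)
    (hx : Transcendental K x) [FiniteDimensional (IntermediateField.adjoin K {x}) E] (hg : g ≠ 0)
    (h : K[X]) (hh : h ≠ 0) (hT : InT ℓ j f x g z h)
    (σ : AlgebraicClosure K ≃ₐ[K] AlgebraicClosure K) (ε : ℝ) (hε : 0 < ε) :
    ∃ I : Ideal (𝓞 K), I ≠ ⊥ ∧
      (Set.ncard ((Ideal.Quotient.mk I) ''
        {a : 𝓞 K | ¬ ∀ (L : Type) [Field L] [Algebra K L] [FiniteDimensional K L],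
          Module.finrank K L ∉ AddSubmonoid.closure (insert ℓ (Periods σ h)) →
          NoS ℓ j f x g (algebraMap (𝓞 K) K a) L}) : ℝ) ≤
      ε * Nat.card (𝓞 K ⧸ I) := by
  obtain ⟨T, hT, hTε⟩ := main_primes f hf hdvd h3 x g z hx hg h hh hT σ ε hε
  refine ⟨∏ v ∈ T, v.asIdeal ^ 2, ?_, ?_⟩
  · refine Finset.prod_ne_zero_iff.2 fun v _ => pow_ne_zero _ v.ne_bot
  · have h1 := Pool.Agent.W417.SecC.D2.partD2 K T
      {a : 𝓞 K | ¬ ∀ (L : Type) [Field L] [Algebra K L] [FiniteDimensional K L],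
          Module.finrank K L ∉ AddSubmonoid.closure (insert ℓ (Periods σ h)) →
          NoS ℓ j f x g (algebraMap (𝓞 K) K a) L} (by
        intro a ha v hv hav
        by_contra hcon
        exact ha (hT v hv a hav hcon))
    exact h1.trans (mul_le_mul_of_nonneg_right hTε.le (Nat.cast_nonneg _))

end Pool.Agent.Helper45.EP
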