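import Pool.Agent.Helper45.EP.Tw
import Pool.Graph.R_seed8.Y157.PS.GeoC

/-! Restriction of sections, Hilbert 90, and the tower of a superelliptic curve. -/

set_option autoImplicit false
set_option linter.all false

open Polynomial FF

namespace Pool.Agent.Helper45.EP

open Pool.Agent.Y157.PS Pool.Agent.R925.L Pool.Agent.Y529.PS.IN

/-- restriction of a homomorphism to `Gal(N/F)` to a stable subfield -/
theorem exists_restr {G F N M : Type} [Group G] [Field F] [Field N] [Algebra F N] [Field M]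
    (j : M →+* N) (S : G →* (N ≃ₐ[F] N)) (hst : ∀ g z, ∃ w : M, j w = S g (j z)) :
    ∃ s : G →* RingAut M, ∀ g z, j (s g z) = S g (j z) := by
  choose φ hφ using hst
  have hinv : ∀ g g' z, g * g' = 1 → φ g (φ g' z) = z := by
    intro g g' z h
    apply j.injective
    rw [hφ, hφ]
    change (S g * S g') (j z) = _
    rw [← map_mul, h, map_one]
    rfl
  let s₀ : G → RingAut M := fun g =>
    { toFun := φ g
      invFun := φ g⁻¹
      left_inv := fun z => hinv _ _ z (inv_mul_cancel g)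
      right_inv := fun z => hinv _ _ z (mul_inv_cancel g)
      map_mul' := fun a b => j.injective (by rw [hφ, map_mul, map_mul, map_mul, hφ, hφ])
      map_add' := fun a b => j.injective (by rw [hφ, map_add, map_add, map_add, hφ, hφ]) }
  have hs₀ : ∀ g z, j (s₀ g z) = S g (j z) := hφ
  refine ⟨{ toFun := s₀, map_one' := ?_, map_mul' := ?_ }, hs₀⟩
  · ext z
    apply j.injective
    rw [hs₀, map_one]
    rfl
  · intro g g'
    ext z
    apply j.injective
    rw [hs₀, map_mul]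
    change S g (S g' (j z)) = j (s₀ g (s₀ g' z))
    rw [hs₀, hs₀]

section h90

variable {k κ : Type} [Field k] [Field κ] [Algebra k κ]

/-- Hilbert 90 for locally constant cocycles -/
theorem coboundary (c : (κ ≃ₐ[k] κ) → κ) (hc0 : ∀ σ, c σ ≠ 0)
    (hmul : ∀ σ τ : κ ≃ₐ[k] κ, c (σ * τ) = c σ * σ (c τ))
    (L : IntermediateField k κ) [FiniteDimensional k L]
    (hU : ∀ σ : κ ≃ₐ[k] κ, (∀ z ∈ L, σ z = z) → c σ = 1) :
    ∃ a : κ, a ≠ 0 ∧ ∀ σ : κ ≃ₐ[k] κ, σ a * c σ = a := by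
  classical
  let χ : (κ ≃ₐ[k] κ) → (L →ₐ[k] κ) := fun σ => (σ : κ →ₐ[k] κ).comp L.val
  have hχ : ∀ σ (b : L), χ σ b = σ (b : κ) := fun σ b => rfl
  have hfin : Finite (Set.range χ) := inferInstance
  haveI : Fintype (Set.range χ) := Fintype.ofFinite _
  have hwd : ∀ σ τ : κ ≃ₐ[k] κ, χ σ = χ τ → c σ = c τ := by
    intro σ τ h
    have h1 : τ = σ * (σ⁻¹ * τ) := by group
    rw [h1, hmul, hU (σ⁻¹ * τ), map_one, mul_one]
    intro z hz
    have h2 := DFunLike.congr_fun h ⟨z, hz⟩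
    rw [hχ, hχ] at h2
    show (σ⁻¹ : κ ≃ₐ[k] κ) (τ z) = z
    rw [← show σ z = τ z from h2]
    exact σ.symm_apply_apply z
  let g : Set.range χ → κ := fun t => c t.2.choose
  have hg : ∀ σ, g ⟨χ σ, σ, rfl⟩ = c σ := fun σ =>
    hwd _ _ (Set.mem_range_self σ : χ σ ∈ Set.range χ).choose_spec
  have hLI : LinearIndependent κ (fun t : Set.range χ => ((t : L →ₐ[k] κ) : L → κ)) := by
    have h1 := linearIndependent_monoidHom L κ
    let j : Set.range χ → (L →* κ) := fun t => ((t : L →ₐ[k] κ) : L →* κ)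
    have hj : Function.Injective j := by
      intro t t' h
      apply Subtype.ext
      ext b
      exact DFunLike.congr_fun h b
    exact h1.comp j hj
  have hex : ∃ b : L, ∑ t : Set.range χ, g t * (t : L →ₐ[k] κ) b ≠ 0 := by
    by_contra hcon
    push Not at hcon
    have h2 : ∑ t : Set.range χ, g t • ((t : L →ₐ[k] κ) : L → κ) = 0 := by
      funext b
      rw [Finset.sum_apply]
      exact hcon b
    have h3 := Fintype.linearIndependent_iff.1 hLI g h2 ⟨χ 1, 1, rfl⟩
    rw [hg] at h3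
    exact hc0 1 h3
  obtain ⟨b, hb⟩ := hex
  refine ⟨_, hb, fun τ => ?_⟩
  let e : Set.range χ → Set.range χ := fun t =>
    ⟨(τ : κ →ₐ[k] κ).comp (t : L →ₐ[k] κ), by
      obtain ⟨σ, hσ⟩ := t.2
      exact ⟨τ * σ, by rw [← hσ]; rfl⟩⟩
  have he : Function.Bijective e := by
    rw [← Finite.injective_iff_bijective]
    intro t t' h
    apply Subtype.ext
    ext b
    have h1 := congrArg (fun t : Set.range χ => (t : L →ₐ[k] κ) b) h
    exact τ.injective h1
  rw [map_sum, Finset.sum_mul]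
  rw [← he.sum_comp (fun t => g t * (t : L →ₐ[k] κ) b)]
  refine Finset.sum_congr rfl fun t _ => ?_
  obtain ⟨t, σ, rfl⟩ := t
  have h4 : e ⟨χ σ, σ, rfl⟩ = ⟨χ (τ * σ), τ * σ, rfl⟩ := rfl
  rw [h4, hg, hg, hmul, map_mul]
  rw [hχ, hχ]
  show τ (c σ) * τ (σ (b : κ)) * c τ = c τ * τ (c σ) * τ (σ (b : κ))
  ring

/-- the section acts on `Y` through a radical -/
theorem exists_delta [IsAlgClosed κ] [CharZero κ] [CharZero k] [IsAlgClosure k κ] {M : Type}
    [Field M] [Algebra κ M] {ℓ : ℕ} (hℓ : 0 < ℓ) (s : (κ ≃ₐ[k] κ) →* RingAut M)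
    (hconst : ∀ σ c, s σ (algebraMap κ M c) = algebraMap κ M (σ c))
    (hcont : ∀ z : M, ∃ E : IntermediateField k κ, FiniteDimensional k E ∧
      ∀ σ ∈ E.fixingSubgroup, s σ z = z) (Y : M) (hY0 : Y ≠ 0)
    (hY : ∀ σ, s σ (Y ^ ℓ) = Y ^ ℓ) :
    ∃ (δ : κ) (d : k), d ≠ 0 ∧ δ ^ ℓ = algebraMap k κ d ∧
      ∀ σ, s σ Y = algebraMap κ M (σ δ / δ) * Y := by
  have hcoc : ∀ σ : κ ≃ₐ[k] κ, ∃ c : κ, c ^ ℓ = 1 ∧ s σ Y = algebraMap κ M c * Y := by
    intro σ
    have h1 : (s σ Y / Y) ^ ℓ = 1 := by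
      rw [div_pow, ← map_pow, hY, div_self (pow_ne_zero _ hY0)]
    obtain ⟨c, hc1, hc2⟩ := const_of_pow (κ := κ) (z := s σ Y / Y) hℓ (a := 1) (by
      rw [h1, map_one])
    exact ⟨c, hc2, by rw [hc1, div_mul_cancel₀ _ hY0]⟩
  choose c hc1 hc2 using hcoc
  have hinj : ∀ a b : κ, algebraMap κ M a * Y = algebraMap κ M b * Y → a = b := fun a b h =>
    (algebraMap κ M).injective (mul_right_cancel₀ hY0 h)
  obtain ⟨L, hL, hLU⟩ := hcont Y
  obtain ⟨a, ha0, ha⟩ := coboundary c (fun σ h => by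
      have := hc1 σ
      rw [h, zero_pow hℓ.ne'] at this
      exact zero_ne_one this)
    (fun σ τ => by
      apply hinj
      have h1 : s (σ * τ) Y = s σ (s τ Y) := by rw [map_mul]; rfl
      rw [← hc2, h1, hc2 τ, map_mul, hconst, hc2, map_mul]
      ring)
    L (fun σ h => by
      apply hinj
      rw [← hc2, hLU σ ((IntermediateField.mem_fixingSubgroup_iff _ _).2 h), map_one, one_mul])
  have hσa : ∀ σ : κ ≃ₐ[k] κ, σ a ≠ 0 := fun σ => (_root_.map_ne_zero σ).2 ha0
  have hca : ∀ σ : κ ≃ₐ[k] κ, c σ = a / σ a := fun σ => by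
    rw [eq_div_iff (hσa σ), mul_comm]; exact ha σ
  have hfix : ∀ σ : κ ≃ₐ[k] κ, σ ((a⁻¹) ^ ℓ) = (a⁻¹) ^ ℓ := by
    intro σ
    have h1 := hc1 σ
    rw [hca, div_pow, div_eq_one_iff_eq (pow_ne_zero _ (hσa σ))] at h1
    rw [map_pow, map_inv₀, inv_pow, inv_pow, ← h1]
  have hnorm : Normal k κ := IsAlgClosure.normal k κ
  have hGal : IsGalois k κ := ⟨⟩
  obtain ⟨d, hd⟩ := IntermediateField.mem_bot.1 ((InfiniteGalois.mem_bot_iff_fixed _).2 hfix)
  refine ⟨a⁻¹, d, ?_, hd.symm, fun σ => ?_⟩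
  · rintro rfl
    rw [map_zero] at hd
    exact pow_ne_zero ℓ (inv_ne_zero ha0) hd.symm
  · rw [hc2, hca, map_inv₀, inv_div_inv]

end h90

section tower

variable (k : Type) {Ω : Type} [Field k] [Field Ω] [Algebra k Ω]

/-- the field `k̄(x, y)` -/
noncomputable def curveF (x y : Ω) : IntermediateField k Ω :=
  IntermediateField.adjoin k ((algebraicClosure k Ω : Set Ω) ∪ {x, y})

variable {k}

theorem const_curveF {x y c : Ω} (hc : c ∈ algebraicClosure k Ω) : c ∈ curveF k x y :=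
  IntermediateField.subset_adjoin k _ (Or.inl hc)

theorem x_curveF {x y : Ω} : x ∈ curveF k x y :=
  IntermediateField.subset_adjoin k _ (Or.inr (by simp))

theorem y_curveF {x y : Ω} : y ∈ curveF k x y :=
  IntermediateField.subset_adjoin k _ (Or.inr (by simp))

/-- `k̄(x, y)` as a simple extension of `k̄(x)` -/
theorem mem_curveF (x y : Ω) (δ : algebraicClosure k Ω) (hδ : δ ≠ 0) (z : Ω) :
    z ∈ IntermediateField.adjoin (IntermediateField.adjoin (algebraicClosure k Ω) {x})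
        {(δ : Ω) * y} ↔ z ∈ curveF k x y := by
  have hδ' : (δ : Ω) ≠ 0 := fun h => hδ (Subtype.ext h)
  constructor
  · intro hz
    refine adjoin_le_sub (T := (curveF k x y).toSubfield) ?_ ?_ z hz
    · intro r
      have h1 : (r : Ω) ∈ IntermediateField.adjoin (algebraicClosure k Ω) {x} := r.2
      refine adjoin_le_sub (T := (curveF k x y).toSubfield) ?_ ?_ _ h1
      · intro c
        exact const_curveF c.2
      · intro w hw
        rw [Set.mem_singleton_iff] at hw
        rw [hw]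
        exact x_curveF
    · intro w hw
      rw [Set.mem_singleton_iff] at hw
      rw [hw]
      exact mul_mem (S := Subfield Ω) (const_curveF δ.2) y_curveF
  · intro hz
    set K1 := IntermediateField.adjoin
        (IntermediateField.adjoin (algebraicClosure k Ω) {x}) {(δ : Ω) * y} with hK1
    have hR : ∀ w : Ω, w ∈ IntermediateField.adjoin (algebraicClosure k Ω) {x} →
        w ∈ K1 := fun w hw => K1.algebraMap_mem ⟨w, hw⟩
    have hκ : ∀ c : algebraicClosure k Ω, (c : Ω) ∈ K1 := fun c =>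
      hR _ (IntermediateField.algebraMap_mem _ c)
    refine adjoin_le_sub (T := K1.toSubfield) ?_ ?_ z hz
    · intro c
      exact hκ (algebraMap k (algebraicClosure k Ω) c)
    · intro w hw
      rcases hw with hw | hw
      · exact hκ ⟨w, hw⟩
      · rw [Set.mem_insert_iff, Set.mem_singleton_iff] at hw
        rcases hw with rfl | rfl
        · exact hR _ (IntermediateField.mem_adjoin_simple_self _ _)
        · have h1 : (δ : Ω) * w ∈ K1 := IntermediateField.mem_adjoin_simple_self _ _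
          have h2 : w = (δ : Ω)⁻¹ * ((δ : Ω) * w) := by
            rw [inv_mul_cancel_left₀ hδ']
          rw [h2]
          exact mul_mem (inv_mem (hκ δ)) h1

theorem maxPro_curveF (ℓ : ℕ) (x y : Ω) (δ : algebraicClosure k Ω) (hδ : δ ≠ 0) (z : Ω) :
    z ∈ maxPro ℓ (algebraicClosure k Ω) (IntermediateField.adjoin
      (IntermediateField.adjoin (algebraicClosure k Ω) {x}) {(δ : Ω) * y}) Ω ↔
      z ∈ maxPro ℓ k (curveF k x y) Ω := by
  set K1 := IntermediateField.adjoin
    (IntermediateField.adjoin (algebraicClosure k Ω) {x}) {(δ : Ω) * y} with hK1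
  have hmem : ∀ w : Ω, w ∈ K1 ↔ w ∈ curveF k x y := mem_curveF x y δ hδ
  let e : K1 ≃+* curveF k x y :=
    { toFun := fun w => ⟨w.1, (hmem _).1 w.2⟩
      invFun := fun w => ⟨w.1, (hmem _).2 w.2⟩
      left_inv := fun w => rfl
      right_inv := fun w => rfl
      map_mul' := fun w w' => rfl
      map_add' := fun w w' => rfl }
  refine maxPro_congr e (fun a => rfl) (fun W => ⟨fun h c => ?_, fun h c => ?_⟩) z
  · exact Pool.Agent.W620.SC.const_mem h c.2
  · exact h (algebraMap k (algebraicClosure k Ω) c)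

/-- automorphisms which preserve the base field preserve the maximal extension -/
theorem maxPro_stable (ℓ : ℕ) (K' : IntermediateField k Ω) (σ : Ω ≃ₐ[k] Ω)
    (h : ∀ z ∈ K', σ z ∈ K') (h' : ∀ z ∈ K', σ.symm z ∈ K') {z : Ω}
    (hz : z ∈ maxPro ℓ k K' Ω) : σ z ∈ maxPro ℓ k K' Ω := by
  have h1 : maxPro ℓ k K' Ω ≤ pre K' σ h (maxPro ℓ k K' Ω) := by
    conv_lhs => unfold maxPro
    refine iSup_le fun L => ?_
    intro y hy
    rw [mem_pre]
    have h4 : pre K' σ.symm h' L.1 ≤ maxPro ℓ k K' Ω := by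
      unfold maxPro
      exact le_iSup (fun L : {L : IntermediateField K' Ω // Lev ℓ L ∧ Unr k K' Ω L} => L.1)
        ⟨pre K' σ.symm h' L.1, pre_lev ℓ _ _ _ h _ L.2.1, pre_unr _ _ _ h _ L.2.2⟩
    apply h4
    rw [mem_pre, σ.symm_apply_apply]
    exact hy
  exact h1 hz

theorem curveF_stable {ℓ : ℕ} (hℓ : 0 < ℓ) (σ : Ω ≃ₐ[k] Ω) {x y : Ω} (hx : σ x = x)
    (hy : σ (y ^ ℓ) = y ^ ℓ) {z : Ω} (hz : z ∈ curveF k x y) : σ z ∈ curveF k x y := by
  have h1 : curveF k x y ≤ (curveF k x y).comap (σ : Ω →ₐ[k] Ω) := by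
    conv_lhs => unfold curveF
    rw [IntermediateField.adjoin_le_iff]
    intro c hc
    change σ c ∈ curveF k x y
    rcases hc with hc | hc
    · exact const_curveF ((map_mem_algebraicClosure_iff (σ : Ω →ₐ[k] Ω)).2 hc)
    · rw [Set.mem_insert_iff, Set.mem_singleton_iff] at hc
      rcases hc with rfl | rfl
      · rw [hx]; exact x_curveF
      · by_cases hy0 : c = 0
        · rw [hy0, map_zero]; exact zero_mem _
        have h2 : (σ c / c) ^ ℓ = 1 := by
          rw [div_pow, ← map_pow, hy, div_self (pow_ne_zero _ hy0)]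
        have h3 : σ c / c ∈ algebraicClosure k Ω := by
          rw [mem_algebraicClosure_iff']
          refine ⟨X ^ ℓ - 1, monic_X_pow_sub_C 1 hℓ.ne', ?_⟩
          rw [eval₂_sub, eval₂_pow, eval₂_X, eval₂_one, h2, sub_self]
        have h4 : σ c = σ c / c * c := by rw [div_mul_cancel₀ _ hy0]
        rw [h4]
        exact mul_mem (const_curveF h3) y_curveF
  exact h1 hz

theorem tower_stable {ℓ : ℕ} (hℓ : 0 < ℓ) (σ : Ω ≃ₐ[k] Ω) {x y : Ω} (hx : σ x = x)
    (hy : σ (y ^ ℓ) = y ^ ℓ) {z : Ω} (hz : z ∈ maxPro ℓ k (curveF k x y) Ω) :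
    σ z ∈ maxPro ℓ k (curveF k x y) Ω := by
  refine maxPro_stable ℓ _ σ (fun z hz => curveF_stable hℓ σ hx hy hz)
    (fun z hz => curveF_stable hℓ σ.symm ?_ ?_ hz) hz
  · rw [AlgEquiv.symm_apply_eq, hx]
  · rw [AlgEquiv.symm_apply_eq, hy]

end tower

end Pool.Agent.Helper45.EP
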