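import Pool.Agent.Helper45.EP.Pre
import Pool.Graph.R_seed8.W620.SC.Def

/-! The tower is unramified where `u` and `y` are. -/

set_option autoImplicit false
set_option linter.all false

open Polynomial FF

namespace Pool.Agent.Helper45.EP

open Pool.Agent.Y157.PS Pool.Agent.R925.L Pool.Agent.Y529.PS.IN

section

variable {k F Ω : Type} [Field k] [Field F] [Field Ω] [Algebra k F] [Algebra F Ω]
  [Algebra k Ω] [IsScalarTower k F Ω]

/-- a variant of `fixed_level` -/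
theorem fixed_level' (ℓ : ℕ) [Fact ℓ.Prime] [CharZero Ω] [IsAlgClosed Ω] (W : ValuationSubring Ω)
    (hW : ∀ c : k, algebraMap k Ω c ∈ W) (σ : Ω ≃ₐ[k] Ω)
    (hσ : ∀ z ∈ W, σ z - z ∈ W.nonunits) (K' : IntermediateField k Ω)
    (hκ : ∀ z ∈ algebraicClosure k Ω, z ∈ K') (hfix : ∀ z ∈ K', σ z = z)
    (L : IntermediateField K' Ω)
    (hL : Lev ℓ L) (hU : Unr k K' Ω L) {y : Ω} (hy : y ∈ L) : σ y = y := by
  have hfin : FiniteDimensional K' L := hL.fin
  have hgal : IsGalois K' L := hL.gal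
  let τ : Ω ≃ₐ[K'] Ω := AlgEquiv.ofRingEquiv (f := (σ : Ω ≃+* Ω)) (fun c => hfix c c.2)
  have hτ : ∀ z, τ z = σ z := fun z => rfl
  have hτj : ∀ (j : ℕ) z, (τ ^ j) z = (σ ^ j) z := by
    intro j
    induction j with
    | zero => intro z; rw [pow_zero, pow_zero]; rfl
    | succ j ih =>
      intro z
      rw [pow_succ, pow_succ, AlgEquiv.mul_apply, AlgEquiv.mul_apply, ih, hτ]
  set N := Module.finrank K' L with hN
  have hN0 : 0 < N := Module.finrank_pos
  haveI : NeZero N := ⟨hN0.ne'⟩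
  obtain ⟨ζ, hζ⟩ : ∃ ζ : Ω, IsPrimitiveRoot ζ N := HasEnoughRootsOfUnity.exists_primitiveRoot Ω N
  have hζ0 : ζ ≠ 0 := hζ.ne_zero hN0.ne'
  have hζk : ζ ∈ algebraicClosure k Ω := by
    rw [mem_algebraicClosure_iff']
    exact hζ.isIntegral hN0 |>.tower_top
  have hσζ : σ ζ = ζ := kbar_fixed (F := k) W hW σ hσ hζk
  apply fixed_of_comp (F := k) σ hN0 hζ y
  intro i
  set u := comp (F := k) σ N ζ y i with hu
  have huL : u ∈ L := by
    rw [hu]
    unfold Pool.Agent.Y529.PS.IN.comp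
    refine sum_mem fun j _ => mul_mem (pow_mem (pow_mem (inv_mem ?_) _) _) ?_
    · exact L.algebraMap_mem (⟨ζ, hκ ζ hζk⟩ : K')
    · rw [← hτj]
      exact level_mem L (τ ^ j) hy
  have heig : σ u = ζ ^ i * u := comp_eigen (F := k) σ hζ.pow_eq_one hζ0 hσζ y (by
    rw [← hτj]; exact level_pow L τ hy) i
  by_cases hu0 : u = 0
  · rw [hu0, map_zero]
  obtain ⟨t, ht0, ht⟩ := hU W hW u huL hu0
  have ht' : σ (t : Ω) = t := hfix t t.2
  set a := u / algebraMap K' Ω t with ha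
  have h1 : σ a = ζ ^ i * a := by
    rw [ha, map_div₀, heig]
    change _ / σ (t : Ω) = _
    rw [ht']
    exact mul_div_assoc _ _ _
  have h2 := hσ a ht.2.1
  rw [h1] at h2
  have h3 : ζ ^ i * a - a = a * (ζ ^ i - 1) := by ring
  rw [h3] at h2
  have h4 := non_of_isU_mul ht h2
  have h5 := zero_of_nonunit W hW (sub_mem (pow_mem hζk i) (one_mem _)) h4
  rw [heig, sub_eq_zero.1 h5, one_mul]

/-- an element with a power in `F` whose value is the value of an element of `k̄ F` is fixed -/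
theorem root_fixed (W : ValuationSubring Ω) (hW : ∀ c : k, algebraMap k Ω c ∈ W) (σ : Ω ≃ₐ[F] Ω)
    (hσ : ∀ z ∈ W, σ z - z ∈ W.nonunits) {m : ℕ} (hm : 0 < m) {u w : Ω}
    (hw : w ∈ geomF k F Ω) (hu : IsU W (u / w)) (hum : σ (u ^ m) = u ^ m) : σ u = u := by
  have hu0 : u ≠ 0 := by
    rintro rfl
    exact hu.1 (zero_div _)
  have hζ : (σ u / u) ^ m = 1 := by
    rw [div_pow, ← map_pow, hum, div_self (pow_ne_zero _ hu0)]
  have hζk : σ u / u ∈ algebraicClosure k Ω := by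
    rw [mem_algebraicClosure_iff']
    refine ⟨X ^ m - 1, monic_X_pow_sub_C 1 hm.ne', ?_⟩
    rw [eval₂_sub, eval₂_pow, eval₂_X, eval₂_one, hζ, sub_self]
  have hσw : σ w = w := geomF_fixed W hW σ hσ hw
  have h1 : σ (u / w) = (σ u / u) * (u / w) := by
    rw [map_div₀, hσw]
    field_simp
  have h2 := hσ _ hu.2.1
  rw [h1] at h2
  have h3 : σ u / u * (u / w) - u / w = (u / w) * (σ u / u - 1) := by ring
  rw [h3] at h2
  have h4 := non_of_isU_mul hu h2
  have h5 := zero_of_nonunit W hW (sub_mem hζk (one_mem _)) h4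
  rw [sub_eq_zero, div_eq_one_iff_eq hu0] at h5
  exact h5

theorem tower_fixed {ℓ m : ℕ} [Fact ℓ.Prime] (hm : 0 < m) [CharZero Ω] [IsAlgClosed Ω]
    (W : ValuationSubring Ω) (hW : ∀ c : k, algebraMap k Ω c ∈ W) (σ : Ω ≃ₐ[F] Ω)
    (hσ : ∀ z ∈ W, σ z - z ∈ W.nonunits) {u y w₁ w₂ : Ω}
    (hw₁ : w₁ ∈ geomF k F Ω) (hw₂ : w₂ ∈ geomF k F Ω) (hu : IsU W (u / w₁)) (hy : IsU W (y / w₂))
    (hum : σ (u ^ m) = u ^ m) (hyℓ : σ (y ^ ℓ) = y ^ ℓ) {z : Ω}
    (hz : z ∈ maxPro ℓ k (curveF k u y) Ω) : σ z = z := by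
  have hℓp : ℓ.Prime := Fact.out
  let σ' : Ω ≃ₐ[k] Ω := σ.restrictScalars k
  have hσ' : ∀ z, σ' z = σ z := fun z => rfl
  have hfix : ∀ z ∈ curveF k u y, σ' z = z := by
    intro z hz
    have h1 : curveF k u y ≤ fixF (F := k) σ' := by
      unfold curveF
      rw [IntermediateField.adjoin_le_iff]
      intro c hc
      rcases hc with hc | hc
      · exact kbar_fixed W hW σ hσ hc
      · rw [Set.mem_insert_iff, Set.mem_singleton_iff] at hc
        rcases hc with rfl | rfl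
        · exact root_fixed W hW σ hσ hm hw₁ hu hum
        · exact root_fixed W hW σ hσ hℓp.pos hw₂ hy hyℓ
    exact h1 hz
  have h1 : maxPro ℓ k (curveF k u y) Ω ≤ fixK (F := k) (curveF k u y) σ' hfix := by
    unfold maxPro
    refine iSup_le fun L => ?_
    intro y' hy'
    exact fixed_level' ℓ W hW σ' hσ (curveF k u y) (fun z hz => const_curveF hz) hfix L.1 L.2.1
      L.2.2 hy'
  exact h1 hz

end

end Pool.Agent.Helper45.EP
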