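import Pool.Agent.Helper45.EP.Core
import Pool.Agent.Helper45.EP.UnrT
import Pool.Graph.R_seed8.W723.SecC.D1d

/-! Auxiliary results for the final theorem. -/

set_option autoImplicit false
set_option linter.all false

open Polynomial FF NumberField IsDedekindDomain

namespace Pool.Agent.Helper45.EP

open Pool.Agent.Y157.PS Pool.Agent.R925.L Pool.Agent.Y529.PS.IN

section base

variable {K L Ω : Type} [Field K] [Field L] [Field Ω] [Algebra K L] [Algebra K Ω] [Algebra L Ω]
  [IsScalarTower K L Ω] [Algebra.IsAlgebraic K L]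

theorem algCl_iff (c : Ω) : c ∈ algebraicClosure K Ω ↔ c ∈ algebraicClosure L Ω := by
  rw [mem_algebraicClosure_iff', mem_algebraicClosure_iff']
  constructor
  · intro h
    exact h.tower_top
  · intro h
    have hKL : Algebra.IsIntegral K L := Algebra.IsAlgebraic.isIntegral
    exact isIntegral_trans (R := K) (A := L) _ h

theorem curveF_base (u y z : Ω) : z ∈ curveF K u y ↔ z ∈ curveF L u y := by
  constructor
  · intro hz
    refine adjoin_le_sub (T := (curveF L u y).toSubfield) ?_ ?_ z hz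
    · intro c
      rw [IsScalarTower.algebraMap_apply K L Ω]
      exact (curveF L u y).algebraMap_mem _
    · rintro w (hw | hw)
      · exact const_curveF ((algCl_iff (K := K) (L := L) w).1 hw)
      · exact IntermediateField.subset_adjoin L _ (Or.inr hw)
  · intro hz
    refine adjoin_le_sub (T := (curveF K u y).toSubfield) ?_ ?_ z hz
    · intro c
      exact const_curveF ((algCl_iff (K := K) (L := L) _).2
        (IntermediateField.algebraMap_mem (algebraicClosure L Ω) c))
    · rintro w (hw | hw)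
      · exact const_curveF ((algCl_iff (K := K) (L := L) w).2 hw)
      · exact IntermediateField.subset_adjoin K _ (Or.inr hw)

theorem tower_base (ℓ : ℕ) (u y z : Ω) :
    z ∈ maxPro ℓ K (curveF K u y) Ω ↔ z ∈ maxPro ℓ L (curveF L u y) Ω := by
  let e : curveF K u y ≃+* curveF L u y :=
    { toFun := fun w => ⟨w.1, (curveF_base _ _ _).1 w.2⟩
      invFun := fun w => ⟨w.1, (curveF_base _ _ _).2 w.2⟩
      left_inv := fun w => rfl
      right_inv := fun w => rfl
      map_mul' := fun w w' => rfl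
      map_add' := fun w w' => rfl }
  refine maxPro_congr e (fun a => rfl) (fun W => ⟨fun h c => ?_, fun h c => ?_⟩) z
  · rw [IsScalarTower.algebraMap_apply K L Ω]
    exact h _
  · exact Pool.Agent.W620.SC.const_mem (k := K) h ((algCl_iff (K := K) (L := L) _).2
      (IntermediateField.algebraMap_mem (algebraicClosure L Ω) c))

end base

theorem curveF_scale {k Ω : Type} [Field k] [Field Ω] [Algebra k Ω] (u y c : Ω)
    (hc : c ∈ algebraicClosure k Ω) (hc0 : c ≠ 0) : curveF k u (c * y) = curveF k u y := by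
  have key : ∀ (c y : Ω), c ∈ algebraicClosure k Ω → curveF k u (c * y) ≤ curveF k u y := by
    intro c y hc
    conv_lhs => unfold curveF
    rw [IntermediateField.adjoin_le_iff]
    rintro w (hw | hw)
    · exact const_curveF hw
    · rw [Set.mem_insert_iff, Set.mem_singleton_iff] at hw
      rcases hw with rfl | rfl
      · exact x_curveF
      · exact mul_mem (const_curveF hc) y_curveF
  refine le_antisymm (key c y hc) ?_
  have h1 := key c⁻¹ (c * y) (inv_mem hc)
  rwa [inv_mul_cancel_left₀ hc0] at h1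

theorem sep_mod {R : Type} [CommRing R] (v : Ideal R) (hv : v.IsMaximal) (g a b : R[X]) (D : R)
    (hD : D ∉ v) (h : a * g + b * derivative g = C D) :
    (g.map (Ideal.Quotient.mk v)).Separable := by
  obtain ⟨y, hy⟩ : ∃ y : R, (Ideal.Quotient.mk v) (y * D) = 1 := by
    obtain ⟨y, z, hz, hy⟩ := hv.exists_inv hD
    refine ⟨y, ?_⟩
    have h6 := congrArg (Ideal.Quotient.mk v) hy
    rw [map_add, Ideal.Quotient.eq_zero_iff_mem.mpr hz, add_zero, map_one] at h6
    exact h6
  refine ⟨C (Ideal.Quotient.mk _ y) * a.map (Ideal.Quotient.mk _),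
    C (Ideal.Quotient.mk _ y) * b.map (Ideal.Quotient.mk _), ?_⟩
  have h5 := congrArg (Polynomial.map (Ideal.Quotient.mk v)) h
  rw [Polynomial.map_add, Polynomial.map_mul, Polynomial.map_mul, map_C] at h5
  rw [derivative_map, mul_assoc, mul_assoc, ← mul_add, h5, ← C_mul, ← map_mul, hy, C_1]

/-- integral multiples of polynomials -/
theorem exists_int {K : Type} [Field K] [NumberField K] (f : K[X]) (hf : f ≠ 0) :
    ∃ (f₀ : (𝓞 K)[X]) (c : 𝓞 K), c ≠ 0 ∧ f₀ ≠ 0 ∧
      f₀.map (algebraMap (𝓞 K) K) = C (algebraMap (𝓞 K) K c) * f ∧ f₀.natDegree = f.natDegree := by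
  classical
  obtain ⟨c, hc, hcf⟩ := IsLocalization.integerNormalization_spec (nonZeroDivisors (𝓞 K)) f
  set g := IsLocalization.integerNormalization (nonZeroDivisors (𝓞 K)) f with hg
  have hc0 : c ≠ 0 := nonZeroDivisors.ne_zero hc
  have hinj : Function.Injective (algebraMap (𝓞 K) K) := IsFractionRing.injective (𝓞 K) K
  have hcK : algebraMap (𝓞 K) K c ≠ 0 := by
    rw [Ne, map_eq_zero_iff _ hinj]
    exact hc0
  have hgf : g.map (algebraMap (𝓞 K) K) = C (algebraMap (𝓞 K) K c) * f := by
    rw [hcf]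
    ext i
    rw [coeff_smul, coeff_C_mul, Algebra.smul_def]
  refine ⟨g, c, hc0, ?_, hgf, ?_⟩
  · intro h
    rw [h, Polynomial.map_zero] at hgf
    rcases mul_eq_zero.1 hgf.symm with h1 | h1
    · exact hcK (C_eq_zero.1 h1)
    · exact hf h1
  · rw [← natDegree_map_eq_of_injective hinj g, hgf, natDegree_C_mul hcK]

/-- a monic polynomial whose roots are multiples of the roots of a given polynomial -/
theorem exists_monic {K : Type} [Field K] [NumberField K] (h : K[X]) (hh : h ≠ 0) :
    ∃ (h₀ : (𝓞 K)[X]) (d : 𝓞 K) (e : K), d ≠ 0 ∧ e ≠ 0 ∧ h₀.Monic ∧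
      ∀ (Ω : Type) [Field Ω] [Algebra K Ω] (z : Ω),
        h₀.eval₂ ((algebraMap K Ω).comp (algebraMap (𝓞 K) K))
          (algebraMap K Ω (algebraMap (𝓞 K) K d) * z) = algebraMap K Ω e * aeval z h := by
  obtain ⟨h₁, c, hc, hh₁, hh₁K, -⟩ := exists_int h hh
  set d := h₁.leadingCoeff with hd
  have hd0 : d ≠ 0 := leadingCoeff_ne_zero.2 hh₁
  have hinj : Function.Injective (algebraMap (𝓞 K) K) := IsFractionRing.injective (𝓞 K) K
  have hdK : algebraMap (𝓞 K) K d ≠ 0 := by
    rw [Ne, map_eq_zero_iff _ hinj]; exact hd0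
  have hcK : algebraMap (𝓞 K) K c ≠ 0 := by
    rw [Ne, map_eq_zero_iff _ hinj]; exact hc
  refine ⟨h₁.integralNormalization, d,
    (algebraMap (𝓞 K) K d)⁻¹ * (algebraMap (𝓞 K) K d) ^ h₁.natDegree * algebraMap (𝓞 K) K c, hd0,
    mul_ne_zero (mul_ne_zero (inv_ne_zero hdK) (pow_ne_zero _ hdK)) hcK,
    monic_integralNormalization hh₁, fun Ω _ _ z => ?_⟩
  set φ : 𝓞 K →+* Ω := (algebraMap K Ω).comp (algebraMap (𝓞 K) K) with hφ
  have h1 := integralNormalization_mul_C_leadingCoeff h₁
  have h2 := congrArg (fun p => p.eval₂ φ (φ d * z)) h1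
  simp only [← hd] at h2
  rw [eval₂_mul, eval₂_C, scaleRoots_eval₂_mul] at h2
  have h3 : h₁.eval₂ φ z = algebraMap K Ω (algebraMap (𝓞 K) K c) * aeval z h := by
    have h4 : h₁.eval₂ φ z = (h₁.map (algebraMap (𝓞 K) K)).eval₂ (algebraMap K Ω) z := by
      rw [eval₂_map]
    rw [h4, hh₁K, eval₂_mul, eval₂_C]
    rfl
  have hφd : φ d ≠ 0 := (_root_.map_ne_zero (algebraMap K Ω)).2 hdK
  rw [h3] at h2
  have h5 : φ d = algebraMap K Ω (algebraMap (𝓞 K) K d) := rfl
  rw [h5] at h2 hφd
  apply mul_right_cancel₀ hφd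
  rw [h2, map_mul, map_mul, map_pow, map_inv₀]
  field_simp

end Pool.Agent.Helper45.EP
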