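import Pool.Agent.Helper45.EP.Loc
import Pool.Graph.R_seed8.R925.L.Loc3

/-! The local theorem for twists `t ^ ℓ = a g`. -/

set_option autoImplicit false
set_option linter.all false

open Polynomial FF

namespace Pool.Agent.Helper45.EP

open Pool.Agent.Y157.PS Pool.Agent.R925.L

section tame

variable {A k κ : Type} [CommRing A] [IsDomain A]
    [IsDiscreteValuationRing A] [Field k] [Field κ] [Algebra A k] [Algebra k κ] [Algebra A κ]
    [IsScalarTower A k κ]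

/-- inertia elements which move the radical `δ` move the radical `α` -/
theorem ine_move {ℓ : ℕ} [Fact ℓ.Prime] {V : ValuationSubring κ} {ϖ : A} {α δ : κ} {n m : ℤ}
    (hα : Base ℓ A k κ V ϖ α n) (hδ : Base ℓ A k κ V ϖ δ m) {τ : κ ≃ₐ[k] κ} (hτ : Ine V τ)
    (h : τ δ ≠ δ) : τ α ≠ α := by
  have hp := (Fact.out : ℓ.Prime)
  have hℓ : IsU V (ℓ : κ) := hα.isU
  have hα0 := hα.δ0
  have hδ0 := hδ.δ0
  have hϖn : algebraMap A κ ϖ ∈ V.nonunits := hα.non _ ((IsLocalRing.mem_maximalIdeal _).2 hα.irr.not_isUnit)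
  have hϖ0 : algebraMap A κ ϖ ≠ 0 := by
    intro h0
    have h1 := hδ.δv
    rw [h0] at h1
    by_cases hm0 : m = 0
    · exact hδ.cop (by rw [hm0]; exact dvd_zero _)
    · rw [zero_zpow _ hm0, div_zero] at h1
      exact h1.1 rfl
  -- an integer `j` with `δ = α ^ j` up to units and powers of `ϖ`
  obtain ⟨j, q, hjq⟩ : ∃ j q : ℤ, m = j * n + ℓ * q := by
    have hcop : IsCoprime (n : ℤ) (ℓ : ℤ) := by
      rw [Int.isCoprime_iff_gcd_eq_one]
      rcases (Nat.coprime_or_dvd_of_prime hp n.natAbs) with h1 | h1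
      · have h2 : Nat.gcd n.natAbs ℓ = 1 := by rw [Nat.gcd_comm]; exact h1
        rw [Int.gcd, Int.natAbs_natCast]
        exact h2
      · exact absurd (Int.natCast_dvd.2 h1) hα.cop
    obtain ⟨u, w, huw⟩ := hcop
    exact ⟨m * u, m * w, by linear_combination (-m) * huw⟩
  intro hτα
  apply h
  set ρ : κ := δ / algebraMap A κ ϖ ^ q with hρ
  have hpow : (ρ / α ^ j) ^ ℓ = (δ ^ ℓ / algebraMap A κ ϖ ^ m) * ((α ^ ℓ / algebraMap A κ ϖ ^ n) ^ j)⁻¹ := by
    have e1 : (algebraMap A κ ϖ ^ q) ^ ℓ = algebraMap A κ ϖ ^ (ℓ * q : ℤ) := by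
      rw [← zpow_natCast, ← zpow_mul, mul_comm]
    have e2 : (α ^ j) ^ ℓ = (α ^ ℓ) ^ j := by
      rw [← zpow_natCast, ← zpow_natCast, ← zpow_mul, ← zpow_mul, mul_comm]
    have e3 : algebraMap A κ ϖ ^ m = (algebraMap A κ ϖ ^ n) ^ j * algebraMap A κ ϖ ^ (ℓ * q : ℤ) := by
      rw [hjq, zpow_add₀ hϖ0, mul_comm j n, zpow_mul]
    have h3 : (algebraMap A κ ϖ ^ n) ^ j ≠ 0 := zpow_ne_zero _ (zpow_ne_zero _ hϖ0)
    have h4 : algebraMap A κ ϖ ^ (ℓ * q : ℤ) ≠ 0 := zpow_ne_zero _ hϖ0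
    have h5 : (α ^ ℓ) ^ j ≠ 0 := zpow_ne_zero _ (pow_ne_zero _ hα0)
    rw [div_pow, hρ, div_pow, e1, e2, e3, div_zpow]
    field_simp
  have hu : IsU V (ρ / α ^ j) := by
    refine isU_of_pow hp.pos ?_
    rw [hpow]
    exact hδ.δv.mul (isU_zpow hα.δv j).inv
  have hk : ∃ a : k, (ρ / α ^ j) ^ ℓ = algebraMap k κ a := by
    obtain ⟨a1, ha1⟩ := hα.δk
    obtain ⟨d1, hd1⟩ := hδ.δk
    refine ⟨(d1 / algebraMap A k ϖ ^ m) * ((a1 / algebraMap A k ϖ ^ n) ^ j)⁻¹, ?_⟩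
    rw [hpow, ha1, hd1, map_mul, map_inv₀, map_zpow₀, map_div₀, map_div₀, map_zpow₀, map_zpow₀,
      ← IsScalarTower.algebraMap_apply]
  have h6 := ine_unit hp.pos hℓ hτ hu hk
  have hτϖ : τ (algebraMap A κ ϖ) = algebraMap A κ ϖ := by
    rw [IsScalarTower.algebraMap_apply A k κ, τ.commutes]
  rw [map_div₀, map_zpow₀, hτα, hρ, map_div₀, map_zpow₀, hτϖ] at h6
  have h7 : α ^ j ≠ 0 := zpow_ne_zero _ hα0
  have h8 : algebraMap A κ ϖ ^ q ≠ 0 := zpow_ne_zero _ hϖ0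
  rw [div_left_inj' h7, div_left_inj' h8] at h6
  exact h6

end tame

/-- the local theorem for twists: `E ⊆ M` is fixed by the section, `t ^ ℓ = g ∈ E`, and the section
acts on `t` through the radical `α` of valuation prime to `ℓ`; then the section fixes a place at
which `t` is ramified -/
theorem loc_tw (ℓ : ℕ) [Fact ℓ.Prime] (A k κ R M : Type) [CommRing A] [IsDomain A]
    [IsDiscreteValuationRing A] [Field k] [Field κ] [Algebra A k] [Algebra k κ] [Algebra A κ]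
    [IsScalarTower A k κ] [IsFractionRing A k] [CharZero k] [IsAlgClosure k κ]
    [Finite (IsLocalRing.ResidueField A)] [Field R] [Field M] [Algebra κ R] [Algebra R M]
    [Algebra κ M] [IsScalarTower κ R M] (V : ValuationSubring κ) (ϖ : A) (α : κ) (n : ℤ)
    (hα : Base ℓ A k κ V ϖ α n) (x : R) (B : Finset κ) (Y : M) (hC : Cov ℓ κ R M x B Y)
    (hGood : Good V B) (F : Type) [Field F] (r : V →+* F) (hr : Res V r) (D : Disc ℓ V r)
    (δ : κ) (d : k) (hd0 : d ≠ 0) (hd : δ ^ ℓ = algebraMap k κ d)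
    (s : (κ ≃ₐ[k] κ) →* RingAut M) (hs : Sec k κ R M x Y δ s)
    (E : Type) [Field E] (i : E →+* M) (hsE : ∀ σ e, s σ (i e) = i e)
    (hE : ∀ O : ValuationSubring M, Gauss V (algebraMap R M x) O → ∀ γ : M ≃ₐ[R] M,
      (∀ e, i e ∈ O → γ (i e) - i e ∈ O.nonunits) → ∀ e, γ (i e) = i e)
    (g : E) (t : M) (htg : t ^ ℓ = i g)
    (hg : ∀ O : ValuationSubring M, Gauss V (algebraMap R M x) O → IsU O (i g))
    (ht : ∀ σ, s σ t = algebraMap κ M (α / σ α) * t) :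
    ∃ (W : Place κ M) (γ : M ≃ₐ[R] M), Fixes W γ ∧ (∀ e, γ (i e) = i e) ∧ γ t ≠ t ∧
      (∃ e ∈ B, 0 < W.ord (algebraMap R M x - algebraMap κ M e)) ∧
      ∀ σ : κ ≃ₐ[k] κ, Dec V σ → Fixes W (s σ) := by
  have hac : IsAlgClosed κ := IsAlgClosure.isAlgClosed k
  have hcz : CharZero κ := charZero_of_injective_algebraMap (algebraMap k κ).injective
  have hp := (Fact.out : ℓ.Prime).pos
  have hℓ : IsU V (ℓ : κ) := hα.isU
  have hα0 := hα.δ0
  have hδ0 : δ ≠ 0 := by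
    rintro rfl
    rw [zero_pow hp.ne'] at hd
    exact (_root_.map_ne_zero (algebraMap k κ)).2 hd0 hd.symm
  have hinjA : Function.Injective (algebraMap A k) := IsFractionRing.injective A k
  have hϖk : algebraMap A k ϖ ≠ 0 := by
    rw [Ne, map_eq_zero_iff _ hinjA]
    exact hα.irr.ne_zero
  have hϖ0 : algebraMap A κ ϖ ≠ 0 := by
    rw [IsScalarTower.algebraMap_apply A k κ]
    exact (_root_.map_ne_zero _).2 hϖk
  -- `ζ = α / τ α`, where `τ` moves `α`
  have hroot : ∀ σ : κ ≃ₐ[k] κ, (α / σ α) ^ ℓ = 1 := by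
    intro σ
    rw [← inv_div, inv_pow, hα.ratio σ, inv_one]
  have hne1 : ∀ σ : κ ≃ₐ[k] κ, σ α ≠ α → α / σ α ≠ 1 := by
    intro σ h h1
    rw [div_eq_one_iff_eq ((_root_.map_ne_zero σ).2 hα0)] at h1
    exact h h1.symm
  have htU : ∀ O : ValuationSubring M, Gauss V (algebraMap R M x) O → IsU O t := by
    intro O hO
    refine isU_of_pow hp ?_
    rw [htg]
    exact hg O hO
  obtain ⟨t0, m, ht0, hdm⟩ := exists_unit_zpow (A := A) (k := k) hα.irr hd0
  have hδv : IsU V (δ ^ ℓ / algebraMap A κ ϖ ^ m) := by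
    have h1 : δ ^ ℓ / algebraMap A κ ϖ ^ m = algebraMap A κ t0 := by
      rw [hd, hdm, map_mul, map_zpow₀, ← IsScalarTower.algebraMap_apply,
        ← IsScalarTower.algebraMap_apply, mul_div_cancel_right₀ _ (zpow_ne_zero _ hϖ0)]
    rw [h1]
    exact isU_of_unit hα.mem ht0
  by_cases hm : (ℓ : ℤ) ∣ m
  · -- the section is unramified on `M`
    exfalso
    obtain ⟨q, hq⟩ := hm
    have hfixδ : ∀ σ : κ ≃ₐ[k] κ, Ine V σ → σ δ = δ := by
      intro σ hσ
      have h1 : (δ / algebraMap A κ ϖ ^ q) ^ ℓ = δ ^ ℓ / algebraMap A κ ϖ ^ m := by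
        rw [div_pow, hq, ← zpow_natCast (algebraMap A κ ϖ ^ q), ← zpow_mul, mul_comm q]
      have h2 : IsU V (δ / algebraMap A κ ϖ ^ q) := by
        refine isU_of_pow hp ?_
        rw [h1]; exact hδv
      have h3 := ine_unit hp hℓ hσ h2 ⟨d / algebraMap A k ϖ ^ m, by
        rw [h1, hd, map_div₀, map_zpow₀, ← IsScalarTower.algebraMap_apply]⟩
      rw [map_div₀, map_zpow₀] at h3
      have h4 : σ (algebraMap A κ ϖ) = algebraMap A κ ϖ := by
        rw [IsScalarTower.algebraMap_apply A k κ, σ.commutes]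
      rw [h4, div_left_inj' (zpow_ne_zero _ hϖ0)] at h3
      exact h3
    obtain ⟨e0, he0⟩ : B.Nonempty := by
      rw [← Finset.card_pos]
      have := hC.three
      omega
    have hRot := a_gex ℓ κ R M x B Y hC F V r hr hGood D
    obtain ⟨O, -, -, hO, -⟩ := hRot e0 he0
    have hun : ∀ O' : ValuationSubring M, Gauss V (algebraMap R M x) O' → O' = O :=
      fun O' h => a_gun ℓ κ R M x B Y hC V hRot O' O h hO
    obtain ⟨-, τ, hτ, hτα, -, -⟩ := a_tau ℓ A k κ V ϖ α n hα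
    have hs2 : Sec2 k κ R M x Y 1 δ s := by
      refine ⟨hs.const, fun σ => ?_, hs.fixy, hs.cont⟩
      rw [map_one, div_one, map_one, one_mul]
      exact hs.fixx σ
    have h1 := wgt2 (A := A) hα.lunit hα.mem hα.non hC hGood hr D one_ne_zero hδ0 hs2 hO hun hτ
      (map_one τ) (hfixδ τ hτ) (htU O hO).2.1
    have h2 : s τ t - t = t * algebraMap κ M (α / τ α - 1) := by
      rw [ht, map_sub, map_one]; ring
    rw [h2] at h1
    have h3 := hO.nonunit.1 (non_of_isU_mul (htU O hO) h1)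
    exact hne1 τ hτα (root_eq hℓ hp (hroot τ) (one_pow _) h3)
  · have hδ : Base ℓ A k κ V ϖ δ m := ⟨hα.lunit, hα.mem, hα.non, hα.irr, hm, ⟨d, hd⟩, hδv⟩
    obtain ⟨O, τ, γ, W, hO, hτ, hτδ, hγ, hγ1, hW, hWe, hfix⟩ :=
      loc_gam ℓ A k κ R M V ϖ δ m hδ x B Y hC hGood F r hr D s hs
    have hτα : τ α ≠ α := ine_move hα hδ hτ hτδ
    have hγE : ∀ e, γ (i e) = i e := by
      refine hE O hO γ fun e he => ?_
      have h1 := hγ (i e) he
      rwa [hsE] at h1
    refine ⟨W, γ, hW, hγE, ?_, hWe, hfix⟩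
    intro hγt
    have h1 := hγ t (htU O hO).2.1
    rw [hγt, ht] at h1
    have h2 : t - algebraMap κ M (α / τ α) * t = t * algebraMap κ M (1 - α / τ α) := by
      rw [map_sub, map_one]; ring
    rw [h2] at h1
    have h3 := hO.nonunit.1 (non_of_isU_mul (htU O hO) h1)
    exact hne1 τ hτα (root_eq hℓ hp (one_pow _) (hroot τ) h3).symm

end Pool.Agent.Helper45.EP
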